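import Pool.Agent.Lib.MP_ef5fdc_co.Interior

/-!
# The local shape of `T0`

`T0` and `U0` are given by the six affine functions `re + 1, 3 - re, 4 - im, im - 1, im - re, im + re`.
-/

set_option autoImplicit false

open Set Topology Filter Complex

namespace Pool.Agent.MP_ef5fdc_co

/-- positive germ -/
def Ps (a d : ℝ) : Prop := 0 < a ∨ (a = 0 ∧ 0 < d)

/-- nonnegative germ -/
def Pw (a d : ℝ) : Prop := 0 < a ∨ (a = 0 ∧ 0 ≤ d)

/-- positive germ, second order -/
def Pd (a d d' : ℝ) : Prop := 0 < a ∨ (a = 0 ∧ (0 < d ∨ (d = 0 ∧ 0 < d')))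

theorem Ps.germ {a d : ℝ} (h : Ps a d) : ∀ᶠ t : ℝ in 𝓝[>] 0, 0 < a + t * d := by
  rcases h with h | ⟨rfl, h⟩
  · have hc : Tendsto (fun t : ℝ => a + t * d) (𝓝[>] 0) (𝓝 (a + 0 * d)) :=
      ((continuous_const.add (continuous_id.mul continuous_const)).tendsto 0).mono_left
        nhdsWithin_le_nhds
    have := hc.eventually (lt_mem_nhds (show (0 : ℝ) < a + 0 * d by linarith))
    exact this
  · filter_upwards [self_mem_nhdsWithin] with t ht
    have : 0 < t * d := mul_pos ht h
    linarith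

theorem germ_neg {a d : ℝ} (h : ¬ Pw a d) : ∀ᶠ t : ℝ in 𝓝[>] 0, a + t * d < 0 := by
  have h2 : Ps (-a) (-d) := by
    unfold Pw at h
    push Not at h
    obtain ⟨h1, h2⟩ := h
    rcases h1.lt_or_eq with h3 | h3
    · left; linarith
    · right; exact ⟨by linarith, by linarith [h2 h3]⟩
  filter_upwards [h2.germ] with t ht
  linarith

theorem Pd.germ {a d d' : ℝ} (h : Pd a d d') : ∀ᶠ δ : ℝ in 𝓝[>] 0, Ps a (d + δ * d') := by
  rcases h with h | ⟨h, h'⟩
  · exact Eventually.of_forall fun δ => Or.inl h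
  · have h2 : Ps d d' := h'
    filter_upwards [h2.germ] with δ hδ
    exact Or.inr ⟨h, hδ⟩

theorem Ps_bad {a d d' : ℝ} (h : Pw a d) (h' : ¬ Pd a d d') : a = 0 ∧ d = 0 ∧ d' ≤ 0 := by
  unfold Pd at h'
  push Not at h'
  obtain ⟨h1, h2⟩ := h'
  rcases h with h | ⟨h, h3⟩
  · linarith
  · obtain ⟨h4, h5⟩ := h2 h
    have h6 : d = 0 := le_antisymm h4 h3
    exact ⟨h, h6, h5 h6⟩

theorem germ_U0 {q w : ℂ} (h0 : Ps (q.re + 1) w.re) (h1 : Ps (3 - q.re) (-w.re))
    (h2 : Ps (4 - q.im) (-w.im))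
    (h3 : Ps (q.im - 1) w.im ∨ (Ps (q.im - q.re) (w.im - w.re) ∧ Ps (q.im + q.re) (w.im + w.re))) :
    ∀ᶠ t : ℝ in 𝓝[>] 0, q + t * w ∈ U0 := by
  have h3' : ∀ᶠ t : ℝ in 𝓝[>] 0, 0 < q.im - 1 + t * w.im ∨
      (0 < q.im - q.re + t * (w.im - w.re) ∧ 0 < q.im + q.re + t * (w.im + w.re)) := by
    rcases h3 with h3 | ⟨h3, h4⟩
    · filter_upwards [h3.germ] with t ht using Or.inl ht
    · filter_upwards [h3.germ, h4.germ] with t ht ht' using Or.inr ⟨ht, ht'⟩
  filter_upwards [h0.germ, h1.germ, h2.germ, h3'] with t e0 e1 e2 e3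
  have hre : (q + t * w).re = q.re + t * w.re := by simp
  have him : (q + t * w).im = q.im + t * w.im := by simp
  refine ⟨?_, ?_, ?_, ?_⟩
  · rw [hre]; linarith
  · rw [hre]; linarith
  · rw [him]; linarith
  · rw [hre, him]
    rcases e3 with e3 | ⟨e3, e4⟩
    · left; linarith
    · right; constructor <;> linarith

theorem freq_T0 {q w : ℂ} (h : ∃ᶠ t : ℝ in 𝓝[>] 0, q + t * w ∈ T0) :
    Pw (q.re + 1) w.re ∧ Pw (3 - q.re) (-w.re) ∧ Pw (4 - q.im) (-w.im) ∧
    (Pw (q.im - 1) w.im ∨ (Pw (q.im - q.re) (w.im - w.re) ∧ Pw (q.im + q.re) (w.im + w.re))) := by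
  have hre : ∀ t : ℝ, (q + t * w).re = q.re + t * w.re := fun t => by simp
  have him : ∀ t : ℝ, (q + t * w).im = q.im + t * w.im := fun t => by simp
  refine ⟨?_, ?_, ?_, ?_⟩
  · by_contra hc
    refine h ?_
    filter_upwards [germ_neg hc] with t ht
    rintro ⟨h1, h2, h3, h4⟩
    rw [hre] at h1
    linarith
  · by_contra hc
    refine h ?_
    filter_upwards [germ_neg hc] with t ht
    rintro ⟨h1, h2, h3, h4⟩
    rw [hre] at h2
    linarith
  · by_contra hc
    refine h ?_
    filter_upwards [germ_neg hc] with t ht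
    rintro ⟨h1, h2, h3, h4⟩
    rw [him] at h3
    linarith
  · by_contra hc
    rw [not_or, not_and_or] at hc
    obtain ⟨hc1, hc2⟩ := hc
    refine h ?_
    rcases hc2 with hc2 | hc2
    · filter_upwards [germ_neg hc1, germ_neg hc2] with t ht ht'
      rintro ⟨h1, h2, h3, h4⟩
      rw [hre, him] at h4
      rcases h4 with h4 | ⟨h4, h5⟩ <;> linarith
    · filter_upwards [germ_neg hc1, germ_neg hc2] with t ht ht'
      rintro ⟨h1, h2, h3, h4⟩
      rw [hre, him] at h4
      rcases h4 with h4 | ⟨h4, h5⟩ <;> linarith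

theorem not_all {q v : ℂ} (r : Bool)
    (h2 : ∀ᶠ δ : ℝ in 𝓝[>] 0, ∀ᶠ t : ℝ in 𝓝[>] 0, q + t * (v - sg r * δ * I * v) ∉ U0) :
    ¬ (Pd (q.re + 1) v.re (sg r * v.im) ∧ Pd (3 - q.re) (-v.re) (-(sg r * v.im)) ∧
      Pd (4 - q.im) (-v.im) (sg r * v.re) ∧
      (Pd (q.im - 1) v.im (-(sg r * v.re)) ∨
        (Pd (q.im - q.re) (v.im - v.re) (-(sg r * v.re) - sg r * v.im) ∧
          Pd (q.im + q.re) (v.im + v.re) (-(sg r * v.re) + sg r * v.im)))) := by
  rintro ⟨g0, g1, g2, g3⟩
  have hre : ∀ δ : ℝ, (v - sg r * δ * I * v).re = v.re + δ * (sg r * v.im) := fun δ => by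
    simp
    ring
  have him : ∀ δ : ℝ, (v - sg r * δ * I * v).im = v.im + δ * (-(sg r * v.re)) := fun δ => by
    simp
    ring
  have g3' : ∀ᶠ δ : ℝ in 𝓝[>] 0, Ps (q.im - 1) (v.im + δ * (-(sg r * v.re))) ∨
      (Ps (q.im - q.re) ((v.im - v.re) + δ * (-(sg r * v.re) - sg r * v.im)) ∧
        Ps (q.im + q.re) ((v.im + v.re) + δ * (-(sg r * v.re) + sg r * v.im))) := by
    rcases g3 with g3 | ⟨g3, g4⟩
    · filter_upwards [g3.germ] with δ h using Or.inl h
    · filter_upwards [g3.germ, g4.germ] with δ h h' using Or.inr ⟨h, h'⟩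
  have hall : ∀ᶠ δ : ℝ in 𝓝[>] 0, False := by
    filter_upwards [h2, g0.germ, g1.germ, g2.germ, g3'] with δ h e0 e1 e2 e3
    have hU : ∀ᶠ t : ℝ in 𝓝[>] 0, q + t * (v - sg r * δ * I * v) ∈ U0 := by
      apply germ_U0
      · rw [hre]; exact e0
      · rw [hre]; convert e1 using 1; ring
      · rw [him]; convert e2 using 1; ring
      · rw [hre, him]
        rcases e3 with e3 | ⟨e3, e4⟩
        · exact Or.inl e3
        · right
          constructor
          · convert e3 using 1; ring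
          · convert e4 using 1; ring
    obtain ⟨t, ht, ht'⟩ := (h.and hU).exists
    exact ht ht'
  obtain ⟨δ, hδ⟩ := hall.exists
  exact hδ

theorem second_alt {q v : ℂ} (r : Bool)
    (h : ∀ α β : ℝ, 0 < β → Ps (q.re + 1) (α * v.re - β * (sg r * v.im)) ∧
      Ps (3 - q.re) (-(α * v.re - β * (sg r * v.im))) ∧
      Ps (4 - q.im) (-(α * v.im + β * (sg r * v.re))) ∧
      (Ps (q.im - 1) (α * v.im + β * (sg r * v.re)) ∨
        (Ps (q.im - q.re) ((α * v.im + β * (sg r * v.re)) - (α * v.re - β * (sg r * v.im))) ∧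
          Ps (q.im + q.re) ((α * v.im + β * (sg r * v.re)) + (α * v.re - β * (sg r * v.im)))))) :
    ∀ α β : ℝ, 0 < β → ∀ᶠ t : ℝ in 𝓝[>] 0, q + t * (α * v + β * (sg r * I * v)) ∈ U0 := by
  intro α β hβ
  have hre : (α * v + β * (sg r * I * v)).re = α * v.re - β * (sg r * v.im) := by
    simp
    ring
  have him : (α * v + β * (sg r * I * v)).im = α * v.im + β * (sg r * v.re) := by
    simp
  obtain ⟨e0, e1, e2, e3⟩ := h α β hβ
  apply germ_U0
  · rw [hre]; exact e0
  · rw [hre]; exact e1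
  · rw [him]; exact e2
  · rw [hre, him]; exact e3

theorem V_zero : V 0 = ⟨0, 0⟩ := rfl
theorem V_one : V 1 = ⟨1, 1⟩ := rfl
theorem V_two : V 2 = ⟨3, 1⟩ := rfl
theorem V_three : V 3 = ⟨3, 4⟩ := rfl
theorem V_four : V 4 = ⟨-1, 4⟩ := rfl
theorem V_five : V 5 = ⟨-1, 1⟩ := rfl

theorem dir_f0 : dir false 0 = ⟨1, 1⟩ := by
  have : dir false 0 = V 1 - V 0 := rfl
  rw [this, V_one, V_zero]; apply Complex.ext <;> norm_num
theorem dir_f1 : dir false 1 = ⟨2, 0⟩ := by
  have : dir false 1 = V 2 - V 1 := rfl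
  rw [this, V_one, V_two]; apply Complex.ext <;> norm_num
theorem dir_f2 : dir false 2 = ⟨0, 3⟩ := by
  have : dir false 2 = V 3 - V 2 := rfl
  rw [this, V_three, V_two]; apply Complex.ext <;> norm_num
theorem dir_f3 : dir false 3 = ⟨-4, 0⟩ := by
  have : dir false 3 = V 4 - V 3 := rfl
  rw [this, V_three, V_four]; apply Complex.ext <;> norm_num
theorem dir_f4 : dir false 4 = ⟨0, -3⟩ := by
  have : dir false 4 = V 5 - V 4 := rfl
  rw [this, V_five, V_four]; apply Complex.ext <;> norm_num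
theorem dir_f5 : dir false 5 = ⟨1, -1⟩ := by
  have : dir false 5 = V 0 - V 5 := rfl
  rw [this, V_five, V_zero]; apply Complex.ext <;> norm_num
theorem dir_t0 : dir true 0 = ⟨-1, 1⟩ := by
  have : dir true 0 = V 5 - V 0 := rfl
  rw [this, V_five, V_zero]; apply Complex.ext <;> norm_num
theorem dir_t1 : dir true 1 = ⟨-1, -1⟩ := by
  have : dir true 1 = V 0 - V 1 := rfl
  rw [this, V_one, V_zero]; apply Complex.ext <;> norm_num
theorem dir_t2 : dir true 2 = ⟨-2, 0⟩ := by
  have : dir true 2 = V 1 - V 2 := rfl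
  rw [this, V_one, V_two]; apply Complex.ext <;> norm_num
theorem dir_t3 : dir true 3 = ⟨0, -3⟩ := by
  have : dir true 3 = V 2 - V 3 := rfl
  rw [this, V_three, V_two]; apply Complex.ext <;> norm_num
theorem dir_t4 : dir true 4 = ⟨4, 0⟩ := by
  have : dir true 4 = V 3 - V 4 := rfl
  rw [this, V_three, V_four]; apply Complex.ext <;> norm_num
theorem dir_t5 : dir true 5 = ⟨0, 3⟩ := by
  have : dir true 5 = V 4 - V 5 := rfl
  rw [this, V_five, V_four]; apply Complex.ext <;> norm_num

theorem sg_false : sg false = 1 := rfl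
theorem sg_true : sg true = -1 := rfl

/-- `v` in coordinates -/
theorem eq_mul_of {v w : ℂ} {c : ℝ} (h1 : v.re = c * w.re) (h2 : v.im = c * w.im) :
    v = (c : ℂ) * w := by
  apply Complex.ext <;> simp [h1, h2]

theorem Pw.nonneg {a d : ℝ} (h : Pw a d) : 0 ≤ a := by
  rcases h with h | ⟨h, _⟩ <;> linarith

theorem Pw.dir {a d : ℝ} (h : Pw a d) (ha : a = 0) : 0 ≤ d := by
  rcases h with h | ⟨_, h⟩
  · linarith
  · exact h

/-- The conclusion of `classify`. -/
def Concl (q v : ℂ) (r : Bool) : Prop :=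
  (∃ k : Fin 6, k ≠ 1 ∧ q = V k ∧ ∃ c : ℝ, 0 < c ∧ v = c * dir r k) ∨
      (∀ α β : ℝ, 0 < β → ∀ᶠ t : ℝ in 𝓝[>] 0, q + t * (α * v + β * (sg r * I * v)) ∈ U0)

theorem concl_vertex {q v : ℂ} {r : Bool} (k : Fin 6) (hk : k ≠ 1) (h1 : q.re = (V k).re)
    (h2 : q.im = (V k).im) (c : ℝ) (hc : 0 < c) (h3 : v.re = c * (dir r k).re)
    (h4 : v.im = c * (dir r k).im) : Concl q v r :=
  Or.inl ⟨k, hk, Complex.ext h1 h2, c, hc, eq_mul_of h3 h4⟩

/-- side from `V 4` to `V 5` -/
theorem side_zero {q v : ℂ} (hv : v ≠ 0) (r : Bool)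
    (p2 : Pw (4 - q.im) (-v.im))
    (p3 : Pw (q.im - 1) v.im ∨ (Pw (q.im - q.re) (v.im - v.re) ∧ Pw (q.im + q.re) (v.im + v.re)))
    (ha : q.re + 1 = 0) (hd : v.re = 0) (hd' : sg r * v.im ≤ 0) : Concl q v r := by
  have hy : v.im ≠ 0 := fun h => hv (Complex.ext hd h)
  have hq : q.re = -1 := by linarith
  have hs : 1 < q.im ∨ (q.im = 1 ∧ 0 ≤ v.im) := by
    rcases p3 with p | ⟨_, p⟩
    · rcases p with p | ⟨p, p'⟩
      · left; linarith
      · right; exact ⟨by linarith, p'⟩
    · rcases p with p | ⟨p, p'⟩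
      · left; linarith
      · right; exact ⟨by linarith, by linarith⟩
  cases r with
  | false =>
    rw [sg_false, one_mul] at hd'
    have hy' : v.im < 0 := lt_of_le_of_ne hd' hy
    have hs1 : 1 < q.im := by
      rcases hs with h | ⟨_, h⟩
      · exact h
      · linarith
    rcases p2.nonneg.lt_or_eq with h | h
    · right
      apply second_alt
      intro α β hβ
      rw [sg_false, hd]
      have hm : β * v.im < 0 := mul_neg_of_pos_of_neg hβ hy'
      exact ⟨Or.inr ⟨ha, by linarith⟩, Or.inl (by linarith), Or.inl h, Or.inl (Or.inl (by linarith))⟩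
    · refine concl_vertex 4 (by decide) (by rw [V_four]; exact hq) (by rw [V_four]; simp; linarith) (-v.im / 3) (by linarith)
        ?_ ?_
      · rw [dir_f4, hd]; simp
      · rw [dir_f4]; simp
  | true =>
    rw [sg_true] at hd'
    have hy' : 0 < v.im := lt_of_le_of_ne (by linarith) hy.symm
    have hs4 : q.im < 4 := by
      rcases p2 with h | ⟨h, h'⟩
      · linarith
      · linarith
    rcases hs with h | ⟨h, _⟩
    · right
      apply second_alt
      intro α β hβ
      rw [sg_true, hd]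
      have hm : 0 < β * v.im := mul_pos hβ hy'
      exact ⟨Or.inr ⟨ha, by linarith⟩, Or.inl (by linarith), Or.inl (by linarith),
        Or.inl (Or.inl (by linarith))⟩
    · refine concl_vertex 5 (by decide) (by rw [V_five]; exact hq) (by rw [V_five]; exact h) (v.im / 3) (by linarith)
        ?_ ?_
      · rw [dir_t5, hd]; simp
      · rw [dir_t5]; simp

/-- side from `V 2` to `V 3` -/
theorem side_one {q v : ℂ} (hv : v ≠ 0) (r : Bool)
    (p2 : Pw (4 - q.im) (-v.im))
    (p3 : Pw (q.im - 1) v.im ∨ (Pw (q.im - q.re) (v.im - v.re) ∧ Pw (q.im + q.re) (v.im + v.re)))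
    (ha : 3 - q.re = 0) (hd : -v.re = 0) (hd' : -(sg r * v.im) ≤ 0) : Concl q v r := by
  have hd0 : v.re = 0 := by linarith
  have hy : v.im ≠ 0 := fun h => hv (Complex.ext hd0 h)
  have hq : q.re = 3 := by linarith
  have hs : 1 < q.im ∨ (q.im = 1 ∧ 0 ≤ v.im) := by
    rcases p3 with p | ⟨p, _⟩
    · rcases p with p | ⟨p, p'⟩
      · left; linarith
      · right; exact ⟨by linarith, p'⟩
    · left
      linarith [p.nonneg]
  cases r with
  | false =>
    rw [sg_false, one_mul] at hd'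
    have hy' : 0 < v.im := lt_of_le_of_ne (by linarith) hy.symm
    have hs4 : q.im < 4 := by
      rcases p2 with h | ⟨h, h'⟩
      · linarith
      · linarith
    rcases hs with h | ⟨h, _⟩
    · right
      apply second_alt
      intro α β hβ
      rw [sg_false, hd0]
      have hm : 0 < β * v.im := mul_pos hβ hy'
      exact ⟨Or.inl (by linarith), Or.inr ⟨ha, by linarith⟩, Or.inl (by linarith),
        Or.inl (Or.inl (by linarith))⟩
    · refine concl_vertex 2 (by decide) (by rw [V_two]; exact hq) (by rw [V_two]; exact h) (v.im / 3) (by linarith)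
        ?_ ?_
      · rw [dir_f2, hd0]; simp
      · rw [dir_f2]; simp
  | true =>
    rw [sg_true] at hd'
    have hy' : v.im < 0 := lt_of_le_of_ne (by linarith) hy
    have hs1 : 1 < q.im := by
      rcases hs with h | ⟨_, h⟩
      · exact h
      · linarith
    rcases p2.nonneg.lt_or_eq with h | h
    · right
      apply second_alt
      intro α β hβ
      rw [sg_true, hd0]
      have hm : β * v.im < 0 := mul_neg_of_pos_of_neg hβ hy'
      exact ⟨Or.inl (by linarith), Or.inr ⟨ha, by linarith⟩, Or.inl h, Or.inl (Or.inl (by linarith))⟩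
    · refine concl_vertex 3 (by decide) (by rw [V_three]; exact hq) (by rw [V_three]; simp; linarith) (-v.im / 3) (by linarith)
        ?_ ?_
      · rw [dir_t3, hd0]; simp
      · rw [dir_t3]; simp

/-- side from `V 3` to `V 4` -/
theorem side_two {q v : ℂ} (hv : v ≠ 0) (r : Bool)
    (p0 : Pw (q.re + 1) v.re) (p1 : Pw (3 - q.re) (-v.re))
    (ha : 4 - q.im = 0) (hd : -v.im = 0) (hd' : sg r * v.re ≤ 0) : Concl q v r := by
  have hd0 : v.im = 0 := by linarith
  have hx : v.re ≠ 0 := fun h => hv (Complex.ext h hd0)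
  have hq : q.im = 4 := by linarith
  cases r with
  | false =>
    rw [sg_false, one_mul] at hd'
    have hx' : v.re < 0 := lt_of_le_of_ne hd' hx
    have hp : -1 < q.re := by
      rcases p0 with h | ⟨_, h⟩
      · linarith
      · linarith
    rcases p1.nonneg.lt_or_eq with h | h
    · right
      apply second_alt
      intro α β hβ
      rw [sg_false, hd0]
      have hm : β * v.re < 0 := mul_neg_of_pos_of_neg hβ hx'
      exact ⟨Or.inl (by linarith), Or.inl h, Or.inr ⟨ha, by linarith⟩,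
        Or.inl (Or.inl (by linarith))⟩
    · refine concl_vertex 3 (by decide) (by rw [V_three]; simp; linarith) (by rw [V_three]; exact hq) (-v.re / 4) (by linarith)
        ?_ ?_
      · rw [dir_f3]; simp
      · rw [dir_f3, hd0]; simp
  | true =>
    rw [sg_true] at hd'
    have hx' : 0 < v.re := lt_of_le_of_ne (by linarith) hx.symm
    have hp : q.re < 3 := by
      rcases p1 with h | ⟨_, h⟩
      · linarith
      · linarith
    rcases p0.nonneg.lt_or_eq with h | h
    · right
      apply second_alt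
      intro α β hβ
      rw [sg_true, hd0]
      have hm : 0 < β * v.re := mul_pos hβ hx'
      exact ⟨Or.inl h, Or.inl (by linarith), Or.inr ⟨ha, by linarith⟩,
        Or.inl (Or.inl (by linarith))⟩
    · refine concl_vertex 4 (by decide) (by rw [V_four]; simp; linarith) (by rw [V_four]; exact hq) (v.re / 4) (by linarith)
        ?_ ?_
      · rw [dir_t4]; simp
      · rw [dir_t4, hd0]; simp

/-- side from `V 1` to `V 2` -/
theorem side_three {q v : ℂ} (hv : v ≠ 0) (r : Bool)
    (p0 : Pw (q.re + 1) v.re) (p1 : Pw (3 - q.re) (-v.re))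
    (hn : ¬ (Pd (q.im - q.re) (v.im - v.re) (-(sg r * v.re) - sg r * v.im) ∧
          Pd (q.im + q.re) (v.im + v.re) (-(sg r * v.re) + sg r * v.im)))
    (ha : q.im - 1 = 0) (hd : v.im = 0) (hd' : -(sg r * v.re) ≤ 0) : Concl q v r := by
  have hx : v.re ≠ 0 := fun h => hv (Complex.ext h hd)
  have hq : q.im = 1 := by linarith
  have hp0 := p0.nonneg
  have hp1 := p1.nonneg
  cases r with
  | false =>
    rw [sg_false, one_mul] at hd'
    have hx' : 0 < v.re := lt_of_le_of_ne (by linarith) hx.symm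
    have hp : q.re < 3 := by
      rcases p1 with h | ⟨_, h⟩
      · linarith
      · linarith
    have hge : 1 ≤ q.re := by
      by_contra hc
      push Not at hc
      apply hn
      refine ⟨Or.inl (by linarith), ?_⟩
      rcases hp0.lt_or_eq with h | h
      · exact Or.inl (by linarith)
      · exact Or.inr ⟨by linarith, Or.inl (by linarith)⟩
    right
    apply second_alt
    intro α β hβ
    rw [sg_false, hd]
    have hm : 0 < β * v.re := mul_pos hβ hx'
    exact ⟨Or.inl (by linarith), Or.inl (by linarith), Or.inl (by linarith),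
      Or.inl (Or.inr ⟨ha, by linarith⟩)⟩
  | true =>
    rw [sg_true] at hd'
    have hx' : v.re < 0 := lt_of_le_of_ne (by linarith) hx
    have hp : -1 < q.re := by
      rcases p0 with h | ⟨_, h⟩
      · linarith
      · linarith
    have hgt : 1 < q.re := by
      by_contra hc
      push Not at hc
      apply hn
      refine ⟨?_, Or.inl (by linarith)⟩
      rcases hc.lt_or_eq with h | h
      · exact Or.inl (by linarith)
      · exact Or.inr ⟨by linarith, Or.inl (by linarith)⟩
    rcases hp1.lt_or_eq with h | h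
    · right
      apply second_alt
      intro α β hβ
      rw [sg_true, hd]
      have hm : β * v.re < 0 := mul_neg_of_pos_of_neg hβ hx'
      exact ⟨Or.inl (by linarith), Or.inl h, Or.inl (by linarith),
        Or.inl (Or.inr ⟨ha, by linarith⟩)⟩
    · refine concl_vertex 2 (by decide) (by rw [V_two]; simp; linarith) (by rw [V_two]; exact hq) (-v.re / 2) (by linarith)
        ?_ ?_
      · rw [dir_t2]; simp
      · rw [dir_t2, hd]; simp

/-- side from `V 0` to `V 1` -/
theorem side_four {q v : ℂ} (hv : v ≠ 0) (r : Bool)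
    (hn : ¬ Pw (q.im - 1) v.im) (p5 : Pw (q.im + q.re) (v.im + v.re))
    (ha : q.im - q.re = 0) (hd : v.im - v.re = 0) (hd' : -(sg r * v.re) - sg r * v.im ≤ 0) :
    Concl q v r := by
  have hyx : v.im = v.re := by linarith
  have hx : v.re ≠ 0 := fun h => hv (Complex.ext h (by rw [hyx, h]; rfl))
  have hq : q.im = q.re := by linarith
  have hs : q.im < 1 ∨ (q.im = 1 ∧ v.im < 0) := by
    by_contra hc
    rw [not_or, not_and_or] at hc
    obtain ⟨hc1, hc2⟩ := hc
    apply hn
    rcases hc2 with hc2 | hc2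
    · left
      rcases lt_trichotomy q.im 1 with h | h | h
      · exact absurd h hc1
      · exact absurd h hc2
      · linarith
    · rcases lt_trichotomy q.im 1 with h | h | h
      · exact absurd h hc1
      · exact Or.inr ⟨by linarith, by linarith⟩
      · exact Or.inl (by linarith)
  have hp5 := p5.nonneg
  cases r with
  | false =>
    rw [sg_false] at hd'
    have hx' : 0 < v.re := lt_of_le_of_ne (by linarith) hx.symm
    have hs1 : q.im < 1 := by
      rcases hs with h | ⟨_, h⟩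
      · exact h
      · linarith
    rcases hp5.lt_or_eq with h | h
    · right
      apply second_alt
      intro α β hβ
      rw [sg_false, hyx]
      have hm : 0 < β * v.re := mul_pos hβ hx'
      exact ⟨Or.inl (by linarith), Or.inl (by linarith), Or.inl (by linarith),
        Or.inr ⟨Or.inr ⟨ha, by linarith⟩, Or.inl (by linarith)⟩⟩
    · refine concl_vertex 0 (by decide) (by rw [V_zero]; simp; linarith) (by rw [V_zero]; simp; linarith) v.re hx'
        ?_ ?_
      · rw [dir_f0]; simp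
      · rw [dir_f0, hyx]; simp
  | true =>
    rw [sg_true] at hd'
    have hx' : v.re < 0 := lt_of_le_of_ne (by linarith) hx
    have hs0 : 0 < q.im + q.re := by
      rcases p5 with h | ⟨_, h⟩
      · exact h
      · linarith
    right
    apply second_alt
    intro α β hβ
    rw [sg_true, hyx]
    have hm : β * v.re < 0 := mul_neg_of_pos_of_neg hβ hx'
    have hs1 : q.im ≤ 1 := by rcases hs with h | ⟨h, _⟩ <;> linarith
    exact ⟨Or.inl (by linarith), Or.inl (by linarith), Or.inl (by linarith),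
      Or.inr ⟨Or.inr ⟨ha, by linarith⟩, Or.inl (by linarith)⟩⟩

/-- side from `V 5` to `V 0` -/
theorem side_five {q v : ℂ} (hv : v ≠ 0) (r : Bool)
    (hn : ¬ Pw (q.im - 1) v.im) (p4 : Pw (q.im - q.re) (v.im - v.re))
    (p0 : Pw (q.re + 1) v.re)
    (ha : q.im + q.re = 0) (hd : v.im + v.re = 0) (hd' : -(sg r * v.re) + sg r * v.im ≤ 0) :
    Concl q v r := by
  have hyx : v.re = -v.im := by linarith
  have hy : v.im ≠ 0 := fun h => hv (Complex.ext (by rw [hyx, h]; simp) h)
  have hq : q.re = -q.im := by linarith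
  have hp4 := p4.nonneg
  cases r with
  | false =>
    rw [sg_false] at hd'
    have hy' : v.im < 0 := lt_of_le_of_ne (by linarith) hy
    have hs0 : 0 < q.im := by
      rcases p4 with h | ⟨_, h⟩
      · linarith
      · linarith
    have hs1 : q.im ≤ 1 := by linarith [p0.nonneg]
    rcases hs1.lt_or_eq with h | h
    · right
      apply second_alt
      intro α β hβ
      rw [sg_false, hyx]
      have hm : β * v.im < 0 := mul_neg_of_pos_of_neg hβ hy'
      exact ⟨Or.inl (by linarith), Or.inl (by linarith), Or.inl (by linarith),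
        Or.inr ⟨Or.inl (by linarith), Or.inr ⟨ha, by linarith⟩⟩⟩
    · refine concl_vertex 5 (by decide) (by rw [V_five]; simp; linarith) (by rw [V_five]; exact h) (-v.im) (by linarith)
        ?_ ?_
      · rw [dir_f5, hyx]; simp
      · rw [dir_f5]; simp
  | true =>
    rw [sg_true] at hd'
    have hy' : 0 < v.im := lt_of_le_of_ne (by linarith) hy.symm
    have hs1 : q.im < 1 := by
      by_contra hc
      push Not at hc
      apply hn
      rcases hc.lt_or_eq with h | h
      · exact Or.inl (by linarith)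
      · exact Or.inr ⟨by linarith, hy'.le⟩
    have hs0 : 0 ≤ q.im := by linarith
    rcases hs0.lt_or_eq with h | h
    · right
      apply second_alt
      intro α β hβ
      rw [sg_true, hyx]
      have hm : 0 < β * v.im := mul_pos hβ hy'
      exact ⟨Or.inl (by linarith), Or.inl (by linarith), Or.inl (by linarith),
        Or.inr ⟨Or.inl (by linarith), Or.inr ⟨ha, by linarith⟩⟩⟩
    · refine concl_vertex 0 (by decide) (by rw [V_zero]; simp; linarith) (by rw [V_zero]; simp; linarith) v.im hy'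
        ?_ ?_
      · rw [dir_t0, hyx]; simp
      · rw [dir_t0]; simp

/-- Let `T0` contain points `q + t v` with arbitrarily small `t > 0`, and let the directions near `v` on the right side of `v`
(left side if `r = true`) not enter `U0`. Then either `q` is a convex vertex and `v` has the direction of a side, or the
half plane on the other side of `v` enters `U0`. -/
theorem classify {q v : ℂ} (hv : v ≠ 0) (r : Bool)
    (h1 : ∃ᶠ t : ℝ in 𝓝[>] 0, q + t * v ∈ T0)
    (h2 : ∀ᶠ δ : ℝ in 𝓝[>] 0, ∀ᶠ t : ℝ in 𝓝[>] 0, q + t * (v - sg r * δ * I * v) ∉ U0) :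
    (∃ k : Fin 6, k ≠ 1 ∧ q = V k ∧ ∃ c : ℝ, 0 < c ∧ v = c * dir r k) ∨
      (∀ α β : ℝ, 0 < β → ∀ᶠ t : ℝ in 𝓝[>] 0, q + t * (α * v + β * (sg r * I * v)) ∈ U0) := by
  obtain ⟨p0, p1, p2, p3⟩ := freq_T0 h1
  have hn := not_all r h2
  by_cases g0 : Pd (q.re + 1) v.re (sg r * v.im)
  swap
  · obtain ⟨e1, e2, e3⟩ := Ps_bad p0 g0
    exact side_zero hv r p2 p3 e1 e2 e3
  by_cases g1 : Pd (3 - q.re) (-v.re) (-(sg r * v.im))
  swap
  · obtain ⟨e1, e2, e3⟩ := Ps_bad p1 g1
    exact side_one hv r p2 p3 e1 e2 e3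
  by_cases g2 : Pd (4 - q.im) (-v.im) (sg r * v.re)
  swap
  · obtain ⟨e1, e2, e3⟩ := Ps_bad p2 g2
    exact side_two hv r p0 p1 e1 e2 e3
  have hn2 : ¬ (Pd (q.im - 1) v.im (-(sg r * v.re)) ∨
        (Pd (q.im - q.re) (v.im - v.re) (-(sg r * v.re) - sg r * v.im) ∧
          Pd (q.im + q.re) (v.im + v.re) (-(sg r * v.re) + sg r * v.im))) :=
    fun h => hn ⟨g0, g1, g2, h⟩
  rw [not_or] at hn2
  obtain ⟨g3, g45⟩ := hn2
  by_cases hp3 : Pw (q.im - 1) v.im
  · obtain ⟨e1, e2, e3⟩ := Ps_bad hp3 g3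
    exact side_three hv r p0 p1 g45 e1 e2 e3
  · rcases p3 with p3 | ⟨p4, p5⟩
    · exact absurd p3 hp3
    · rw [not_and_or] at g45
      rcases g45 with g | g
      · obtain ⟨e1, e2, e3⟩ := Ps_bad p4 g
        exact side_four hv r hp3 p5 e1 e2 e3
      · obtain ⟨e1, e2, e3⟩ := Ps_bad p5 g
        exact side_five hv r hp3 p4 p0 e1 e2 e3

theorem comb_re (r : Bool) (c α β : ℝ) (d : ℂ) :
    (α * (c * d) + β * (sg r * I * (c * d))).re = α * c * d.re - β * c * (sg r * d.im) := by
  simp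
  ring

theorem comb_im (r : Bool) (c α β : ℝ) (d : ℂ) :
    (α * (c * d) + β * (sg r * I * (c * d))).im = α * c * d.im + β * c * (sg r * d.re) := by
  simp
  ring

theorem germ_comb (q d : ℂ) (r : Bool) (c α β : ℝ)
    (h0 : Ps (q.re + 1) (α * c * d.re - β * c * (sg r * d.im)))
    (h1 : Ps (3 - q.re) (-(α * c * d.re - β * c * (sg r * d.im))))
    (h2 : Ps (4 - q.im) (-(α * c * d.im + β * c * (sg r * d.re))))
    (h3 : Ps (q.im - 1) (α * c * d.im + β * c * (sg r * d.re)) ∨
      (Ps (q.im - q.re) ((α * c * d.im + β * c * (sg r * d.re)) -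
          (α * c * d.re - β * c * (sg r * d.im))) ∧
        Ps (q.im + q.re) ((α * c * d.im + β * c * (sg r * d.re)) +
          (α * c * d.re - β * c * (sg r * d.im))))) :
    ∀ᶠ t : ℝ in 𝓝[>] 0, q + t * (α * (c * d) + β * (sg r * I * (c * d))) ∈ U0 := by
  apply germ_U0
  · rw [comb_re]; exact h0
  · rw [comb_re]; exact h1
  · rw [comb_im]; exact h2
  · rw [comb_re, comb_im]; exact h3

/-- the corner at `V 5` has the angle `3 π / 4` -/
theorem sector_five (r : Bool) {c α β : ℝ} (hc : 0 < c) (hα : -β < α)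
    (hβ : 0 < β) : ∀ᶠ t : ℝ in 𝓝[>] 0,
      V 5 + t * (α * (c * dir r 5) + β * (sg r * I * (c * dir r 5))) ∈ U0 := by
  have h1 : 0 < (α + β) * c := mul_pos (by linarith) hc
  have h2 : 0 < β * c := mul_pos hβ hc
  apply germ_comb <;> cases r <;> simp only [V_five, dir_f5, dir_t5, sg_false, sg_true]
  · exact Or.inr ⟨by norm_num, by linarith⟩
  · exact Or.inr ⟨by norm_num, by linarith⟩
  · exact Or.inl (by norm_num)
  · exact Or.inl (by norm_num)
  · exact Or.inl (by norm_num)
  · exact Or.inl (by norm_num)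
  · exact Or.inr ⟨Or.inl (by norm_num), Or.inr ⟨by norm_num, by linarith⟩⟩
  · exact Or.inr ⟨Or.inl (by norm_num), Or.inr ⟨by norm_num, by linarith⟩⟩

theorem fin_cases_ne {k : Fin 6} (hk : k ≠ 1) : k = 0 ∨ k = 2 ∨ k = 3 ∨ k = 4 ∨ k = 5 := by
  revert k
  decide

/-- all convex corners of `T0` contain a right angle -/
theorem sector_right {k : Fin 6} (hk : k ≠ 1) (r : Bool) {c α β : ℝ} (hc : 0 < c) (hα : 0 < α)
    (hβ : 0 < β) : ∀ᶠ t : ℝ in 𝓝[>] 0,
      V k + t * (α * (c * dir r k) + β * (sg r * I * (c * dir r k))) ∈ U0 := by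
  have h1 : 0 < α * c := mul_pos hα hc
  have h2 : 0 < β * c := mul_pos hβ hc
  rcases fin_cases_ne hk with rfl | rfl | rfl | rfl | rfl
  · apply germ_comb <;> cases r <;> simp only [V_zero, dir_f0, dir_t0, sg_false, sg_true]
    · exact Or.inl (by norm_num)
    · exact Or.inl (by norm_num)
    · exact Or.inl (by norm_num)
    · exact Or.inl (by norm_num)
    · exact Or.inl (by norm_num)
    · exact Or.inl (by norm_num)
    · exact Or.inr ⟨Or.inr ⟨by norm_num, by linarith⟩, Or.inr ⟨by norm_num, by linarith⟩⟩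
    · exact Or.inr ⟨Or.inr ⟨by norm_num, by linarith⟩, Or.inr ⟨by norm_num, by linarith⟩⟩
  · apply germ_comb <;> cases r <;> simp only [V_two, dir_f2, dir_t2, sg_false, sg_true]
    · exact Or.inl (by norm_num)
    · exact Or.inl (by norm_num)
    · exact Or.inr ⟨by norm_num, by linarith⟩
    · exact Or.inr ⟨by norm_num, by linarith⟩
    · exact Or.inl (by norm_num)
    · exact Or.inl (by norm_num)
    · exact Or.inl (Or.inr ⟨by norm_num, by linarith⟩)
    · exact Or.inl (Or.inr ⟨by norm_num, by linarith⟩)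
  · apply germ_comb <;> cases r <;> simp only [V_three, dir_f3, dir_t3, sg_false, sg_true]
    · exact Or.inl (by norm_num)
    · exact Or.inl (by norm_num)
    · exact Or.inr ⟨by norm_num, by linarith⟩
    · exact Or.inr ⟨by norm_num, by linarith⟩
    · exact Or.inr ⟨by norm_num, by linarith⟩
    · exact Or.inr ⟨by norm_num, by linarith⟩
    · exact Or.inl (Or.inl (by norm_num))
    · exact Or.inl (Or.inl (by norm_num))
  · apply germ_comb <;> cases r <;> simp only [V_four, dir_f4, dir_t4, sg_false, sg_true]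
    · exact Or.inr ⟨by norm_num, by linarith⟩
    · exact Or.inr ⟨by norm_num, by linarith⟩
    · exact Or.inl (by norm_num)
    · exact Or.inl (by norm_num)
    · exact Or.inr ⟨by norm_num, by linarith⟩
    · exact Or.inr ⟨by norm_num, by linarith⟩
    · exact Or.inl (Or.inl (by norm_num))
    · exact Or.inl (Or.inl (by norm_num))
  · exact sector_five r hc (by linarith) hβ

theorem side_aux (q d : ℂ) (r : Bool) {c : ℝ} (hc : 0 < c)
    (h : ∀ s : ℝ, 0 < s → s < 1 / 4 → (⟨q.re - s * (sg r * d.im), q.im + s * (sg r * d.re)⟩ : ℂ) ∈ T0 ∧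
      (⟨q.re - s * (sg r * d.im), q.im + s * (sg r * d.re)⟩ : ℂ) ∉ U0) :
    ∀ᶠ t : ℝ in 𝓝[>] 0, q + t * (sg r * I * (c * d)) ∈ T0 ∧
      q + t * (sg r * I * (c * d)) ∉ U0 := by
  have h1 : ∀ᶠ t : ℝ in 𝓝[>] 0, 0 < 1 / 4 + t * (-c) := Ps.germ (Or.inl (by norm_num))
  filter_upwards [h1, self_mem_nhdsWithin] with t ht ht'
  have e : q + t * (sg r * I * (c * d)) =
      ⟨q.re - (t * c) * (sg r * d.im), q.im + (t * c) * (sg r * d.re)⟩ := by
    apply Complex.ext
    · simp
      ring
    · simp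
      ring
  rw [e]
  exact h (t * c) (mul_pos ht' hc) (by linarith)

/-- the corners `V 0`, `V 2`, `V 3`, `V 4` are right angles: the other side -/
theorem side_right {k : Fin 6} (hk : k ≠ 1) (hk5 : k ≠ 5) (r : Bool) {c : ℝ} (hc : 0 < c) :
    ∀ᶠ t : ℝ in 𝓝[>] 0, V k + t * (sg r * I * (c * dir r k)) ∈ T0 ∧
      V k + t * (sg r * I * (c * dir r k)) ∉ U0 := by
  apply side_aux _ _ _ hc
  intro s hs hs'
  rcases fin_cases_ne hk with rfl | rfl | rfl | rfl | rfl
  · cases r <;> simp only [V_zero, dir_f0, dir_t0, sg_false, sg_true]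
    · refine ⟨⟨?_, ?_, ?_, Or.inr ⟨?_, ?_⟩⟩, ?_⟩
      iterate 5 (simp only []; linarith)
      rintro ⟨h1, h2, h3, h4⟩
      simp only [] at h4
      rcases h4 with h4 | ⟨h4, h5⟩ <;> linarith
    · refine ⟨⟨?_, ?_, ?_, Or.inr ⟨?_, ?_⟩⟩, ?_⟩
      iterate 5 (simp only []; linarith)
      rintro ⟨h1, h2, h3, h4⟩
      simp only [] at h4
      rcases h4 with h4 | ⟨h4, h5⟩ <;> linarith
  · cases r <;> simp only [V_two, dir_f2, dir_t2, sg_false, sg_true]
    · refine ⟨⟨?_, ?_, ?_, Or.inl ?_⟩, ?_⟩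
      iterate 4 (simp only []; linarith)
      rintro ⟨h1, h2, h3, h4⟩
      simp only [] at h4
      rcases h4 with h4 | ⟨h4, h5⟩ <;> linarith
    · refine ⟨⟨?_, ?_, ?_, Or.inl ?_⟩, ?_⟩
      iterate 4 (simp only []; linarith)
      rintro ⟨h1, h2, h3, h4⟩
      simp only [] at h2
      linarith
  · cases r <;> simp only [V_three, dir_f3, dir_t3, sg_false, sg_true]
    · refine ⟨⟨?_, ?_, ?_, Or.inl ?_⟩, ?_⟩
      iterate 4 (simp only []; linarith)
      rintro ⟨h1, h2, h3, h4⟩
      simp only [] at h2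
      linarith
    · refine ⟨⟨?_, ?_, ?_, Or.inl ?_⟩, ?_⟩
      iterate 4 (simp only []; linarith)
      rintro ⟨h1, h2, h3, h4⟩
      simp only [] at h3
      linarith
  · cases r <;> simp only [V_four, dir_f4, dir_t4, sg_false, sg_true]
    · refine ⟨⟨?_, ?_, ?_, Or.inl ?_⟩, ?_⟩
      iterate 4 (simp only []; linarith)
      rintro ⟨h1, h2, h3, h4⟩
      simp only [] at h3
      linarith
    · refine ⟨⟨?_, ?_, ?_, Or.inl ?_⟩, ?_⟩
      iterate 4 (simp only []; linarith)
      rintro ⟨h1, h2, h3, h4⟩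
      simp only [] at h1
      linarith
  · exact absurd rfl hk5

end Pool.Agent.MP_ef5fdc_co
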