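import Mathlib

/-!
# Non-convex anisohedral hexagons: definitions of the statement
-/

set_option autoImplicit false

open Set

namespace Pool.Agent.MP_ef5fdc_co

/-- The Euclidean plane: the complex numbers with the distance `|z - w|`. -/
abbrev Plane : Type := ℂ

/-- The closed polygonal line with the six vertices `v 0, …, v 5`: the union of the six segments
from `v i` to `v (i + 1)`, indices modulo `6`. -/
def polyline (v : Fin 6 → Plane) : Set Plane := ⋃ i, segment ℝ (v i) (v (i + 1))

/-- `v 0, …, v 5` are the corners of a simple closed hexagonal line: three consecutive vertices are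
not collinear (so no interior angle is `π`), two consecutive sides meet only in their common vertex, and two
sides which are not consecutive are disjoint. -/
structure IsSimpleHexagon (v : Fin 6 → Plane) : Prop where
  corner : ∀ i, ¬ Collinear ℝ {v i, v (i + 1), v (i + 2)}
  adjacent : ∀ i, segment ℝ (v i) (v (i + 1)) ∩ segment ℝ (v (i + 1)) (v (i + 2)) = {v (i + 1)}
  disjoint : ∀ i j, j ≠ i → j ≠ i + 1 → i ≠ j + 1 →
    Disjoint (segment ℝ (v i) (v (i + 1))) (segment ℝ (v j) (v (j + 1)))

/-- The closed region enclosed by a set `P`: the union of `P` and of the bounded connected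
components of its complement. -/
def enclosed (P : Set Plane) : Set Plane :=
  P ∪ {x | x ∉ P ∧ Bornology.IsBounded (connectedComponentIn Pᶜ x)}

/-- A hexagon: the closed region enclosed by a simple closed polygon with exactly six corners. -/
def IsHexagon (T : Set Plane) : Prop :=
  ∃ v : Fin 6 → Plane, IsSimpleHexagon v ∧ T = enclosed (polyline v)

/-- Two sets are congruent if some isometry of the plane (a reflection is allowed) maps one onto
the other. -/
def Congruent (S S' : Set Plane) : Prop := ∃ e : Plane ≃ᵢ Plane, e '' S = S'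

/-- A tiling of the plane: a countable family of closed topological disks whose union is the plane
and whose interiors are pairwise disjoint. -/
structure IsTiling (𝒯 : Set (Set Plane)) : Prop where
  countable : 𝒯.Countable
  disk : ∀ S ∈ 𝒯, Nonempty (S ≃ₜ Metric.closedBall (0 : Plane) 1)
  cover : ⋃₀ 𝒯 = univ
  disjoint : ∀ S ∈ 𝒯, ∀ S' ∈ 𝒯, S ≠ S' → Disjoint (interior S) (interior S')

/-- `𝒯` is a monohedral tiling with prototile `T`: a tiling all of whose tiles are congruent
to `T`. -/
def IsMonohedral (T : Set Plane) (𝒯 : Set (Set Plane)) : Prop :=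
  IsTiling 𝒯 ∧ ∀ S ∈ 𝒯, Congruent T S

/-- `e` is a symmetry of the tiling `𝒯`: it maps `𝒯` onto itself. -/
def IsSymmetry (𝒯 : Set (Set Plane)) (e : Plane ≃ᵢ Plane) : Prop :=
  (fun S : Set Plane => e '' S) '' 𝒯 = 𝒯

/-- `𝒯` is isohedral: its symmetry group acts transitively on the tiles. -/
def IsIsohedral (𝒯 : Set (Set Plane)) : Prop :=
  ∀ S ∈ 𝒯, ∀ S' ∈ 𝒯, ∃ e : Plane ≃ᵢ Plane, IsSymmetry 𝒯 e ∧ e '' S = S'

/-- `T` is anisohedral: it is the prototile of some monohedral tiling, but it is not the prototile
of any isohedral tiling. -/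
def IsAnisohedral (T : Set Plane) : Prop :=
  (∃ 𝒯, IsMonohedral T 𝒯) ∧ ¬ ∃ 𝒯, IsMonohedral T 𝒯 ∧ IsIsohedral 𝒯

end Pool.Agent.MP_ef5fdc_co
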