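import Pool.Agent.Lib.MP_ef5fdc_co.Interior

/-!
# `T0` is a closed topological disk

With `z = 2 i + y`: `T0 = {2 i + y | G y ≤ 1}`, where
`G y = max (max (-y.re) (y.re / 3)) (max (y.im / 2) (min (-y.im) ((|y.re| - y.im) / 2)))`; `G` is continuous, positively homogeneous, `G 0 = 0`,
`G y > 0` for `y ≠ 0` and `‖y‖ / 10 ≤ G y ≤ 10 ‖y‖`. The homeomorphism is `2 i + y ↦ (G y / ‖y‖) y`, its inverse `x ↦ 2 i + (‖x‖ / G x) x` (both `0 ↔ 2 i`).
-/

set_option autoImplicit false

open Set Topology Filter Complex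

namespace Pool.Agent.MP_ef5fdc_co

/-- A radial homeomorphism of the plane which carries `G` to the norm. -/
theorem radial (G : ℂ → ℝ) (hc : Continuous G)
    (hh : ∀ (s : ℝ) (y : ℂ), 0 ≤ s → G ((s : ℂ) * y) = s * G y)
    (h1 : ∀ y, ‖y‖ ≤ 10 * G y) (h2 : ∀ y, G y ≤ 10 * ‖y‖) :
    ∃ e : ℂ ≃ₜ ℂ, ∀ y, ‖e y‖ = G y := by
  have hG0 : G 0 = 0 := by
    have := hh 0 0 le_rfl
    simpa using this
  have hpos : ∀ y, y ≠ 0 → 0 < G y := by
    intro y hy
    have := norm_pos_iff.2 hy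
    have := h1 y
    linarith
  have hnn : ∀ y, 0 ≤ G y := by
    intro y
    have := norm_nonneg y
    have := h1 y
    linarith
  let φ : ℂ → ℂ := fun y => ((G y / ‖y‖ : ℝ) : ℂ) * y
  let ψ : ℂ → ℂ := fun x => ((‖x‖ / G x : ℝ) : ℂ) * x
  have hφ0 : φ 0 = 0 := by simp [φ]
  have hψ0 : ψ 0 = 0 := by simp [ψ]
  have hnφ : ∀ y, ‖φ y‖ = G y := by
    intro y
    by_cases hy : y = 0
    · rw [hy, hφ0, hG0, norm_zero]
    · have hy' : ‖y‖ ≠ 0 := norm_ne_zero_iff.2 hy
      show ‖((G y / ‖y‖ : ℝ) : ℂ) * y‖ = G y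
      rw [norm_mul, Complex.norm_real, Real.norm_eq_abs,
        abs_of_nonneg (div_nonneg (hnn y) (norm_nonneg y)), div_mul_cancel₀ _ hy']
  have hnψ : ∀ x, G (ψ x) = ‖x‖ := by
    intro x
    by_cases hx : x = 0
    · rw [hx, hψ0, hG0, norm_zero]
    · show G (((‖x‖ / G x : ℝ) : ℂ) * x) = ‖x‖
      rw [hh _ _ (div_nonneg (norm_nonneg x) (hnn x)), div_mul_cancel₀ _ (hpos x hx).ne']
  have hl : ∀ y, ψ (φ y) = y := by
    intro y
    by_cases hy : y = 0
    · rw [hy, hφ0, hψ0]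
    · have hy' : ‖y‖ ≠ 0 := norm_ne_zero_iff.2 hy
      have hG := (hpos y hy).ne'
      have hGφ : G (φ y) = (G y / ‖y‖) * G y := hh _ _ (div_nonneg (hnn y) (norm_nonneg y))
      show ((‖φ y‖ / G (φ y) : ℝ) : ℂ) * (((G y / ‖y‖ : ℝ) : ℂ) * y) = y
      rw [hnφ, hGφ, ← mul_assoc, ← Complex.ofReal_mul]
      have : G y / (G y / ‖y‖ * G y) * (G y / ‖y‖) = 1 := by field_simp
      rw [this, Complex.ofReal_one, one_mul]
  have hr : ∀ x, φ (ψ x) = x := by
    intro x
    by_cases hx : x = 0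
    · rw [hx, hψ0, hφ0]
    · have hx' : ‖x‖ ≠ 0 := norm_ne_zero_iff.2 hx
      have hG := (hpos x hx).ne'
      have hnψ' : ‖ψ x‖ = (‖x‖ / G x) * ‖x‖ := by
        show ‖((‖x‖ / G x : ℝ) : ℂ) * x‖ = _
        rw [norm_mul, Complex.norm_real, Real.norm_eq_abs,
          abs_of_nonneg (div_nonneg (norm_nonneg x) (hnn x))]
      show ((G (ψ x) / ‖ψ x‖ : ℝ) : ℂ) * (((‖x‖ / G x : ℝ) : ℂ) * x) = x
      rw [hnψ, hnψ', ← mul_assoc, ← Complex.ofReal_mul]
      have : ‖x‖ / (‖x‖ / G x * ‖x‖) * (‖x‖ / G x) = 1 := by field_simp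
      rw [this, Complex.ofReal_one, one_mul]
  have hcφ : Continuous φ := by
    rw [continuous_iff_continuousAt]
    intro y
    by_cases hy : y = 0
    · subst hy
      show Tendsto φ (𝓝 0) (𝓝 (φ 0))
      rw [hφ0]
      refine squeeze_zero_norm (a := G) (fun y => (hnφ y).le) ?_
      have := hc.tendsto 0
      rwa [hG0] at this
    · have hy' : ‖y‖ ≠ 0 := norm_ne_zero_iff.2 hy
      refine ContinuousAt.mul ?_ continuousAt_id
      exact Complex.continuous_ofReal.continuousAt.comp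
        (hc.continuousAt.div continuous_norm.continuousAt hy')
  have hcψ : Continuous ψ := by
    rw [continuous_iff_continuousAt]
    intro x
    by_cases hx : x = 0
    · subst hx
      show Tendsto ψ (𝓝 0) (𝓝 (ψ 0))
      rw [hψ0]
      refine squeeze_zero_norm (a := fun x => 10 * ‖x‖) (fun x => ?_) ?_
      · have := h1 (ψ x)
        rwa [hnψ] at this
      · have : Tendsto (fun x : ℂ => 10 * ‖x‖) (𝓝 0) (𝓝 (10 * ‖(0 : ℂ)‖)) :=
          (continuous_const.mul continuous_norm).tendsto 0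
        simpa using this
    · have hx' : ‖x‖ ≠ 0 := norm_ne_zero_iff.2 hx
      refine ContinuousAt.mul ?_ continuousAt_id
      exact Complex.continuous_ofReal.continuousAt.comp
        (continuous_norm.continuousAt.div hc.continuousAt (hpos x hx).ne')
  exact ⟨{ toFun := φ, invFun := ψ, left_inv := hl, right_inv := hr,
           continuous_toFun := hcφ, continuous_invFun := hcψ }, hnφ⟩

/-- the gauge of `T0` with respect to the point `2 i` -/
noncomputable def gaugeT (y : ℂ) : ℝ :=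
  max (max (-y.re) (y.re / 3)) (max (y.im / 2) (min (-y.im) ((|y.re| - y.im) / 2)))

theorem continuous_gaugeT : Continuous gaugeT := by
  unfold gaugeT
  have h1 : Continuous fun z : ℂ => z.re := Complex.continuous_re
  have h2 : Continuous fun z : ℂ => z.im := Complex.continuous_im
  exact (h1.neg.max (h1.div_const 3)).max ((h2.div_const 2).max (h2.neg.min ((h1.abs.sub h2).div_const 2)))

theorem gaugeT_mul (s : ℝ) (y : ℂ) (hs : 0 ≤ s) : gaugeT ((s : ℂ) * y) = s * gaugeT y := by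
  unfold gaugeT
  simp only [Complex.re_ofReal_mul, Complex.im_ofReal_mul, mul_max_of_nonneg _ _ hs,
    mul_min_of_nonneg _ _ hs, abs_mul, abs_of_nonneg hs]
  congr 2
  · ring
  · ring
  · ring_nf
  · congr 1
    · ring
    · ring

theorem mem_T0_iff (y : ℂ) : 2 * I + y ∈ T0 ↔ gaugeT y ≤ 1 := by
  unfold gaugeT T0
  simp only [mem_setOf_eq, max_le_iff, min_le_iff, Complex.add_re, Complex.add_im]
  have e1 : (2 * I : ℂ).re = 0 := by simp
  have e2 : (2 * I : ℂ).im = 2 := by simp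
  rw [e1, e2]
  constructor
  · rintro ⟨h1, h2, h3, h4⟩
    refine ⟨⟨by linarith, by linarith⟩, by linarith, ?_⟩
    rcases h4 with h4 | ⟨h4, h5⟩
    · left; linarith
    · right
      have : |y.re| ≤ y.im + 2 := abs_le.2 ⟨by linarith, by linarith⟩
      linarith
  · rintro ⟨⟨h1, h2⟩, h3, h4⟩
    refine ⟨by linarith, by linarith, by linarith, ?_⟩
    rcases h4 with h4 | h4
    · left; linarith
    · right
      have a1 := le_abs_self y.re
      have a2 := neg_le_abs y.re
      exact ⟨by linarith, by linarith⟩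

theorem gaugeT_lower (y : ℂ) : ‖y‖ ≤ 10 * gaugeT y := by
  have h := Complex.norm_le_abs_re_add_abs_im y
  have h1 : -y.re ≤ gaugeT y := (le_max_left _ _).trans (le_max_left _ _)
  have h2 : y.re / 3 ≤ gaugeT y := (le_max_right _ _).trans (le_max_left _ _)
  have h3 : y.im / 2 ≤ gaugeT y := (le_max_left _ _).trans (le_max_right _ _)
  have h4 : min (-y.im) ((|y.re| - y.im) / 2) ≤ gaugeT y := (le_max_right _ _).trans (le_max_right _ _)
  have h0 : 0 ≤ gaugeT y := by
    rcases le_total 0 y.re with h | h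
    · linarith
    · linarith
  have hre : |y.re| ≤ 3 * gaugeT y := abs_le.2 ⟨by linarith, by linarith⟩
  have him : |y.im| ≤ 2 * gaugeT y := by
    refine abs_le.2 ⟨?_, by linarith⟩
    rcases min_le_iff.1 h4 with h5 | h5
    · linarith
    · have := abs_nonneg y.re
      linarith
  linarith

theorem gaugeT_upper (y : ℂ) : gaugeT y ≤ 10 * ‖y‖ := by
  have h1 := Complex.abs_re_le_norm y
  have h2 := Complex.abs_im_le_norm y
  have h3 := norm_nonneg y
  have a1 := abs_le.1 h1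
  have a2 := abs_le.1 h2
  unfold gaugeT
  refine max_le (max_le (by linarith) (by linarith)) (max_le (by linarith) ?_)
  exact (min_le_left _ _).trans (by linarith)

theorem disk_T0 : Nonempty (T0 ≃ₜ Metric.closedBall (0 : ℂ) 1) := by
  obtain ⟨e, he⟩ := radial gaugeT continuous_gaugeT gaugeT_mul gaugeT_lower gaugeT_upper
  let e' : ℂ ≃ₜ ℂ := (Homeomorph.addLeft (-(2 * I))).trans e
  have he' : e' '' T0 = Metric.closedBall (0 : ℂ) 1 := by
    ext x
    rw [Metric.mem_closedBall, dist_zero_right]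
    constructor
    · rintro ⟨z, hz, rfl⟩
      have h : ‖e' z‖ = gaugeT (-(2 * I) + z) := he _
      rw [h, ← mem_T0_iff]
      rwa [add_neg_cancel_left]
    · intro hx
      refine ⟨e'.symm x, ?_, e'.apply_symm_apply x⟩
      have h : ‖e' (e'.symm x)‖ = gaugeT (-(2 * I) + e'.symm x) := he _
      rw [e'.apply_symm_apply] at h
      rw [h, ← mem_T0_iff, add_neg_cancel_left] at hx
      exact hx
  exact ⟨(e'.image T0).trans (Homeomorph.setCongr he')⟩

theorem disk_image (e : ℂ ≃ᵢ ℂ) :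
    Nonempty (((e : ℂ → ℂ) '' T0 : Set ℂ) ≃ₜ Metric.closedBall (0 : ℂ) 1) := by
  obtain ⟨f⟩ := disk_T0
  exact ⟨(e.toHomeomorph.image T0).symm.trans f⟩

end Pool.Agent.MP_ef5fdc_co
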