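import Pool.Agent.Lib.MP_ef5fdc_co.Fill

/-!
# JOB EIGHT: the eight possibilities for a tile with a right angle at `p`, one side in direction `1`

`next8`: `fill_right` with `u = 1`, `β = 1`. From `1 = a * cj r (c * dir r k)` and `‖a‖ = 1` one gets `c = 1 / ‖dir r k‖` and `a`; `k` is one of `0, 2, 3, 4`:
`dir false 2 = 3 I`, `dir false 3 = -4`, `dir false 4 = -3 I`, `dir false 0 = 1 + I`,
`dir true 2 = -2`, `dir true 3 = -3 I`, `dir true 4 = 4`, `dir true 0 = -1 + I`.
-/

set_option autoImplicit false

open Set Topology Filter Complex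

namespace Pool.Agent.MP_ef5fdc_co

/-- `exp (-π i / 4)` -/
noncomputable def om : ℂ := ⟨√2 / 2, -(√2 / 2)⟩

/-- `exp (3 π i / 4)` -/
noncomputable def om' : ℂ := ⟨-(√2 / 2), √2 / 2⟩

/-- the eight isometries which map a right angled corner of `T0` to `p`, one side in direction `1` and
the tile on the left side of this ray -/
def Is8 (p : ℂ) (g : ℂ ≃ᵢ ℂ) : Prop :=
  (∀ x, g x = -I * x + (p + I * (3 + I))) ∨
  (∀ x, g x = -x + (p + (3 + 4 * I))) ∨
  (∀ x, g x = I * x + (p - I * (-1 + 4 * I))) ∨
  (∀ x, g x = om * x + p) ∨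
  (∀ x, g x = -(starRingEnd ℂ) x + (p + (3 - I))) ∨
  (∀ x, g x = -I * (starRingEnd ℂ) x + (p + I * (3 - 4 * I))) ∨
  (∀ x, g x = (starRingEnd ℂ) x + (p - (-1 - 4 * I))) ∨
  (∀ x, g x = om' * (starRingEnd ℂ) x + p)

/-- from `1 = a * (c * d)` with `‖a‖ = 1` -/
theorem mul_eq_norm {a d : ℂ} {c : ℝ} (ha : ‖a‖ = 1) (hc : 0 < c) (h : 1 = a * (c * d)) :
    a * d = ‖d‖ := by
  have h1 : c * ‖d‖ = 1 := by
    have := congrArg norm h
    rw [norm_one, norm_mul, norm_mul, ha, one_mul, norm_real, Real.norm_of_nonneg hc.le] at this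
    exact this.symm
  have hc' : (c : ℂ) ≠ 0 := by exact_mod_cast hc.ne'
  have h2 : (c : ℂ) * (a * d) = c * ‖d‖ := by
    rw [← ofReal_mul, h1, ofReal_one]
    linear_combination -h
  exact mul_left_cancel₀ hc' h2

theorem norm_of_sq {d : ℂ} {n : ℝ} (hn : 0 ≤ n) (h : d.re * d.re + d.im * d.im = n ^ 2) :
    ‖d‖ = n := by
  rw [Complex.norm_def, Complex.normSq_apply, h]
  exact Real.sqrt_sq hn

theorem V0_eq : V 0 = 0 := by apply Complex.ext <;> simp [V]
theorem V1_eq : V 1 = 1 + I := by apply Complex.ext <;> simp [V]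
theorem V2_eq : V 2 = 3 + I := by apply Complex.ext <;> simp [V]
theorem V3_eq : V 3 = 3 + 4 * I := by apply Complex.ext <;> simp [V]
theorem V4_eq : V 4 = -1 + 4 * I := by apply Complex.ext <;> simp [V]
theorem V5_eq : V 5 = -1 + I := by apply Complex.ext <;> simp [V]

theorem dir_true_zero : dir true 0 = V 5 - V 0 := rfl

/-- the eight directions, and the eight values of `a` -/
theorem a_of_dir {a : ℂ} {r : Bool} {k : Fin 6} {c : ℝ} (ha : ‖a‖ = 1) (hc : 0 < c)
    (h : 1 = a * cj r (c * dir r k)) {d : ℂ} (hd : cj r (dir r k) = d) {n : ℝ} (hn : 0 ≤ n)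
    (hdn : d.re * d.re + d.im * d.im = n ^ 2) : a * d = n := by
  have h1 : 1 = a * (c * d) := by
    rw [h, ← hd]
    cases r <;> simp [cj]
  rw [mul_eq_norm ha hc h1, norm_of_sq hn hdn]

theorem next8 {K : Subgroup (ℂ ≃ᵢ ℂ)} (hK : Good K) {h z : ℂ ≃ᵢ ℂ} (hh : h ∈ K)
    (hz : z ∈ K) {p : ℂ}
    (F1 : ∀ᶠ t : ℝ in 𝓝[>] 0, p + t ∈ (h : ℂ → ℂ) '' (T0 \ U0))
    (F2 : ∀ᶠ δ : ℝ in 𝓝[>] 0, ∀ᶠ t : ℝ in 𝓝[>] 0, p + t * (1 - δ * I) ∈ (h : ℂ → ℂ) '' U0)
    {α : ℝ} (hα : -1 < α)
    (F3 : ∀ᶠ t : ℝ in 𝓝[>] 0, p + t * (α + I) ∈ (z : ℂ → ℂ) '' U0)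
    (F4 : ∀ᶠ t : ℝ in 𝓝[>] 0, p + t ∉ (z : ℂ → ℂ) '' T0) :
    ∃ g ∈ K, Is8 p g := by
  obtain ⟨g, hg, -, r, a, b, ha, hgz, k, hk1, hk5, hp, c, hc, hu⟩ :=
    fill_right hK hh hz (p := p) (u := 1) one_ne_zero
      (by simpa using F1) (by simpa using F2) (α := α) (β := 1) one_pos hα
      (by simpa using F3) (Or.inr (by simpa using F4))
  refine ⟨g, hg, ?_⟩
  have hs2 : (√2 : ℝ) ^ 2 = 2 := Real.sq_sqrt (by norm_num)
  have hk : k = 0 ∨ k = 2 ∨ k = 3 ∨ k = 4 := by
    clear hp hu
    revert k
    decide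
  have hgz' : ∀ x, g x = a * cj r x + (p - a * cj r (V k)) := by
    intro x
    rw [hgz, ← hp]
    ring
  have hI : I * I = -1 := I_mul_I
  have c3 : (starRingEnd ℂ) 3 = 3 := map_ofNat _ 3
  have c4 : (starRingEnd ℂ) 4 = 4 := map_ofNat _ 4
  cases r
  · -- orientation preserving
    rcases hk with rfl | rfl | rfl | rfl
    · -- k = 0
      right; right; right; left
      have hd' : a * (1 + I) = (√2 : ℝ) :=
        a_of_dir ha hc hu (by simp [cj, dir, V0_eq, V1_eq]) (Real.sqrt_nonneg _)
          (by rw [hs2]; simp; norm_num)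
      have ha' : a = om := by
        have h1 : a * 2 = (√2 : ℝ) * (1 - I) := by
          linear_combination (1 - I) * hd' + a * hI
        have h2 : a = (√2 : ℝ) * (1 - I) / 2 := by
          rw [← h1]; ring
        rw [h2]
        apply Complex.ext <;> simp [om]
        all_goals ring
      intro x
      rw [hgz', ha', V0_eq]
      simp [cj]
    · -- k = 2
      left
      have hd' : a * (3 * I) = (3 : ℝ) :=
        a_of_dir ha hc hu (by simp [cj, dir, V2_eq, V3_eq]; ring) (by norm_num)
          (by simp; norm_num)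
      have ha' : a = -I := by
        push_cast at hd'
        linear_combination (-I / 3) * hd' + a * hI
      intro x
      rw [hgz', ha', V2_eq]
      simp only [cj, cond_false]
      ring
    · -- k = 3
      right; left
      have hd' : a * (-4) = (4 : ℝ) :=
        a_of_dir ha hc hu (by simp [cj, dir, V3_eq, V4_eq]; ring) (by norm_num)
          (by simp; norm_num)
      have ha' : a = -1 := by
        push_cast at hd'
        linear_combination (-1 / 4) * hd'
      intro x
      rw [hgz', ha', V3_eq]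
      simp only [cj, cond_false]
      ring
    · -- k = 4
      right; right; left
      have hd' : a * (-(3 * I)) = (3 : ℝ) :=
        a_of_dir ha hc hu (by simp [cj, dir, V4_eq, V5_eq]; ring) (by norm_num)
          (by simp; norm_num)
      have ha' : a = I := by
        push_cast at hd'
        linear_combination (I / 3) * hd' + a * hI
      intro x
      rw [hgz', ha', V4_eq]
      simp only [cj, cond_false]
  · -- orientation reversing
    rcases hk with rfl | rfl | rfl | rfl
    · -- k = 0
      right; right; right; right; right; right; right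
      have hd' : a * (-1 - I) = (√2 : ℝ) :=
        a_of_dir ha hc hu (by rw [dir_true_zero, V0_eq, V5_eq]; simp [cj]; ring)
          (Real.sqrt_nonneg _) (by rw [hs2]; simp; norm_num)
      have ha' : a = om' := by
        have h1 : a * 2 = (√2 : ℝ) * (-1 + I) := by
          linear_combination (-1 + I) * hd' + a * hI
        have h2 : a = (√2 : ℝ) * (-1 + I) / 2 := by
          rw [← h1]; ring
        rw [h2]
        apply Complex.ext <;> simp [om']
        all_goals ring
      intro x
      rw [hgz', ha', V0_eq]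
      simp [cj]
    · -- k = 2
      right; right; right; right; left
      have hd' : a * (-2) = (2 : ℝ) :=
        a_of_dir ha hc hu (by simp [cj, dir, V2_eq, V1_eq, c3]; ring) (by norm_num)
          (by simp; norm_num)
      have ha' : a = -1 := by
        push_cast at hd'
        linear_combination (-1 / 2) * hd'
      intro x
      rw [hgz', ha', V2_eq]
      simp [cj, c3]
      ring
    · -- k = 3
      right; right; right; right; right; left
      have hd' : a * (3 * I) = (3 : ℝ) :=
        a_of_dir ha hc hu (by simp [cj, dir, V3_eq, V2_eq, c4]; ring) (by norm_num)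
          (by simp; norm_num)
      have ha' : a = -I := by
        push_cast at hd'
        linear_combination (-I / 3) * hd' + a * hI
      intro x
      rw [hgz', ha', V3_eq]
      simp [cj, c3, c4]
      ring
    · -- k = 4
      right; right; right; right; right; right; left
      have hd' : a * 4 = (4 : ℝ) :=
        a_of_dir ha hc hu (by simp [cj, dir, V4_eq, V3_eq, c3]; ring) (by norm_num)
          (by simp; norm_num)
      have ha' : a = 1 := by
        push_cast at hd'
        linear_combination (1 / 4) * hd'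
      intro x
      rw [hgz', ha', V4_eq]
      simp [cj, c4]
      ring

end Pool.Agent.MP_ef5fdc_co
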