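import Pool.Agent.Lib.MP_ef5fdc_co.Good

/-!
# JOB ISOM: the isometries of the plane

`isometry_form`: Mazur-Ulam (`IsometryEquiv.toRealAffineIsometryEquiv`) and `linear_isometry_complex`.
-/

set_option autoImplicit false

open Set Topology Filter Complex

namespace Pool.Agent.MP_ef5fdc_co

theorem isometry_form (g : ℂ ≃ᵢ ℂ) :
    ∃ (r : Bool) (a b : ℂ), ‖a‖ = 1 ∧ ∀ z, g z = a * cj r z + b := by
  have hL : ∀ z, g z = g.toRealLinearIsometryEquiv z + g 0 := by
    intro z
    rw [IsometryEquiv.toRealLinearIsometryEquiv_apply]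
    ring
  obtain ⟨a, ha⟩ := linear_isometry_complex g.toRealLinearIsometryEquiv
  rcases ha with ha | ha
  · refine ⟨false, a, g 0, by simp, fun z => ?_⟩
    rw [hL z, ha]
    simp [cj, rotation_apply]
  · refine ⟨true, a, g 0, by simp, fun z => ?_⟩
    rw [hL z, ha]
    simp [cj, rotation_apply]

/-- For every `u` the direction `v` which is mapped to `u`. -/
theorem exists_dir (r : Bool) {a : ℂ} (ha : ‖a‖ = 1) {u : ℂ} (hu : u ≠ 0) :
    ∃ v : ℂ, v ≠ 0 ∧ a * cj r v = u ∧ ∀ α β : ℝ,
      a * cj r (α * v + β * (sg r * I * v)) = α * u + β * (I * u) := by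
  have ha0 : a ≠ 0 := by
    intro h
    rw [h] at ha
    simp at ha
  cases r with
  | false =>
    refine ⟨u / a, div_ne_zero hu ha0, ?_, fun α β => ?_⟩
    · simp only [cj, cond_false]
      field_simp
    · simp only [cj, cond_false, sg]
      push_cast
      field_simp
  | true =>
    refine ⟨(starRingEnd ℂ) (u / a), ?_, ?_, fun α β => ?_⟩
    · exact (map_ne_zero _).mpr (div_ne_zero hu ha0)
    · simp only [cj, cond_true, Complex.conj_conj]
      field_simp
    · simp only [cj, cond_true, sg, map_add, map_mul, Complex.conj_conj, Complex.conj_ofReal,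
        Complex.conj_I]
      push_cast
      field_simp

/-- additivity of `z ↦ a * cj r z + b` along a ray -/
theorem map_ray (r : Bool) (a b q w : ℂ) (t : ℝ) :
    a * cj r (q + t * w) + b = (a * cj r q + b) + t * (a * cj r w) := by
  cases r with
  | false =>
    simp only [cj, cond_false]
    ring
  | true =>
    simp only [cj, cond_true, map_add, map_mul, Complex.conj_ofReal]
    ring

end Pool.Agent.MP_ef5fdc_co
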