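import Pool.Agent.Lib.MP_ef5fdc_co.LocFin
import Pool.Agent.Lib.MP_ef5fdc_co.Classify
import Pool.Agent.Lib.MP_ef5fdc_co.Isom

/-!
# JOB FILL: the next tile at a point

`fill`: apply `adjacent` to get `g`; write `g z = a * cj r z + b` (`isometry_form`), `q = g.symm p`, `v` from `exists_dir`; `classify` applies:
`h1` because `g (q + t v) = p + t u`, `h2` because `g (q + t (v - sg r δ I v)) = p + t (u - δ I u)` is in `h '' U0` and would be in `g '' U0`; then `h⁻¹ * g ∈ K` maps an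
interior point to an interior point, so by `Good.disj` `g '' T0 = h '' T0`.
-/

set_option autoImplicit false

open Set Topology Filter Complex

namespace Pool.Agent.MP_ef5fdc_co

private theorem cj_inj (r : Bool) {z w : ℂ} (h : cj r z = cj r w) : z = w := by
  cases r
  · simpa [cj] using h
  · have h' : (starRingEnd ℂ) z = (starRingEnd ℂ) w := by simpa [cj] using h
    exact (starRingEnd ℂ).injective h'

private theorem lin_of_dir (r : Bool) {a : ℂ} (ha : ‖a‖ = 1) {u w : ℂ} (hu : u ≠ 0)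
    (hw : u = a * cj r w) (α β : ℝ) :
    a * cj r (α * w + β * (sg r * I * w)) = α * u + β * (I * u) := by
  obtain ⟨v, -, hv, hlin⟩ := exists_dir r ha hu
  have ha0 : a ≠ 0 := by
    rintro rfl
    simp at ha
  have hvw : v = w := cj_inj r (mul_left_cancel₀ ha0 (hv.trans hw))
  subst hvw
  exact hlin α β

/-- two tiles with a common interior point are equal -/
theorem Good.eq_of_inter {K : Subgroup (ℂ ≃ᵢ ℂ)} (hK : Good K) {g h : ℂ ≃ᵢ ℂ} (hg : g ∈ K)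
    (hh : h ∈ K) {x : ℂ} (h1 : x ∈ (g : ℂ → ℂ) '' U0) (h2 : x ∈ (h : ℂ → ℂ) '' U0) :
    (g : ℂ → ℂ) '' T0 = (h : ℂ → ℂ) '' T0 := by
  obtain ⟨w, hw, hgw⟩ := h1
  obtain ⟨w', hw', hhw⟩ := h2
  have hk : h⁻¹ * g ∈ K := K.mul_mem (K.inv_mem hh) hg
  have hkw : (h⁻¹ * g) w = w' := by
    change h.symm (g w) = w'
    rw [hgw, ← hhw]
    exact h.symm_apply_apply w'
  have hT := hK.disj _ hk ⟨w, hw, by rw [hkw]; exact hw'⟩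
  have hgk : (g : ℂ → ℂ) = fun z => h ((h⁻¹ * g) z) := by
    funext z
    change g z = h (h.symm (g z))
    exact (h.apply_symm_apply (g z)).symm
  calc (g : ℂ → ℂ) '' T0 = (fun z => h ((h⁻¹ * g) z)) '' T0 := by rw [← hgk]
    _ = h '' ((h⁻¹ * g) '' T0) := by rw [image_image]
    _ = h '' T0 := by rw [hT]

/-- Let the ray from `p` in direction `u` run along the frontier of the tile `h '' T0`, which is on its right side. Then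
there is another tile `g '' T0` on its left side. -/
theorem fill {K : Subgroup (ℂ ≃ᵢ ℂ)} (hK : Good K) {h : ℂ ≃ᵢ ℂ} (hh : h ∈ K) {p u : ℂ}
    (hu : u ≠ 0)
    (F1 : ∀ᶠ t : ℝ in 𝓝[>] 0, p + t * u ∈ (h : ℂ → ℂ) '' (T0 \ U0))
    (F2 : ∀ᶠ δ : ℝ in 𝓝[>] 0, ∀ᶠ t : ℝ in 𝓝[>] 0, p + t * (u - δ * (I * u)) ∈ (h : ℂ → ℂ) '' U0) :
    ∃ g ∈ K, (g : ℂ → ℂ) '' T0 ≠ (h : ℂ → ℂ) '' T0 ∧
      (∃ᶠ t : ℝ in 𝓝[>] 0, p + t * u ∈ (g : ℂ → ℂ) '' T0) ∧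
      ∃ (r : Bool) (a b : ℂ), ‖a‖ = 1 ∧ (∀ z, g z = a * cj r z + b) ∧
        ((∃ k : Fin 6, k ≠ 1 ∧ a * cj r (V k) + b = p ∧ ∃ c : ℝ, 0 < c ∧
            u = a * cj r (c * dir r k)) ∨
          (∀ α β : ℝ, 0 < β → ∀ᶠ t : ℝ in 𝓝[>] 0, p + t * (α * u + β * (I * u)) ∈
            (g : ℂ → ℂ) '' U0)) := by
  obtain ⟨g, hg, hne, hfreq⟩ := adjacent hK hh F1
  refine ⟨g, hg, hne, hfreq, ?_⟩
  obtain ⟨r, a, b, ha, hform⟩ := isometry_form g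
  obtain ⟨v, hv, hvu, hlin⟩ := exists_dir r ha hu
  obtain ⟨q, hq⟩ : ∃ q, g q = p := ⟨g.symm p, g.apply_symm_apply p⟩
  have hray : ∀ (w : ℂ) (t : ℝ), g (q + t * w) = p + t * (a * cj r w) := by
    intro w t
    rw [hform, map_ray, ← hform q, hq]
  have h1 : ∃ᶠ t : ℝ in 𝓝[>] 0, q + t * v ∈ T0 := by
    refine hfreq.mono fun t ht => ?_
    obtain ⟨w, hw, hgw⟩ := ht
    have h3 : w = q + t * v := g.injective (by rw [hgw, hray, hvu])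
    rw [← h3]
    exact hw
  have hδ : ∀ δ t : ℝ, g (q + t * (v - sg r * δ * I * v)) = p + t * (u - δ * (I * u)) := by
    intro δ t
    have h3 := hlin 1 (-δ)
    have h4 : ((1 : ℝ) : ℂ) * v + ((-δ : ℝ) : ℂ) * (sg r * I * v) = v - sg r * δ * I * v := by
      push_cast
      ring
    rw [h4] at h3
    rw [hray, h3]
    push_cast
    ring
  have h2 : ∀ᶠ δ : ℝ in 𝓝[>] 0, ∀ᶠ t : ℝ in 𝓝[>] 0, q + t * (v - sg r * δ * I * v) ∉ U0 := by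
    filter_upwards [F2] with δ hF2
    filter_upwards [hF2] with t ht hmem
    exact hne (hK.eq_of_inter hg hh (x := p + t * (u - δ * (I * u)))
      ⟨_, hmem, hδ δ t⟩ ht)
  refine ⟨r, a, b, ha, hform, ?_⟩
  rcases classify hv r h1 h2 with ⟨k, hk, hqk, c, hc, hvc⟩ | hgen
  · left
    refine ⟨k, hk, ?_, c, hc, ?_⟩
    · rw [← hqk, ← hform, hq]
    · rw [← hvc, hvu]
  · right
    intro α β hβ
    filter_upwards [hgen α β hβ] with t ht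
    exact ⟨_, ht, by rw [hray, hlin]⟩

/-- The tile `z '' T0` blocks the direction `α u + β I u`. The new tile has a convex corner at `p`. -/
theorem fill_corner {K : Subgroup (ℂ ≃ᵢ ℂ)} (hK : Good K) {h z : ℂ ≃ᵢ ℂ} (hh : h ∈ K)
    (hz : z ∈ K) {p u : ℂ} (hu : u ≠ 0)
    (F1 : ∀ᶠ t : ℝ in 𝓝[>] 0, p + t * u ∈ (h : ℂ → ℂ) '' (T0 \ U0))
    (F2 : ∀ᶠ δ : ℝ in 𝓝[>] 0, ∀ᶠ t : ℝ in 𝓝[>] 0, p + t * (u - δ * (I * u)) ∈ (h : ℂ → ℂ) '' U0)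
    {α β : ℝ} (hβ : 0 < β)
    (F3 : ∀ᶠ t : ℝ in 𝓝[>] 0, p + t * (α * u + β * (I * u)) ∈ (z : ℂ → ℂ) '' U0)
    (F4 : (z : ℂ → ℂ) '' T0 = (h : ℂ → ℂ) '' T0 ∨
      ∀ᶠ t : ℝ in 𝓝[>] 0, p + t * u ∉ (z : ℂ → ℂ) '' T0) :
    ∃ g ∈ K, (g : ℂ → ℂ) '' T0 ≠ (z : ℂ → ℂ) '' T0 ∧
      ∃ (r : Bool) (a b : ℂ), ‖a‖ = 1 ∧ (∀ z, g z = a * cj r z + b) ∧
        ∃ k : Fin 6, k ≠ 1 ∧ a * cj r (V k) + b = p ∧ ∃ c : ℝ, 0 < c ∧
            u = a * cj r (c * dir r k) := by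
  obtain ⟨g, hg, hne, hfreq, r, a, b, ha, hform, halt⟩ := fill hK hh hu F1 F2
  have hnez : (g : ℂ → ℂ) '' T0 ≠ (z : ℂ → ℂ) '' T0 := by
    intro heq
    rcases F4 with F4 | F4
    · exact hne (heq.trans F4)
    · obtain ⟨t, ht1, ht2⟩ := (hfreq.and_eventually F4).exists
      rw [heq] at ht1
      exact ht2 ht1
  refine ⟨g, hg, hnez, r, a, b, ha, hform, ?_⟩
  rcases halt with hk | hgen
  · exact hk
  · exfalso
    obtain ⟨t, ht1, ht2⟩ := ((hgen α β hβ).and F3).exists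
    exact hnez (hK.eq_of_inter hg hz ht1 ht2)

private theorem block {K : Subgroup (ℂ ≃ᵢ ℂ)} (hK : Good K) {g z : ℂ ≃ᵢ ℂ} (hg : g ∈ K)
    (hz : z ∈ K) (hne : (g : ℂ → ℂ) '' T0 ≠ (z : ℂ → ℂ) '' T0) {p u : ℂ} (hu : u ≠ 0)
    {r : Bool} {a b : ℂ} (ha : ‖a‖ = 1) (hform : ∀ z, g z = a * cj r z + b) {k : Fin 6}
    (hkp : a * cj r (V k) + b = p) {c : ℝ} (hcu : u = a * cj r (c * dir r k)) {α β : ℝ}
    (hsec : ∀ᶠ t : ℝ in 𝓝[>] 0,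
      V k + t * (α * (c * dir r k) + β * (sg r * I * (c * dir r k))) ∈ U0)
    (F3 : ∀ᶠ t : ℝ in 𝓝[>] 0, p + t * (α * u + β * (I * u)) ∈ (z : ℂ → ℂ) '' U0) : False := by
  obtain ⟨t, ht1, ht2⟩ := (hsec.and F3).exists
  refine hne (hK.eq_of_inter hg hz (x := p + t * (α * u + β * (I * u))) ⟨_, ht1, ?_⟩ ht2)
  rw [hform, map_ray, hkp, lin_of_dir r ha hu hcu]

/-- If `z '' T0` blocks a direction between `3 π / 4` and `π / 2` to the left of `u`, the new tile has a right angle at `p`. -/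
theorem fill_right {K : Subgroup (ℂ ≃ᵢ ℂ)} (hK : Good K) {h z : ℂ ≃ᵢ ℂ} (hh : h ∈ K)
    (hz : z ∈ K) {p u : ℂ} (hu : u ≠ 0)
    (F1 : ∀ᶠ t : ℝ in 𝓝[>] 0, p + t * u ∈ (h : ℂ → ℂ) '' (T0 \ U0))
    (F2 : ∀ᶠ δ : ℝ in 𝓝[>] 0, ∀ᶠ t : ℝ in 𝓝[>] 0, p + t * (u - δ * (I * u)) ∈ (h : ℂ → ℂ) '' U0)
    {α β : ℝ} (hβ : 0 < β) (hα : -β < α)
    (F3 : ∀ᶠ t : ℝ in 𝓝[>] 0, p + t * (α * u + β * (I * u)) ∈ (z : ℂ → ℂ) '' U0)
    (F4 : (z : ℂ → ℂ) '' T0 = (h : ℂ → ℂ) '' T0 ∨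
      ∀ᶠ t : ℝ in 𝓝[>] 0, p + t * u ∉ (z : ℂ → ℂ) '' T0) :
    ∃ g ∈ K, (g : ℂ → ℂ) '' T0 ≠ (z : ℂ → ℂ) '' T0 ∧
      ∃ (r : Bool) (a b : ℂ), ‖a‖ = 1 ∧ (∀ z, g z = a * cj r z + b) ∧
        ∃ k : Fin 6, k ≠ 1 ∧ k ≠ 5 ∧ a * cj r (V k) + b = p ∧ ∃ c : ℝ, 0 < c ∧
            u = a * cj r (c * dir r k) := by
  obtain ⟨g, hg, hne, r, a, b, ha, hform, k, hk, hkp, c, hc, hcu⟩ :=
    fill_corner hK hh hz hu F1 F2 hβ F3 F4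
  refine ⟨g, hg, hne, r, a, b, ha, hform, k, hk, ?_, hkp, c, hc, hcu⟩
  rintro rfl
  exact block hK hg hz hne hu ha hform hkp hcu (sector_five r hc hα hβ) F3

/-- No direction between `0` and `π / 2` to the left of `u` can be blocked. -/
theorem fill_none {K : Subgroup (ℂ ≃ᵢ ℂ)} (hK : Good K) {h z : ℂ ≃ᵢ ℂ} (hh : h ∈ K)
    (hz : z ∈ K) {p u : ℂ} (hu : u ≠ 0)
    (F1 : ∀ᶠ t : ℝ in 𝓝[>] 0, p + t * u ∈ (h : ℂ → ℂ) '' (T0 \ U0))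
    (F2 : ∀ᶠ δ : ℝ in 𝓝[>] 0, ∀ᶠ t : ℝ in 𝓝[>] 0, p + t * (u - δ * (I * u)) ∈ (h : ℂ → ℂ) '' U0)
    {α β : ℝ} (hβ : 0 < β) (hα : 0 < α)
    (F3 : ∀ᶠ t : ℝ in 𝓝[>] 0, p + t * (α * u + β * (I * u)) ∈ (z : ℂ → ℂ) '' U0)
    (F4 : (z : ℂ → ℂ) '' T0 = (h : ℂ → ℂ) '' T0 ∨
      ∀ᶠ t : ℝ in 𝓝[>] 0, p + t * u ∉ (z : ℂ → ℂ) '' T0) : False := by
  obtain ⟨g, hg, hne, r, a, b, ha, hform, k, hk, hkp, c, hc, hcu⟩ :=
    fill_corner hK hh hz hu F1 F2 hβ F3 F4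
  exact block hK hg hz hne hu ha hform hkp hcu (sector_right hk r hc hα hβ) F3

end Pool.Agent.MP_ef5fdc_co
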