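import Pool.Agent.Lib.MP_ef5fdc_co.Shape

/-!
# Groups whose orbit of `T0` is a tiling

An isohedral tiling by copies of `T0` gives (after a motion) a group `K` of isometries such that the sets `g '' T0`,
`g ∈ K`, are the tiles (see `Reduce.lean`).
-/

set_option autoImplicit false

open Set Topology Filter Complex

namespace Pool.Agent.MP_ef5fdc_co

/-- the images of `T0` under the elements of `K` tile the plane -/
structure Good (K : Subgroup (ℂ ≃ᵢ ℂ)) : Prop where
  disj : ∀ g ∈ K, (∃ w ∈ U0, g w ∈ U0) → (g : ℂ → ℂ) '' T0 = T0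
  cover : ∀ z : ℂ, ∃ g ∈ K, ∃ w ∈ T0, g w = z

/-- The basic contradiction: an element of `K` maps some interior point to an interior point and some point of `T0`
to a point outside. -/
theorem Good.leaf {K : Subgroup (ℂ ≃ᵢ ℂ)} (hK : Good K) {g : ℂ ≃ᵢ ℂ} (hg : g ∈ K) (w w' : ℂ)
    (hw : w ∈ U0) (hgw : g w ∈ U0) (hw' : w' ∈ T0) (hgw' : g w' ∉ T0) : False := by
  have h := hK.disj g hg ⟨w, hw, hgw⟩
  exact hgw' (h ▸ mem_image_of_mem g hw')

/-- sign of the orientation: `r = true` means orientation reversing -/
def sg (r : Bool) : ℝ := bif r then -1 else 1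

/-- the identity or the complex conjugation -/
noncomputable def cj (r : Bool) (z : ℂ) : ℂ := bif r then (starRingEnd ℂ) z else z

/-- the direction of the side leaving the vertex `V k` to the next (`r = false`) or to the previous
(`r = true`) vertex -/
noncomputable def dir (r : Bool) (k : Fin 6) : ℂ := bif r then V (k - 1) - V k else V (k + 1) - V k

end Pool.Agent.MP_ef5fdc_co
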