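import Pool.Agent.Lib.MP_ef5fdc_co.Interior

/-!
# JOB HEXAGON: `T0` is a non-convex hexagon
-/

set_option autoImplicit false

open Set Topology Filter Complex

namespace Pool.Agent.MP_ef5fdc_co

/-- a point of a segment, in coordinates -/
theorem mem_seg_iff (a b z : ℂ) : z ∈ segment ℝ a b ↔
    ∃ t : ℝ, 0 ≤ t ∧ t ≤ 1 ∧ z.re = a.re + t * (b.re - a.re) ∧ z.im = a.im + t * (b.im - a.im) := by
  rw [segment_eq_image']
  constructor
  · rintro ⟨t, ⟨h0, h1⟩, rfl⟩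
    exact ⟨t, h0, h1, by simp, by simp⟩
  · rintro ⟨t, h0, h1, hr, hi⟩
    exact ⟨t, ⟨h0, h1⟩, Complex.ext (by simp [hr]) (by simp [hi])⟩

/-- the six sides of the hexagon in coordinates -/
def Side : Fin 6 → ℂ → Prop := ![
  fun z => z.re = z.im ∧ 0 ≤ z.re ∧ z.re ≤ 1,
  fun z => z.im = 1 ∧ 1 ≤ z.re ∧ z.re ≤ 3,
  fun z => z.re = 3 ∧ 1 ≤ z.im ∧ z.im ≤ 4,
  fun z => z.im = 4 ∧ -1 ≤ z.re ∧ z.re ≤ 3,
  fun z => z.re = -1 ∧ 1 ≤ z.im ∧ z.im ≤ 4,
  fun z => z.re = -z.im ∧ 0 ≤ z.im ∧ z.im ≤ 1]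

theorem seg0 (z : ℂ) : z ∈ segment ℝ (V 0) (V 1) ↔ z.re = z.im ∧ 0 ≤ z.re ∧ z.re ≤ 1 := by
  show z ∈ segment ℝ (⟨0, 0⟩ : ℂ) ⟨1, 1⟩ ↔ _
  rw [mem_seg_iff]
  constructor
  · rintro ⟨t, h0, h1, hr, hi⟩
    simp only at hr hi
    exact ⟨by linarith, by linarith, by linarith⟩
  · rintro ⟨h, h0, h1⟩
    exact ⟨z.re, h0, h1, by simp, by simp [h]⟩

theorem seg1 (z : ℂ) : z ∈ segment ℝ (V 1) (V 2) ↔ z.im = 1 ∧ 1 ≤ z.re ∧ z.re ≤ 3 := by
  show z ∈ segment ℝ (⟨1, 1⟩ : ℂ) ⟨3, 1⟩ ↔ _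
  rw [mem_seg_iff]
  constructor
  · rintro ⟨t, h0, h1, hr, hi⟩
    simp only at hr hi
    exact ⟨by linarith, by linarith, by linarith⟩
  · rintro ⟨h, h0, h1⟩
    exact ⟨(z.re - 1) / 2, by linarith, by linarith, by simp only; linarith, by simp [h]⟩

theorem seg2 (z : ℂ) : z ∈ segment ℝ (V 2) (V 3) ↔ z.re = 3 ∧ 1 ≤ z.im ∧ z.im ≤ 4 := by
  show z ∈ segment ℝ (⟨3, 1⟩ : ℂ) ⟨3, 4⟩ ↔ _
  rw [mem_seg_iff]
  constructor
  · rintro ⟨t, h0, h1, hr, hi⟩
    simp only at hr hi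
    exact ⟨by linarith, by linarith, by linarith⟩
  · rintro ⟨h, h0, h1⟩
    exact ⟨(z.im - 1) / 3, by linarith, by linarith, by simp [h], by simp only; linarith⟩

theorem seg3 (z : ℂ) : z ∈ segment ℝ (V 3) (V 4) ↔ z.im = 4 ∧ -1 ≤ z.re ∧ z.re ≤ 3 := by
  show z ∈ segment ℝ (⟨3, 4⟩ : ℂ) ⟨-1, 4⟩ ↔ _
  rw [mem_seg_iff]
  constructor
  · rintro ⟨t, h0, h1, hr, hi⟩
    simp only at hr hi
    exact ⟨by linarith, by linarith, by linarith⟩
  · rintro ⟨h, h0, h1⟩
    exact ⟨(3 - z.re) / 4, by linarith, by linarith, by simp only; linarith, by simp [h]⟩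

theorem seg4 (z : ℂ) : z ∈ segment ℝ (V 4) (V 5) ↔ z.re = -1 ∧ 1 ≤ z.im ∧ z.im ≤ 4 := by
  show z ∈ segment ℝ (⟨-1, 4⟩ : ℂ) ⟨-1, 1⟩ ↔ _
  rw [mem_seg_iff]
  constructor
  · rintro ⟨t, h0, h1, hr, hi⟩
    simp only at hr hi
    exact ⟨by linarith, by linarith, by linarith⟩
  · rintro ⟨h, h0, h1⟩
    exact ⟨(4 - z.im) / 3, by linarith, by linarith, by simp [h], by simp only; linarith⟩

theorem seg5 (z : ℂ) : z ∈ segment ℝ (V 5) (V 0) ↔ z.re = -z.im ∧ 0 ≤ z.im ∧ z.im ≤ 1 := by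
  show z ∈ segment ℝ (⟨-1, 1⟩ : ℂ) ⟨0, 0⟩ ↔ _
  rw [mem_seg_iff]
  constructor
  · rintro ⟨t, h0, h1, hr, hi⟩
    simp only at hr hi
    exact ⟨by linarith, by linarith, by linarith⟩
  · rintro ⟨h, h0, h1⟩
    exact ⟨1 - z.im, by linarith, by linarith, by simp only; linarith, by simp only; linarith⟩

theorem mem_side (i : Fin 6) (z : ℂ) : z ∈ segment ℝ (V i) (V (i + 1)) ↔ Side i z := by
  fin_cases i
  · exact seg0 z
  · exact seg1 z
  · exact seg2 z
  · exact seg3 z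
  · exact seg4 z
  · exact seg5 z

theorem mem_polyline (z : ℂ) : z ∈ polyline V ↔ ∃ i, Side i z := by
  simp only [polyline, mem_iUnion, mem_side]

theorem polyline_V : polyline V = T0 \ U0 := by
  ext z
  rw [mem_polyline]
  constructor
  · rintro ⟨i, hi⟩
    have key : ∀ i, Side i z → z ∈ T0 ∧ z ∉ U0 := by
      intro i hi
      fin_cases i
      · obtain ⟨h, h0, h1⟩ : z.re = z.im ∧ 0 ≤ z.re ∧ z.re ≤ 1 := hi
        refine ⟨⟨by linarith, by linarith, by linarith, Or.inr ⟨by linarith, by linarith⟩⟩, ?_⟩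
        rintro ⟨a, b, c, d | ⟨d, e⟩⟩ <;> linarith
      · obtain ⟨h, h0, h1⟩ : z.im = 1 ∧ 1 ≤ z.re ∧ z.re ≤ 3 := hi
        refine ⟨⟨by linarith, by linarith, by linarith, Or.inl (by linarith)⟩, ?_⟩
        rintro ⟨a, b, c, d | ⟨d, e⟩⟩ <;> linarith
      · obtain ⟨h, h0, h1⟩ : z.re = 3 ∧ 1 ≤ z.im ∧ z.im ≤ 4 := hi
        refine ⟨⟨by linarith, by linarith, by linarith, Or.inl (by linarith)⟩, ?_⟩
        rintro ⟨a, b, c, d | ⟨d, e⟩⟩ <;> linarith
      · obtain ⟨h, h0, h1⟩ : z.im = 4 ∧ -1 ≤ z.re ∧ z.re ≤ 3 := hi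
        refine ⟨⟨by linarith, by linarith, by linarith, Or.inl (by linarith)⟩, ?_⟩
        rintro ⟨a, b, c, d | ⟨d, e⟩⟩ <;> linarith
      · obtain ⟨h, h0, h1⟩ : z.re = -1 ∧ 1 ≤ z.im ∧ z.im ≤ 4 := hi
        refine ⟨⟨by linarith, by linarith, by linarith, Or.inl (by linarith)⟩, ?_⟩
        rintro ⟨a, b, c, d | ⟨d, e⟩⟩ <;> linarith
      · obtain ⟨h, h0, h1⟩ : z.re = -z.im ∧ 0 ≤ z.im ∧ z.im ≤ 1 := hi
        refine ⟨⟨by linarith, by linarith, by linarith, Or.inr ⟨by linarith, by linarith⟩⟩, ?_⟩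
        rintro ⟨a, b, c, d | ⟨d, e⟩⟩ <;> linarith
    exact key i hi
  · rintro ⟨⟨h1, h2, h3, h4⟩, hU⟩
    have s0 : z.re = z.im → 0 ≤ z.re → z.re ≤ 1 → ∃ i, Side i z := fun a b c => ⟨0, a, b, c⟩
    have s1 : z.im = 1 → 1 ≤ z.re → z.re ≤ 3 → ∃ i, Side i z := fun a b c => ⟨1, a, b, c⟩
    have s2 : z.re = 3 → 1 ≤ z.im → z.im ≤ 4 → ∃ i, Side i z := fun a b c => ⟨2, a, b, c⟩
    have s3 : z.im = 4 → -1 ≤ z.re → z.re ≤ 3 → ∃ i, Side i z := fun a b c => ⟨3, a, b, c⟩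
    have s4 : z.re = -1 → 1 ≤ z.im → z.im ≤ 4 → ∃ i, Side i z := fun a b c => ⟨4, a, b, c⟩
    have s5 : z.re = -z.im → 0 ≤ z.im → z.im ≤ 1 → ∃ i, Side i z := fun a b c => ⟨5, a, b, c⟩
    rcases h1.eq_or_lt with h1 | h1
    · rcases h4 with h4 | ⟨h4, h5⟩
      · exact s4 h1.symm h4 h3
      · exact s4 h1.symm (by linarith) h3
    rcases h2.eq_or_lt with h2 | h2
    · rcases h4 with h4 | ⟨h4, h5⟩
      · exact s2 h2 h4 h3
      · exact s2 h2 (by linarith) h3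
    rcases h3.eq_or_lt with h3 | h3
    · exact s3 h3 h1.le h2.le
    have hU1 : z.im ≤ 1 := by
      by_contra hc
      exact hU ⟨h1, h2, h3, Or.inl (not_le.1 hc)⟩
    have hU2 : z.im ≤ z.re ∨ z.im ≤ -z.re := by
      by_contra hc
      push Not at hc
      exact hU ⟨h1, h2, h3, Or.inr hc⟩
    rcases h4 with h4 | ⟨h4, h5⟩
    · have h6 : z.im = 1 := le_antisymm hU1 h4
      rcases hU2 with hU2 | hU2
      · exact s1 h6 (by linarith) h2.le
      · linarith
    · rcases hU2 with hU2 | hU2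
      · exact s0 (by linarith) (by linarith) (by linarith)
      · exact s5 (by linarith) (by linarith) (by linarith)

/-- collinear points have a vanishing determinant -/
theorem cross_of_collinear {a b c : ℂ} (h : Collinear ℝ {a, b, c}) :
    (b.re - a.re) * (c.im - a.im) - (b.im - a.im) * (c.re - a.re) = 0 := by
  rw [collinear_iff_of_mem (p₀ := a) (by simp)] at h
  obtain ⟨v, hv⟩ := h
  obtain ⟨r, hr⟩ := hv b (by simp)
  obtain ⟨s, hs⟩ := hv c (by simp)
  have h1 : b.re = r * v.re + a.re := by rw [hr]; simp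
  have h2 : b.im = r * v.im + a.im := by rw [hr]; simp
  have h3 : c.re = s * v.re + a.re := by rw [hs]; simp
  have h4 : c.im = s * v.im + a.im := by rw [hs]; simp
  rw [h1, h2, h3, h4]
  ring

theorem isSimple_V : IsSimpleHexagon V := by
  constructor
  · intro i h
    have h := cross_of_collinear h
    fin_cases i
    · replace h : ((1 : ℝ) - 0) * (1 - 0) - (1 - 0) * (3 - 0) = 0 := h
      norm_num at h
    · replace h : ((3 : ℝ) - 1) * (4 - 1) - (1 - 1) * (3 - 1) = 0 := h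
      norm_num at h
    · replace h : ((3 : ℝ) - 3) * (4 - 1) - (4 - 1) * (-1 - 3) = 0 := h
      norm_num at h
    · replace h : ((-1 : ℝ) - 3) * (1 - 4) - (4 - 4) * (-1 - 3) = 0 := h
      norm_num at h
    · replace h : ((-1 : ℝ) - -1) * (0 - 4) - (1 - 4) * (0 - -1) = 0 := h
      norm_num at h
    · replace h : ((0 : ℝ) - -1) * (1 - 1) - (0 - 1) * (1 - -1) = 0 := h
      norm_num at h
  · intro i
    have e : i + 2 = i + 1 + 1 := by fin_cases i <;> rfl
    rw [e]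
    ext z
    rw [mem_inter_iff, mem_side, mem_side, mem_singleton_iff]
    fin_cases i
    · show (z.re = z.im ∧ 0 ≤ z.re ∧ z.re ≤ 1) ∧ (z.im = 1 ∧ 1 ≤ z.re ∧ z.re ≤ 3) ↔ z = (⟨1, 1⟩ : ℂ)
      rw [Complex.ext_iff]
      constructor
      · rintro ⟨⟨a, b, c⟩, d, e, f⟩
        exact ⟨by simp only; linarith, by simp only; linarith⟩
      · rintro ⟨a, b⟩
        simp only at a b
        exact ⟨⟨by linarith, by linarith, by linarith⟩, by linarith, by linarith, by linarith⟩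
    · show (z.im = 1 ∧ 1 ≤ z.re ∧ z.re ≤ 3) ∧ (z.re = 3 ∧ 1 ≤ z.im ∧ z.im ≤ 4) ↔ z = (⟨3, 1⟩ : ℂ)
      rw [Complex.ext_iff]
      constructor
      · rintro ⟨⟨a, b, c⟩, d, e, f⟩
        exact ⟨by simp only; linarith, by simp only; linarith⟩
      · rintro ⟨a, b⟩
        simp only at a b
        exact ⟨⟨by linarith, by linarith, by linarith⟩, by linarith, by linarith, by linarith⟩
    · show (z.re = 3 ∧ 1 ≤ z.im ∧ z.im ≤ 4) ∧ (z.im = 4 ∧ -1 ≤ z.re ∧ z.re ≤ 3) ↔ z = (⟨3, 4⟩ : ℂ)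
      rw [Complex.ext_iff]
      constructor
      · rintro ⟨⟨a, b, c⟩, d, e, f⟩
        exact ⟨by simp only; linarith, by simp only; linarith⟩
      · rintro ⟨a, b⟩
        simp only at a b
        exact ⟨⟨by linarith, by linarith, by linarith⟩, by linarith, by linarith, by linarith⟩
    · show (z.im = 4 ∧ -1 ≤ z.re ∧ z.re ≤ 3) ∧ (z.re = -1 ∧ 1 ≤ z.im ∧ z.im ≤ 4) ↔ z = (⟨-1, 4⟩ : ℂ)
      rw [Complex.ext_iff]
      constructor
      · rintro ⟨⟨a, b, c⟩, d, e, f⟩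
        exact ⟨by simp only; linarith, by simp only; linarith⟩
      · rintro ⟨a, b⟩
        simp only at a b
        exact ⟨⟨by linarith, by linarith, by linarith⟩, by linarith, by linarith, by linarith⟩
    · show (z.re = -1 ∧ 1 ≤ z.im ∧ z.im ≤ 4) ∧ (z.re = -z.im ∧ 0 ≤ z.im ∧ z.im ≤ 1) ↔ z = (⟨-1, 1⟩ : ℂ)
      rw [Complex.ext_iff]
      constructor
      · rintro ⟨⟨a, b, c⟩, d, e, f⟩
        exact ⟨by simp only; linarith, by simp only; linarith⟩
      · rintro ⟨a, b⟩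
        simp only at a b
        exact ⟨⟨by linarith, by linarith, by linarith⟩, by linarith, by linarith, by linarith⟩
    · show (z.re = -z.im ∧ 0 ≤ z.im ∧ z.im ≤ 1) ∧ (z.re = z.im ∧ 0 ≤ z.re ∧ z.re ≤ 1) ↔ z = (⟨0, 0⟩ : ℂ)
      rw [Complex.ext_iff]
      constructor
      · rintro ⟨⟨a, b, c⟩, d, e, f⟩
        exact ⟨by simp only; linarith, by simp only; linarith⟩
      · rintro ⟨a, b⟩
        simp only at a b
        exact ⟨⟨by linarith, by linarith, by linarith⟩, by linarith, by linarith, by linarith⟩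
  · intro i j h1 h2 h3
    rw [Set.disjoint_left]
    intro z hz hz'
    rw [mem_side] at hz hz'
    have d02 : ¬ (Side 0 z ∧ Side 2 z) := by
      rintro ⟨⟨a, b, c⟩, d, e, f⟩; linarith
    have d03 : ¬ (Side 0 z ∧ Side 3 z) := by
      rintro ⟨⟨a, b, c⟩, d, e, f⟩; linarith
    have d04 : ¬ (Side 0 z ∧ Side 4 z) := by
      rintro ⟨⟨a, b, c⟩, d, e, f⟩; linarith
    have d13 : ¬ (Side 1 z ∧ Side 3 z) := by
      rintro ⟨⟨a, b, c⟩, d, e, f⟩; linarith
    have d14 : ¬ (Side 1 z ∧ Side 4 z) := by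
      rintro ⟨⟨a, b, c⟩, d, e, f⟩; linarith
    have d15 : ¬ (Side 1 z ∧ Side 5 z) := by
      rintro ⟨⟨a, b, c⟩, d, e, f⟩; linarith
    have d24 : ¬ (Side 2 z ∧ Side 4 z) := by
      rintro ⟨⟨a, b, c⟩, d, e, f⟩; linarith
    have d25 : ¬ (Side 2 z ∧ Side 5 z) := by
      rintro ⟨⟨a, b, c⟩, d, e, f⟩; linarith
    have d35 : ¬ (Side 3 z ∧ Side 5 z) := by
      rintro ⟨⟨a, b, c⟩, d, e, f⟩; linarith
    fin_cases i <;> fin_cases j <;>
      first
        | exact absurd rfl h1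
        | exact absurd rfl h2
        | exact absurd rfl h3
        | exact d02 ⟨hz, hz'⟩
        | exact d02 ⟨hz', hz⟩
        | exact d03 ⟨hz, hz'⟩
        | exact d03 ⟨hz', hz⟩
        | exact d04 ⟨hz, hz'⟩
        | exact d04 ⟨hz', hz⟩
        | exact d13 ⟨hz, hz'⟩
        | exact d13 ⟨hz', hz⟩
        | exact d14 ⟨hz, hz'⟩
        | exact d14 ⟨hz', hz⟩
        | exact d15 ⟨hz, hz'⟩
        | exact d15 ⟨hz', hz⟩
        | exact d24 ⟨hz, hz'⟩
        | exact d24 ⟨hz', hz⟩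
        | exact d25 ⟨hz, hz'⟩
        | exact d25 ⟨hz', hz⟩
        | exact d35 ⟨hz, hz'⟩
        | exact d35 ⟨hz', hz⟩

theorem compl_polyline : (polyline V)ᶜ = U0 ∪ T0ᶜ := by
  rw [polyline_V]
  ext z
  have := @U0_subset_T0 z
  simp only [mem_compl_iff, mem_diff, mem_union]
  tauto

theorem isHexagon_T0 : IsHexagon T0 := by
  refine ⟨V, isSimple_V, ?_⟩
  have hdisj : Disjoint U0 T0ᶜ := disjoint_compl_right.mono_left U0_subset_T0
  ext x
  simp only [enclosed, mem_union, mem_setOf_eq]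
  constructor
  · intro hx
    by_cases hU : x ∈ U0
    · right
      have hxP : x ∈ (polyline V)ᶜ := by rw [compl_polyline]; exact Or.inl hU
      refine ⟨hxP, ?_⟩
      have hsub : connectedComponentIn (polyline V)ᶜ x ⊆ U0 := by
        have h1 : IsPreconnected (connectedComponentIn (polyline V)ᶜ x) :=
          isPreconnected_connectedComponentIn
        have h2 : connectedComponentIn (polyline V)ᶜ x ⊆ U0 ∪ T0ᶜ := by
          rw [← compl_polyline]
          exact connectedComponentIn_subset _ _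
        exact h1.subset_left_of_subset_union isOpen_U0 isClosed_T0.isOpen_compl hdisj h2
          ⟨x, mem_connectedComponentIn hxP, hU⟩
      exact (isCompact_T0.isBounded.subset U0_subset_T0).subset hsub
    · left
      rw [polyline_V]
      exact ⟨hx, hU⟩
  · rintro (hx | ⟨hxP, hb⟩)
    · rw [polyline_V] at hx
      exact hx.1
    · by_contra hx
      -- the ray from `x` away from `2 I`
      set R : Set ℂ := (fun s : ℝ => 2 * I + s * (x - 2 * I)) '' Ici (1 : ℝ) with hR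
      have hcont : Continuous fun s : ℝ => 2 * I + (s : ℂ) * (x - 2 * I) := by fun_prop
      have hRpre : IsPreconnected R := isPreconnected_Ici.image _ hcont.continuousOn
      have hRT : R ⊆ (polyline V)ᶜ := by
        rintro y ⟨s, hs, rfl⟩
        rw [compl_polyline]
        right
        intro hy
        have hs1 : (1 : ℝ) ≤ s := hs
        rcases hs1.eq_or_lt with h | h
        · subst h
          apply hx
          simpa using hy
        · have h0 : (0 : ℝ) ≤ s⁻¹ := by positivity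
          have h1 : s⁻¹ < 1 := inv_lt_one_of_one_lt₀ h
          have h2 := star_T0 hy h0 h1
          apply hx
          apply U0_subset_T0
          have hs0 : (s : ℂ) ≠ 0 := by
            have : s ≠ 0 := by positivity
            exact_mod_cast this
          convert h2 using 1
          push_cast
          field_simp
          ring
      have hxR : x ∈ R := ⟨1, by simp, by simp⟩
      have hsub : R ⊆ connectedComponentIn (polyline V)ᶜ x :=
        hRpre.subset_connectedComponentIn hxR hRT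
      have hRb : Bornology.IsBounded R := hb.subset hsub
      have hne : x - 2 * I ≠ 0 := by
        intro h
        apply hx
        have : x = 2 * I := by linear_combination h
        rw [this]
        refine ⟨by simp, by simp, by simp; norm_num, Or.inl (by simp)⟩
      obtain ⟨C, hC⟩ := hRb.exists_norm_le
      have hpos : 0 < ‖x - 2 * I‖ := norm_pos_iff.2 hne
      have hCC : ∀ s : ℝ, 1 ≤ s → s * ‖x - 2 * I‖ ≤ C + 2 := by
        intro s hs
        have h1 := hC _ ⟨s, hs, rfl⟩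
        have h2 : ‖(s : ℂ) * (x - 2 * I)‖ ≤ ‖2 * I + (s : ℂ) * (x - 2 * I)‖ + ‖(2 * I : ℂ)‖ := by
          have := norm_sub_le (2 * I + (s : ℂ) * (x - 2 * I)) (2 * I)
          simpa using this
        have h3 : ‖(2 * I : ℂ)‖ = 2 := by simp
        have h4 : ‖(s : ℂ) * (x - 2 * I)‖ = s * ‖x - 2 * I‖ := by
          rw [norm_mul, Complex.norm_real, Real.norm_of_nonneg (by linarith)]
        simp only at h1
        linarith
      have h5 := hCC (max 1 ((C + 3) / ‖x - 2 * I‖)) (le_max_left _ _)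
      have h6 : (C + 3) / ‖x - 2 * I‖ * ‖x - 2 * I‖ ≤
          max 1 ((C + 3) / ‖x - 2 * I‖) * ‖x - 2 * I‖ :=
        mul_le_mul_of_nonneg_right (le_max_right _ _) hpos.le
      rw [div_mul_cancel₀ _ hpos.ne'] at h6
      linarith

theorem not_convex_T0 : ¬ Convex ℝ T0 := by
  intro h
  have h0 : (⟨0, 0⟩ : ℂ) ∈ T0 := ⟨by norm_num, by norm_num, by norm_num, Or.inr ⟨by norm_num, by norm_num⟩⟩
  have h1 : (⟨3, 1⟩ : ℂ) ∈ T0 := ⟨by norm_num, by norm_num, by norm_num, Or.inl (by norm_num)⟩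
  have h2 : (⟨3 / 2, 1 / 2⟩ : ℂ) ∈ T0 := by
    apply h.segment_subset h0 h1
    rw [mem_seg_iff]
    exact ⟨1 / 2, by norm_num, by norm_num, by norm_num, by norm_num⟩
  obtain ⟨a, b, c, d | ⟨d, e⟩⟩ := h2 <;> norm_num at d

end Pool.Agent.MP_ef5fdc_co
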