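import Pool.Agent.Lib.MP_ef5fdc_co.Good

/-!
# Topology of the hexagon `T0`

`U0` is open and contained in `T0`; a point of `T0` not in `U0` satisfies one of `re = -1`, `re = 3`, `im = 4`,
`im = 1 ∧ 1 ≤ re`, `re = im ≤ 1`, `-re = im ≤ 1` and is a limit of points outside `T0` and a limit of points of `U0` (move away from / towards
the point `2 i`: `T0` is star-shaped with respect to `2 i`, indeed `w ∈ T0`, `0 ≤ s < 1` imply `2i + s (w - 2i) ∈ U0`).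
-/

set_option autoImplicit false

open Set Topology Filter Complex

namespace Pool.Agent.MP_ef5fdc_co

theorem star_re (w : ℂ) (s : ℝ) : (2 * I + s * (w - 2 * I) : ℂ).re = s * w.re := by
  simp

theorem star_im (w : ℂ) (s : ℝ) : (2 * I + s * (w - 2 * I) : ℂ).im = 2 + s * (w.im - 2) := by
  simp

/-- `T0` is star-shaped with respect to `2 i`, in a strong sense. -/
theorem star_T0 {w : ℂ} (hw : w ∈ T0) {s : ℝ} (h0 : 0 ≤ s) (h1 : s < 1) :
    2 * I + s * (w - 2 * I) ∈ U0 := by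
  obtain ⟨h2, h3, h4, h5⟩ := hw
  show _ ∧ _ ∧ _ ∧ _
  rw [star_re, star_im]
  refine ⟨by nlinarith, by nlinarith, by nlinarith, ?_⟩
  rcases h5 with h5 | ⟨h5, h6⟩
  · left; nlinarith
  · right; exact ⟨by nlinarith, by nlinarith⟩

theorem tendsto_star (w : ℂ) : Tendsto (fun s : ℝ => 2 * I + (s : ℂ) * (w - 2 * I)) (𝓝 1) (𝓝 w) := by
  have h : Continuous (fun s : ℝ => 2 * I + (s : ℂ) * (w - 2 * I)) :=
    continuous_const.add (Complex.continuous_ofReal.mul continuous_const)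
  have h2 := h.tendsto 1
  have e : 2 * I + ((1 : ℝ) : ℂ) * (w - 2 * I) = w := by
    rw [Complex.ofReal_one]; ring
  rwa [e] at h2

theorem closure_U0 : closure U0 = T0 := by
  refine Subset.antisymm (closure_minimal U0_subset_T0 isClosed_T0) ?_
  intro w hw
  have h1 : Tendsto (fun s : ℝ => 2 * I + (s : ℂ) * (w - 2 * I)) (𝓝[<] 1) (𝓝 w) :=
    (tendsto_star w).mono_left nhdsWithin_le_nhds
  refine mem_closure_of_tendsto h1 ?_
  have h2 : ∀ᶠ s : ℝ in 𝓝[<] 1, s ∈ Ioo (0 : ℝ) 1 := Ioo_mem_nhdsLT (by norm_num)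
  filter_upwards [h2] with s hs
  exact star_T0 hw hs.1.le hs.2

theorem interior_T0 : interior T0 = U0 := by
  refine Subset.antisymm ?_ (interior_maximal U0_subset_T0 isOpen_U0)
  intro w hw
  have h1 : Tendsto (fun s : ℝ => 2 * I + (s : ℂ) * (w - 2 * I)) (𝓝[>] 1) (𝓝 w) :=
    (tendsto_star w).mono_left nhdsWithin_le_nhds
  have h2 : ∀ᶠ s : ℝ in 𝓝[>] 1, 2 * I + (s : ℂ) * (w - 2 * I) ∈ T0 :=
    h1.eventually (mem_interior_iff_mem_nhds.1 hw)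
  have h3 : ∀ᶠ s : ℝ in 𝓝[>] 1, 1 < s := eventually_mem_nhdsWithin
  obtain ⟨s, hs, hs1⟩ := (h2.and h3).exists
  have hs0 : (0 : ℝ) < s := by linarith
  have h4 := star_T0 hs (s := s⁻¹) (inv_nonneg.2 hs0.le) (inv_lt_one_of_one_lt₀ hs1)
  have e : 2 * I + ((s⁻¹ : ℝ) : ℂ) * (2 * I + (s : ℂ) * (w - 2 * I) - 2 * I) = w := by
    have hs' : (s : ℂ) ≠ 0 := by exact_mod_cast hs0.ne'
    rw [Complex.ofReal_inv]
    field_simp
    ring
  rwa [e] at h4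

theorem bounds_T0 {w : ℂ} (hw : w ∈ T0) : -1 ≤ w.re ∧ w.re ≤ 3 ∧ 0 ≤ w.im ∧ w.im ≤ 4 := by
  obtain ⟨h2, h3, h4, h5⟩ := hw
  refine ⟨h2, h3, ?_, h4⟩
  rcases h5 with h5 | ⟨h5, h6⟩ <;> linarith

theorem dist_le_T0 {w w' : ℂ} (hw : w ∈ T0) (hw' : w' ∈ T0) : dist w w' ≤ 6 := by
  obtain ⟨h1, h2, h3, h4⟩ := bounds_T0 hw
  obtain ⟨h1', h2', h3', h4'⟩ := bounds_T0 hw'
  rw [Complex.dist_eq_re_im]
  refine Real.sqrt_le_iff.2 ⟨by norm_num, ?_⟩
  have e1 : (w.re - w'.re) ^ 2 ≤ 16 := by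
    have : |w.re - w'.re| ≤ 4 := abs_le.2 ⟨by linarith, by linarith⟩
    nlinarith [sq_abs (w.re - w'.re), abs_nonneg (w.re - w'.re)]
  have e2 : (w.im - w'.im) ^ 2 ≤ 16 := by
    have : |w.im - w'.im| ≤ 4 := abs_le.2 ⟨by linarith, by linarith⟩
    nlinarith [sq_abs (w.im - w'.im), abs_nonneg (w.im - w'.im)]
  linarith

theorem isCompact_T0 : IsCompact T0 := by
  refine Metric.isCompact_of_isClosed_isBounded isClosed_T0 ?_
  refine (Metric.isBounded_closedBall (x := (2 * I : ℂ)) (r := 6)).subset ?_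
  intro w hw
  rw [Metric.mem_closedBall]
  refine dist_le_T0 hw (U0_subset_T0 ?_)
  show _ ∧ _ ∧ _ ∧ _
  simp only [Complex.mul_re, Complex.mul_im, Complex.I_re, Complex.I_im, Complex.re_ofNat, Complex.im_ofNat]
  norm_num

/-- `V i + s (V (i+1) - V i)` with `0 ≤ s ≤ 1` is in `T0` but not in its interior. -/
theorem side_mem (i : Fin 6) {s : ℝ} (h0 : 0 ≤ s) (h1 : s ≤ 1) :
    V i + s * (V (i + 1) - V i) ∈ T0 ∧ V i + s * (V (i + 1) - V i) ∉ U0 := by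
  have key : ∀ (k l : Fin 6) (a b c d : ℝ), V k = ⟨a, b⟩ → V l = ⟨c, d⟩ →
      ((-1 ≤ a + s * (c - a) ∧ a + s * (c - a) ≤ 3 ∧ b + s * (d - b) ≤ 4 ∧
        (1 ≤ b + s * (d - b) ∨ (a + s * (c - a) ≤ b + s * (d - b) ∧ -(a + s * (c - a)) ≤ b + s * (d - b)))) ∧
      ¬ (-1 < a + s * (c - a) ∧ a + s * (c - a) < 3 ∧ b + s * (d - b) < 4 ∧
        (1 < b + s * (d - b) ∨ (a + s * (c - a) < b + s * (d - b) ∧ -(a + s * (c - a)) < b + s * (d - b))))) →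
      V k + s * (V l - V k) ∈ T0 ∧ V k + s * (V l - V k) ∉ U0 := by
    intro k l a b c d hk hl h
    have e1 : (V k + s * (V l - V k)).re = a + s * (c - a) := by rw [hk, hl]; simp
    have e2 : (V k + s * (V l - V k)).im = b + s * (d - b) := by rw [hk, hl]; simp
    constructor
    · show _ ∧ _ ∧ _ ∧ _
      rw [e1, e2]; exact h.1
    · show ¬ (_ ∧ _ ∧ _ ∧ _)
      rw [e1, e2]; exact h.2
  fin_cases i
  · refine key 0 1 0 0 1 1 rfl rfl ⟨⟨by linarith, by linarith, by linarith, Or.inr ⟨by linarith, by linarith⟩⟩, ?_⟩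
    rintro ⟨h2, h3, h4, h5 | ⟨h5, h6⟩⟩ <;> linarith
  · refine key 1 2 1 1 3 1 rfl rfl ⟨⟨by linarith, by linarith, by linarith, Or.inl (by linarith)⟩, ?_⟩
    rintro ⟨h2, h3, h4, h5 | ⟨h5, h6⟩⟩ <;> linarith
  · refine key 2 3 3 1 3 4 rfl rfl ⟨⟨by linarith, by linarith, by linarith, Or.inl (by linarith)⟩, ?_⟩
    rintro ⟨h2, h3, h4, h5 | ⟨h5, h6⟩⟩ <;> linarith
  · refine key 3 4 3 4 (-1) 4 rfl rfl ⟨⟨by linarith, by linarith, by linarith, Or.inl (by linarith)⟩, ?_⟩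
    rintro ⟨h2, h3, h4, h5 | ⟨h5, h6⟩⟩ <;> linarith
  · refine key 4 5 (-1) 4 (-1) 1 rfl rfl ⟨⟨by linarith, by linarith, by linarith, Or.inl (by linarith)⟩, ?_⟩
    rintro ⟨h2, h3, h4, h5 | ⟨h5, h6⟩⟩ <;> linarith
  · refine key 5 0 (-1) 1 0 0 rfl rfl ⟨⟨by linarith, by linarith, by linarith, Or.inr ⟨by linarith, by linarith⟩⟩, ?_⟩
    rintro ⟨h2, h3, h4, h5 | ⟨h5, h6⟩⟩ <;> linarith

theorem image_interior (g : ℂ ≃ᵢ ℂ) : interior ((g : ℂ → ℂ) '' T0) = (g : ℂ → ℂ) '' U0 := by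
  have h := g.toHomeomorph.image_interior T0
  rw [interior_T0] at h
  exact h.symm

theorem frontier_image (g : ℂ ≃ᵢ ℂ) :
    frontier ((g : ℂ → ℂ) '' T0) = (g : ℂ → ℂ) '' (T0 \ U0) := by
  have h := g.toHomeomorph.image_frontier T0
  rw [frontier, isClosed_T0.closure_eq, interior_T0] at h
  exact h.symm

end Pool.Agent.MP_ef5fdc_co
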