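import Pool.Agent.Lib.MP_ef5fdc_co.Interior

/-!
# JOB LOCFIN: local finiteness and the tile on the other side

`finite_near`: the tiles `g '' T0` (`g ∈ K`) meeting the ball of radius `R` are finitely many: distinct tiles have disjoint interiors
`g '' U0` (if `g w = h w'` with `w, w' ∈ U0` then `h⁻¹ * g ∈ K` maps `w` to `w'`, so `Good.disj`), each of these contains a ball of radius `1/2`
(`U0` contains the ball of radius `1/2` around `2 i`), is contained in the ball of radius `R + 7`; use a packing argument: the points `g (2 i)` have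
distance `≥ 1/2` from each other and are in a compact set.

`adjacent`: let `X = h '' T0`, `F` = the finite set of the tiles `≠ X` meeting the ball of radius `‖p‖ + 2`. For a point `y` with `|y - p| < 1` in
the frontier of `X` (which is `h '' (T0 \ U0)`) there are points outside `X` arbitrarily close to `y`, each of them in a tile of `F`; the union of the tiles in `F` is
closed (finite union), so `y` is in a tile of `F`. So eventually `p + t u` is in a tile of `F`, and by finiteness there is a tile of `F`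
which contains `p + t u` for a frequent set of `t` (otherwise eventually in none: `Set.Finite`/`Filter.eventually_all_finite`).
-/

set_option autoImplicit false

open Set Topology Filter Complex

namespace Pool.Agent.MP_ef5fdc_co

theorem two_I_mem_U0 : (2 * I : ℂ) ∈ U0 := by
  refine ⟨?_, ?_, ?_, Or.inl ?_⟩ <;> norm_num

/-- `U0` contains the ball of radius `1/2` around `2 i`. -/
theorem ball_subset_U0 {w : ℂ} (hw : dist w (2 * I) < 1 / 2) : w ∈ U0 := by
  rw [Complex.dist_eq] at hw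
  have h1 : |(w - 2 * I).re| ≤ ‖w - 2 * I‖ := Complex.abs_re_le_norm _
  have h2 : |(w - 2 * I).im| ≤ ‖w - 2 * I‖ := Complex.abs_im_le_norm _
  have h3 := abs_lt.1 (h1.trans_lt hw)
  have h4 := abs_lt.1 (h2.trans_lt hw)
  simp only [sub_re, sub_im, mul_re, mul_im, I_re, I_im, re_ofNat, im_ofNat] at h3 h4
  refine ⟨by linarith [h3.1], by linarith [h3.2], by linarith [h4.2], Or.inl (by linarith [h4.1])⟩

/-- Two elements of `K` which map `2 i` to close points give the same tile. -/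
theorem same_tile {K : Subgroup (ℂ ≃ᵢ ℂ)} (hK : Good K) {g h : ℂ ≃ᵢ ℂ} (hg : g ∈ K) (hh : h ∈ K)
    (hd : dist (g (2 * I)) (h (2 * I)) < 1 / 2) :
    (g : ℂ → ℂ) '' T0 = (h : ℂ → ℂ) '' T0 := by
  have hk : h⁻¹ * g ∈ K := K.mul_mem (K.inv_mem hh) hg
  have hev : ∀ w : ℂ, h ((h⁻¹ * g) w) = g w := by
    intro w
    have : (h⁻¹ * g) w = h.symm (g w) := rfl
    rw [this, IsometryEquiv.apply_symm_apply]
  have hmem : (h⁻¹ * g) (2 * I) ∈ U0 := by
    apply ball_subset_U0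
    rw [← h.isometry.dist_eq, hev]
    exact hd
  have key := hK.disj _ hk ⟨2 * I, two_I_mem_U0, hmem⟩
  have : (h : ℂ → ℂ) '' (((h⁻¹ * g : ℂ ≃ᵢ ℂ) : ℂ → ℂ) '' T0) = (g : ℂ → ℂ) '' T0 := by
    rw [image_image]
    exact image_congr fun w _ => hev w
  rw [← this, key]

theorem finite_near {K : Subgroup (ℂ ≃ᵢ ℂ)} (hK : Good K) (R : ℝ) :
    {S : Set ℂ | (∃ g ∈ K, S = (g : ℂ → ℂ) '' T0) ∧ ∃ z ∈ S, ‖z‖ ≤ R}.Finite := by
  classical
  have tb : TotallyBounded (Metric.closedBall (0 : ℂ) (R + 6)) :=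
    (isCompact_closedBall _ _).totallyBounded
  obtain ⟨t, ht, hcov⟩ := Metric.totallyBounded_iff.1 tb (1 / 4) (by norm_num)
  have key : ∀ S ∈ {S : Set ℂ | (∃ g ∈ K, S = (g : ℂ → ℂ) '' T0) ∧ ∃ z ∈ S, ‖z‖ ≤ R},
      ∃ y, y ∈ t ∧ ∃ g, g ∈ K ∧ S = (g : ℂ → ℂ) '' T0 ∧ dist (g (2 * I)) y < 1 / 4 := by
    rintro S ⟨⟨g, hg, rfl⟩, z, ⟨w, hw, rfl⟩, hz⟩
    have hd : dist (g (2 * I)) (g w) ≤ 6 := by
      rw [g.isometry.dist_eq]
      exact dist_le_T0 (U0_subset_T0 two_I_mem_U0) hw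
    have hb : g (2 * I) ∈ Metric.closedBall (0 : ℂ) (R + 6) := by
      rw [Metric.mem_closedBall]
      calc dist (g (2 * I)) 0 ≤ dist (g (2 * I)) (g w) + dist (g w) 0 := dist_triangle _ _ _
        _ ≤ 6 + R := by
          refine add_le_add hd ?_
          rw [dist_zero_right]
          exact hz
        _ = R + 6 := by ring
    have := hcov hb
    simp only [mem_iUnion, Metric.mem_ball, exists_prop] at this
    obtain ⟨y, hy, hgy⟩ := this
    exact ⟨y, hy, g, hg, rfl, hgy⟩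
  choose! f hft g hgK hS hd using key
  refine Set.Finite.of_finite_image (f := f) (ht.subset ?_) ?_
  · rintro _ ⟨S, hSA, rfl⟩
    exact hft S hSA
  · intro S hSA S' hSA' hff
    rw [hS S hSA, hS S' hSA']
    apply same_tile hK (hgK S hSA) (hgK S' hSA')
    have h1 := hd S hSA
    have h2 := hd S' hSA'
    rw [← hff, dist_comm] at h2
    calc dist (g S (2 * I)) (g S' (2 * I))
        ≤ dist (g S (2 * I)) (f S) + dist (f S) (g S' (2 * I)) := dist_triangle _ _ _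
      _ < 1 / 4 + 1 / 4 := add_lt_add h1 h2
      _ = 1 / 2 := by norm_num

theorem adjacent {K : Subgroup (ℂ ≃ᵢ ℂ)} (hK : Good K) {h : ℂ ≃ᵢ ℂ} (hh : h ∈ K) {p u : ℂ}
    (hF : ∀ᶠ t : ℝ in 𝓝[>] 0, p + t * u ∈ (h : ℂ → ℂ) '' (T0 \ U0)) :
    ∃ g ∈ K, (g : ℂ → ℂ) '' T0 ≠ (h : ℂ → ℂ) '' T0 ∧
      ∃ᶠ t : ℝ in 𝓝[>] 0, p + t * u ∈ (g : ℂ → ℂ) '' T0 := by
  set A : Set (Set ℂ) :=
    {S : Set ℂ | (∃ g ∈ K, S = (g : ℂ → ℂ) '' T0) ∧ ∃ z ∈ S, ‖z‖ ≤ ‖p‖ + 2} with hA
  set F : Set (Set ℂ) := {S | S ∈ A ∧ S ≠ (h : ℂ → ℂ) '' T0} with hFdef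
  have hFfin : F.Finite := (finite_near hK (‖p‖ + 2)).subset fun S hS => hS.1
  have hclosed : IsClosed (⋃ S ∈ F, S) := by
    refine hFfin.isClosed_biUnion ?_
    rintro S ⟨⟨⟨g, -, rfl⟩, -⟩, -⟩
    exact (isCompact_T0.image g.continuous).isClosed
  -- a point of the frontier near `p` is in another tile
  have hpt : ∀ y : ℂ, dist y p < 1 → y ∈ (h : ℂ → ℂ) '' (T0 \ U0) → ∃ S ∈ F, y ∈ S := by
    intro y hy hyX
    by_contra hcon
    have hyC : y ∈ (⋃ S ∈ F, S)ᶜ := by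
      simp only [mem_compl_iff, mem_iUnion, not_exists]
      intro S hS hyS
      exact hcon ⟨S, hS, hyS⟩
    have hN : (⋃ S ∈ F, S)ᶜ ∩ Metric.ball p 1 ∈ 𝓝 y :=
      (hclosed.isOpen_compl.inter Metric.isOpen_ball).mem_nhds ⟨hyC, hy⟩
    rw [← frontier_image, frontier_eq_closure_inter_closure] at hyX
    obtain ⟨x, ⟨hxC, hxp⟩, hxX⟩ := mem_closure_iff_nhds.1 hyX.2 _ hN
    obtain ⟨g, hg, w, hw, hgw⟩ := hK.cover x
    apply hxC
    simp only [mem_iUnion]
    have hxg : x ∈ (g : ℂ → ℂ) '' T0 := ⟨w, hw, hgw⟩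
    refine ⟨(g : ℂ → ℂ) '' T0, ⟨⟨⟨g, hg, rfl⟩, x, hxg, ?_⟩, ?_⟩, hxg⟩
    · have h1 : dist x p < 1 := hxp
      rw [Complex.dist_eq] at h1
      have h2 : ‖x‖ ≤ ‖x - p‖ + ‖p‖ := by
        have := norm_add_le (x - p) p
        rwa [sub_add_cancel] at this
      linarith
    · intro heq
      exact hxX (heq ▸ hxg)
  have hsmall : ∀ᶠ t : ℝ in 𝓝[>] 0, dist (p + t * u) p < 1 := by
    have hc : Continuous fun t : ℝ => p + (t : ℂ) * u := by fun_prop
    have h0 : Tendsto (fun t : ℝ => p + (t : ℂ) * u) (𝓝 0) (𝓝 p) := by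
      have := hc.tendsto 0
      simpa using this
    exact (h0.mono_left nhdsWithin_le_nhds).eventually (Metric.ball_mem_nhds p one_pos)
  have hev : ∀ᶠ t : ℝ in 𝓝[>] 0, ∃ S ∈ F, p + t * u ∈ S := by
    filter_upwards [hF, hsmall] with t h1 h2
    exact hpt _ h2 h1
  have hex : ∃ S ∈ F, ∃ᶠ t : ℝ in 𝓝[>] 0, p + t * u ∈ S := by
    by_contra hcon
    push Not at hcon
    have hall : ∀ᶠ t : ℝ in 𝓝[>] 0, ∀ S ∈ F, p + t * u ∉ S := by
      rw [Filter.eventually_all_finite hFfin]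
      intro S hS
      exact hcon S hS
    have hfalse : ∀ᶠ t : ℝ in 𝓝[>] (0 : ℝ), False := by
      filter_upwards [hev, hall] with t h1 h2
      obtain ⟨S, hS, hpS⟩ := h1
      exact h2 S hS hpS
    rw [Filter.eventually_false_iff_eq_bot] at hfalse
    exact (inferInstance : (𝓝[>] (0 : ℝ)).NeBot).ne hfalse
  obtain ⟨S, ⟨⟨⟨g, hg, rfl⟩, -⟩, hne⟩, hfr⟩ := hex
  exact ⟨g, hg, hne, hfr⟩

end Pool.Agent.MP_ef5fdc_co
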