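import Pool.Agent.Lib.MP_ef5fdc_co.Interior

/-!
# JOB REDUCE: an isohedral tiling gives a good group

`𝒯` is nonempty (it covers the plane); take a tile `S0 = e '' T0`. Let `K` be the subgroup of all `g` such that `e * g * e⁻¹` is a symmetry of `𝒯`
(`(e * g) z = e (g z)`, group structure `IsometryEquiv.instGroup`).
`cover`: `e z` is in some tile `S = σ '' S0`, `g = e⁻¹ * σ * e`. `disj`: the tiles `e '' T0` and `(e * g) '' T0` have the common interior point `e (g w)`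
(`image_interior`), so they are equal.
-/

set_option autoImplicit false

open Set Topology Filter Complex

namespace Pool.Agent.MP_ef5fdc_co

theorem IsSymmetry.one (𝒯 : Set (Set Plane)) : IsSymmetry 𝒯 (1 : Plane ≃ᵢ Plane) := by
  unfold IsSymmetry
  have : (fun S : Set Plane => (1 : Plane ≃ᵢ Plane) '' S) = id := by
    funext S
    have h : ((1 : Plane ≃ᵢ Plane) : Plane → Plane) = id := by
      funext z; rfl
    simp [h]
  rw [this, image_id]

theorem IsSymmetry.mul {𝒯 : Set (Set Plane)} {f g : Plane ≃ᵢ Plane} (hf : IsSymmetry 𝒯 f)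
    (hg : IsSymmetry 𝒯 g) : IsSymmetry 𝒯 (f * g) := by
  unfold IsSymmetry at *
  have : (fun S : Set Plane => (f * g) '' S) = (fun S : Set Plane => f '' S) ∘
      (fun S : Set Plane => g '' S) := by
    funext S
    have h : ((f * g : Plane ≃ᵢ Plane) : Plane → Plane) = f ∘ g := by
      funext z; rfl
    simp only [h, Function.comp, image_image]
  rw [this, image_comp, hg, hf]

theorem IsSymmetry.inv {𝒯 : Set (Set Plane)} {f : Plane ≃ᵢ Plane} (hf : IsSymmetry 𝒯 f) :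
    IsSymmetry 𝒯 f⁻¹ := by
  unfold IsSymmetry at *
  conv_lhs => rw [← hf]
  rw [image_image]
  have : (fun S : Set Plane => (f⁻¹ : Plane ≃ᵢ Plane) '' (f '' S)) = id := by
    funext S
    rw [image_image]
    have h : (fun z : Plane => (f⁻¹ : Plane ≃ᵢ Plane) (f z)) = id := by
      funext z
      exact f.symm_apply_apply z
    rw [h, image_id]; rfl
  rw [this, image_id]

/-- the symmetries of `𝒯`, transported by `e` -/
def symGroup (𝒯 : Set (Set Plane)) (e : Plane ≃ᵢ Plane) : Subgroup (ℂ ≃ᵢ ℂ) where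
  carrier := {g | IsSymmetry 𝒯 (e * g * e⁻¹)}
  one_mem' := by
    have : e * 1 * e⁻¹ = 1 := by group
    simp only [mem_ofPred_eq, this]
    exact IsSymmetry.one 𝒯
  mul_mem' := by
    intro a b ha hb
    have : e * (a * b) * e⁻¹ = (e * a * e⁻¹) * (e * b * e⁻¹) := by group
    simp only [mem_ofPred_eq, this]
    exact IsSymmetry.mul ha hb
  inv_mem' := by
    intro a ha
    have : e * a⁻¹ * e⁻¹ = (e * a * e⁻¹)⁻¹ := by group
    simp only [mem_ofPred_eq, this]
    exact IsSymmetry.inv ha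

theorem exists_good {𝒯 : Set (Set Plane)} (h1 : IsMonohedral T0 𝒯) (h2 : IsIsohedral 𝒯) :
    ∃ K : Subgroup (ℂ ≃ᵢ ℂ), Good K := by
  obtain ⟨hT, hc⟩ := h1
  have h0 : (0 : Plane) ∈ ⋃₀ 𝒯 := by rw [hT.cover]; exact mem_univ _
  obtain ⟨S0, hS0, -⟩ := h0
  obtain ⟨e, he⟩ := hc S0 hS0
  refine ⟨symGroup 𝒯 e, ?_, ?_⟩
  · rintro g hg ⟨w, hw, hgw⟩
    have hg' : IsSymmetry 𝒯 (e * g * e⁻¹) := hg
    have hS1 : (e * g * e⁻¹ : Plane ≃ᵢ Plane) '' S0 ∈ 𝒯 := by
      have : (e * g * e⁻¹ : Plane ≃ᵢ Plane) '' S0 ∈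
          (fun S : Set Plane => (e * g * e⁻¹ : Plane ≃ᵢ Plane) '' S) '' 𝒯 := mem_image_of_mem _ hS0
      rwa [hg'] at this
    have hS1' : (e * g * e⁻¹ : Plane ≃ᵢ Plane) '' S0 = (e * g : Plane ≃ᵢ Plane) '' T0 := by
      rw [← he, image_image]
      have : (fun z : Plane => (e * g * e⁻¹ : Plane ≃ᵢ Plane) (e z)) = (e * g : Plane ≃ᵢ Plane) := by
        funext z
        change (e * g : Plane ≃ᵢ Plane) (e.symm (e z)) = _
        rw [e.symm_apply_apply]
      rw [this]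
    have heq : S0 = (e * g : Plane ≃ᵢ Plane) '' T0 := by
      by_contra hne
      rw [hS1'] at hS1
      have hd := hT.disjoint S0 hS0 _ hS1 hne
      rw [← he, image_interior e, image_interior (e * g)] at hd
      have ha : e (g w) ∈ (e : ℂ → ℂ) '' U0 := mem_image_of_mem _ hgw
      have hb : e (g w) ∈ ((e * g : ℂ ≃ᵢ ℂ) : ℂ → ℂ) '' U0 := ⟨w, hw, rfl⟩
      exact disjoint_left.mp hd ha hb
    have h3 : (e : ℂ → ℂ) '' ((g : ℂ → ℂ) '' T0) = (e : ℂ → ℂ) '' T0 := by
      rw [he, heq, image_image]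
      rfl
    exact e.injective.image_injective h3
  · intro z
    have hz : e z ∈ ⋃₀ 𝒯 := by rw [hT.cover]; exact mem_univ _
    obtain ⟨S, hS, hzS⟩ := hz
    obtain ⟨σ, hσ, hσS⟩ := h2 S0 hS0 S hS
    refine ⟨e⁻¹ * σ * e, ?_, ?_⟩
    · change IsSymmetry 𝒯 (e * (e⁻¹ * σ * e) * e⁻¹)
      have : e * (e⁻¹ * σ * e) * e⁻¹ = σ := by group
      rw [this]; exact hσ
    · rw [← hσS, ← he] at hzS
      obtain ⟨y, ⟨w, hw, rfl⟩, hy⟩ := hzS
      refine ⟨w, hw, ?_⟩
      change e.symm (σ (e w)) = z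
      rw [hy, e.symm_apply_apply]

end Pool.Agent.MP_ef5fdc_co
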