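import Pool.Agent.Lib.MP_ef5fdc_co.Eight

/-!
# JOB SECOND: the tile at the vertex `V 2 = 3 + i`

`next8` with `h := ρ`, `z := 1`, `p := 3 + I`, `α := -1/2` (F1: `3 + t + I = ρ (-1 + (3 + t) I)`; F2: `3 + I + t (1 - δ I) = ρ (-1 + t δ + (3 + t) I)`;
F3: `3 - t/2 + (1 + t) I ∈ U0`; F4: `3 + t + I ∉ T0`). Six of the eight cases contradict `Good.leaf`:
* `g x = -I x + ..` : `k = g * ρ`, `k z = -z + 2 + 4 I`, `w = 1 + 2 I`, `w' = 3 + 4 I`.
* `g x = om x + ..` : `k = g * ρ⁻¹`, `k z = om * I * z + 3 + I`, `w = I / 2`, `w' = 3 + I`.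
* `g x = -conj x + ..` : `k = ρ⁻¹ * g * ρ`, `k z = conj z + 6 I`, `w = 3 I`, `w' = 3 + I`.
* `g x = -I conj x + ..` : `k = g⁻¹ * g⁻¹ * ρ`, `k z = -I z - 3 + 3 I`, `w = 3 I`, `w' = 3 + I` (`(g * g) z = z + 3 - 3 I`).
* `g x = conj x + ..` : `k = ρ * g⁻¹`, `g⁻¹ z = conj z - 4 + 5 I`, `k z = -I conj z + 5 + 4 I`, `w = 1 + 3 I`, `w' = -1 + 4 I`.
* `g x = om' conj x + ..` : `k = g * ρ`, `w = I / 2`, `w' = 3 + I`.
(An exhaustive check of these data was done numerically.) The two remaining cases are the conclusion.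
-/

set_option autoImplicit false

open Set Topology Filter Complex

namespace Pool.Agent.MP_ef5fdc_co

private theorem rho_inv {ρ : ℂ ≃ᵢ ℂ} (hρ' : ∀ z : ℂ, ρ z = -I * z) (z : ℂ) : ρ⁻¹ z = I * z := by
  apply ρ.injective
  have : ρ (ρ⁻¹ z) = z := ρ.apply_symm_apply z
  rw [this, hρ', ← mul_assoc, neg_mul, I_mul_I]
  simp

private theorem not_T0_of_re {z : ℂ} (h : 3 < z.re) : z ∉ T0 := fun hz => not_lt.2 hz.2.1 h

private theorem sqrt_two_pos : (0 : ℝ) < √2 := by positivity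

private theorem sqrt_two_lt : √2 < (3 : ℝ) / 2 := by
  rw [Real.sqrt_lt' (by norm_num)]
  norm_num

private theorem lt_sqrt_two : (7 : ℝ) / 5 < √2 := by
  rw [Real.lt_sqrt (by norm_num)]
  norm_num

theorem second {K : Subgroup (ℂ ≃ᵢ ℂ)} (hK : Good K) {ρ : ℂ ≃ᵢ ℂ} (hρ : ρ ∈ K)
    (hρ' : ∀ z : ℂ, ρ z = -I * z) :
    ∃ g ∈ K, (∀ z : ℂ, g z = -z + (6 + 5 * I)) ∨ (∀ z : ℂ, g z = I * z + (7 + 2 * I)) := by
  have F1 : ∀ᶠ t : ℝ in 𝓝[>] 0, (3 + I : ℂ) + t ∈ (ρ : ℂ → ℂ) '' (T0 \ U0) := by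
    filter_upwards [Ioo_mem_nhdsGT (zero_lt_one' ℝ)] with t ht
    obtain ⟨ht0, ht1⟩ := ht
    refine ⟨⟨-1, 3 + t⟩, ⟨⟨le_rfl, by norm_num, by dsimp only; linarith,
      Or.inl (by dsimp only; linarith)⟩, fun h => lt_irrefl _ h.1⟩, ?_⟩
    rw [hρ']
    apply Complex.ext <;> simp
  have F2 : ∀ᶠ δ : ℝ in 𝓝[>] 0, ∀ᶠ t : ℝ in 𝓝[>] 0,
      (3 + I : ℂ) + t * (1 - δ * I) ∈ (ρ : ℂ → ℂ) '' U0 := by
    filter_upwards [Ioo_mem_nhdsGT (zero_lt_one' ℝ)] with δ hδ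
    filter_upwards [Ioo_mem_nhdsGT (zero_lt_one' ℝ)] with t ht
    obtain ⟨ht0, ht1⟩ := ht
    obtain ⟨hδ0, hδ1⟩ := hδ
    have h1 : 0 < t * δ := mul_pos ht0 hδ0
    have h2 : t * δ < 1 := by nlinarith
    refine ⟨⟨-1 + t * δ, 3 + t⟩, ⟨by dsimp only; linarith, by dsimp only; linarith,
      by dsimp only; linarith, Or.inl (by dsimp only; linarith)⟩, ?_⟩
    rw [hρ']
    apply Complex.ext <;> simp
    ring
  have F3 : ∀ᶠ t : ℝ in 𝓝[>] 0, (3 + I : ℂ) + t * (((-1 / 2 : ℝ) : ℂ) + I) ∈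
      ((1 : ℂ ≃ᵢ ℂ) : ℂ → ℂ) '' U0 := by
    filter_upwards [Ioo_mem_nhdsGT (zero_lt_one' ℝ)] with t ht
    obtain ⟨ht0, ht1⟩ := ht
    refine ⟨⟨3 - t / 2, 1 + t⟩, ⟨by dsimp only; linarith, by dsimp only; linarith,
      by dsimp only; linarith, Or.inl (by dsimp only; linarith)⟩, ?_⟩
    apply Complex.ext <;> simp
    ring
  have F4 : ∀ᶠ t : ℝ in 𝓝[>] 0, (3 + I : ℂ) + t ∉ ((1 : ℂ ≃ᵢ ℂ) : ℂ → ℂ) '' T0 := by
    filter_upwards [self_mem_nhdsWithin] with t ht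
    rintro ⟨w, hw, hw'⟩
    have h0 : w = (3 + I : ℂ) + t := hw'
    have h1 := hw.2.1
    have ht' : (0 : ℝ) < t := ht
    rw [h0] at h1
    simp at h1
    linarith
  obtain ⟨g, hg, h⟩ := next8 hK hρ K.one_mem F1 F2 (by norm_num : (-1 : ℝ) < -1 / 2) F3 F4
  have hs0 := sqrt_two_pos
  have hs1 := sqrt_two_lt
  have hs2 := lt_sqrt_two
  rcases h with h | h | h | h | h | h | h | h
  · exfalso
    refine hK.leaf (K.mul_mem hg hρ) ⟨1, 2⟩ ⟨3, 4⟩ ?_ ?_ ?_ ?_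
    · refine ⟨by norm_num, by norm_num, by norm_num, Or.inl (by norm_num)⟩
    · have e : (g * ρ) ⟨1, 2⟩ = ⟨1, 2⟩ := by
        change g (ρ ⟨1, 2⟩) = _
        rw [hρ', h]
        apply Complex.ext <;> simp <;> norm_num
      rw [e]
      refine ⟨by norm_num, by norm_num, by norm_num, Or.inl (by norm_num)⟩
    · refine ⟨by norm_num, by norm_num, by norm_num, Or.inl (by norm_num)⟩
    · have e : (g * ρ) ⟨3, 4⟩ = ⟨-1, 0⟩ := by
        change g (ρ ⟨3, 4⟩) = _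
        rw [hρ', h]
        apply Complex.ext <;> simp <;> norm_num
      rw [e]
      rintro ⟨-, -, -, h4 | ⟨-, h4⟩⟩ <;> norm_num at h4
  · refine ⟨g, hg, Or.inl fun z => ?_⟩
    rw [h]
    apply Complex.ext <;> simp <;> norm_num
  · refine ⟨g, hg, Or.inr fun z => ?_⟩
    rw [h]
    apply Complex.ext <;> simp <;> norm_num
  · exfalso
    refine hK.leaf (K.mul_mem hg (K.inv_mem hρ)) ⟨0, 1 / 2⟩ ⟨3, 1⟩ ?_ ?_ ?_ ?_
    · refine ⟨by norm_num, by norm_num, by norm_num, Or.inr ⟨by norm_num, by norm_num⟩⟩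
    · have e : (g * ρ⁻¹) ⟨0, 1 / 2⟩ = ⟨3 - √2 / 4, 1 + √2 / 4⟩ := by
        change g (ρ⁻¹ ⟨0, 1 / 2⟩) = _
        rw [rho_inv hρ', h]
        apply Complex.ext <;> simp [om] <;> ring
      rw [e]
      refine ⟨by dsimp only; linarith, by dsimp only; linarith, by dsimp only; linarith,
        Or.inl (by dsimp only; linarith)⟩
    · refine ⟨by norm_num, by norm_num, by norm_num, Or.inl (by norm_num)⟩
    · have e : (g * ρ⁻¹) ⟨3, 1⟩ = ⟨3 + √2, 1 + 2 * √2⟩ := by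
        change g (ρ⁻¹ ⟨3, 1⟩) = _
        rw [rho_inv hρ', h]
        apply Complex.ext <;> simp [om] <;> ring
      rw [e]
      apply not_T0_of_re
      dsimp only
      linarith
  · exfalso
    refine hK.leaf (K.mul_mem (K.mul_mem (K.inv_mem hρ) hg) hρ) ⟨0, 3⟩ ⟨3, 1⟩ ?_ ?_ ?_ ?_
    · refine ⟨by norm_num, by norm_num, by norm_num, Or.inl (by norm_num)⟩
    · have e : (ρ⁻¹ * g * ρ) ⟨0, 3⟩ = ⟨0, 3⟩ := by
        change ρ⁻¹ (g (ρ ⟨0, 3⟩)) = _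
        rw [hρ', h, rho_inv hρ']
        apply Complex.ext <;> simp <;> norm_num
      rw [e]
      refine ⟨by norm_num, by norm_num, by norm_num, Or.inl (by norm_num)⟩
    · refine ⟨by norm_num, by norm_num, by norm_num, Or.inl (by norm_num)⟩
    · have e : (ρ⁻¹ * g * ρ) ⟨3, 1⟩ = ⟨3, 5⟩ := by
        change ρ⁻¹ (g (ρ ⟨3, 1⟩)) = _
        rw [hρ', h, rho_inv hρ']
        apply Complex.ext <;> simp <;> norm_num
      rw [e]
      rintro ⟨-, -, h4, -⟩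
      norm_num at h4
  · exfalso
    have hinv : ∀ z, g⁻¹ (g⁻¹ z) = z - 3 + 3 * I := by
      intro z
      have h1 : g (g (z - 3 + 3 * I)) = z := by
        rw [h, h]
        apply Complex.ext <;> simp <;> ring
      have h2 : g⁻¹ (g⁻¹ (g (g (z - 3 + 3 * I)))) = z - 3 + 3 * I := by
        have h3 : ∀ y, g⁻¹ (g y) = y := fun y => g.symm_apply_apply y
        rw [h3, h3]
      rw [h1] at h2
      exact h2
    refine hK.leaf (K.mul_mem (K.mul_mem (K.inv_mem hg) (K.inv_mem hg)) hρ) ⟨0, 3⟩ ⟨3, 1⟩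
      ?_ ?_ ?_ ?_
    · refine ⟨by norm_num, by norm_num, by norm_num, Or.inl (by norm_num)⟩
    · have e : (g⁻¹ * g⁻¹ * ρ) ⟨0, 3⟩ = ⟨0, 3⟩ := by
        change g⁻¹ (g⁻¹ (ρ ⟨0, 3⟩)) = _
        rw [hinv, hρ']
        apply Complex.ext <;> simp
      rw [e]
      refine ⟨by norm_num, by norm_num, by norm_num, Or.inl (by norm_num)⟩
    · refine ⟨by norm_num, by norm_num, by norm_num, Or.inl (by norm_num)⟩
    · have e : (g⁻¹ * g⁻¹ * ρ) ⟨3, 1⟩ = ⟨-2, 0⟩ := by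
        change g⁻¹ (g⁻¹ (ρ ⟨3, 1⟩)) = _
        rw [hinv, hρ']
        apply Complex.ext <;> simp
        norm_num
      rw [e]
      rintro ⟨h4, -⟩
      norm_num at h4
  · exfalso
    have hinv : ∀ z, g⁻¹ z = (starRingEnd ℂ) z - 4 + 5 * I := by
      intro z
      apply g.injective
      have h3 : g (g⁻¹ z) = z := g.apply_symm_apply z
      rw [h3, h]
      apply Complex.ext <;> simp <;> ring
    refine hK.leaf (K.mul_mem hρ (K.inv_mem hg)) ⟨1, 3⟩ ⟨-1, 4⟩ ?_ ?_ ?_ ?_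
    · refine ⟨by norm_num, by norm_num, by norm_num, Or.inl (by norm_num)⟩
    · have e : (ρ * g⁻¹) ⟨1, 3⟩ = ⟨2, 3⟩ := by
        change ρ (g⁻¹ ⟨1, 3⟩) = _
        rw [hinv, hρ']
        apply Complex.ext <;> simp <;> norm_num
      rw [e]
      refine ⟨by norm_num, by norm_num, by norm_num, Or.inl (by norm_num)⟩
    · refine ⟨by norm_num, by norm_num, by norm_num, Or.inl (by norm_num)⟩
    · have e : (ρ * g⁻¹) ⟨-1, 4⟩ = ⟨1, 5⟩ := by
        change ρ (g⁻¹ ⟨-1, 4⟩) = _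
        rw [hinv, hρ']
        apply Complex.ext <;> simp <;> norm_num
      rw [e]
      rintro ⟨-, -, h4, -⟩
      norm_num at h4
  · exfalso
    refine hK.leaf (K.mul_mem hg hρ) ⟨0, 1 / 2⟩ ⟨3, 1⟩ ?_ ?_ ?_ ?_
    · refine ⟨by norm_num, by norm_num, by norm_num, Or.inr ⟨by norm_num, by norm_num⟩⟩
    · have e : (g * ρ) ⟨0, 1 / 2⟩ = ⟨3 - √2 / 4, 1 + √2 / 4⟩ := by
        change g (ρ ⟨0, 1 / 2⟩) = _
        rw [hρ', h]
        apply Complex.ext <;> simp [om'] <;> ring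
      rw [e]
      refine ⟨by dsimp only; linarith, by dsimp only; linarith, by dsimp only; linarith,
        Or.inl (by dsimp only; linarith)⟩
    · refine ⟨by norm_num, by norm_num, by norm_num, Or.inl (by norm_num)⟩
    · have e : (g * ρ) ⟨3, 1⟩ = ⟨3 - 2 * √2, 1 - √2⟩ := by
        change g (ρ ⟨3, 1⟩) = _
        rw [hρ', h]
        apply Complex.ext <;> simp [om'] <;> ring
      rw [e]
      rintro ⟨-, -, -, h4 | ⟨h4, -⟩⟩
      · dsimp only at h4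
        linarith
      · dsimp only at h4
        linarith

end Pool.Agent.MP_ef5fdc_co
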