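import Pool.Agent.Lib.MP_ef5fdc_co.Eight

/-!
# JOB THIRDC: the case of the half turn `σ z = -z + 6 + 5 i`

Let `L = ρ⁻¹ * σ` (`L z = -I z - 5 + 6 I`, the tile on the left of the line `re = -1`) and `W = σ * ρ` (`W z = I z + 6 + 5 I`, the tile on the right of `re = 2`).
`next8` with `h := 1`, `z := L`, `p := V 4 = -1 + 4 I`, `α := -1/2`: F1: `-1 + t + 4 I ∈ T0 \ U0`; F2: `-1 + t + (4 - t δ) I ∈ U0`;
F3: `-1 - t/2 + (4 + t) I = L (x)` with `x = L⁻¹ ..`, `L⁻¹ y = I (y + 5 - 6 I)`; F4: `-1 + t + 4 I ∉ L '' T0`.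
All eight cases contradict `Good.leaf` (`τ` the element of `K` given by `next8`):
* `τ x = -I x + (-2 + 7 I)` : `k = σ⁻¹ * ρ * τ * ρ`, `k z = -I z - 1 + 3 I`, `w = 1 + 2 I`, `w' = 3 + 4 I`.
* `τ x = -x + (2 + 8 I)` : `k = W⁻¹ * τ`, `k z = I z + 3 + 4 I`, `w = -1/2 + 2 I`, `w' = 3 + 4 I`.
* `τ x = I x + (3 + 5 I)` : `k = τ * ρ⁻¹`, `k z = -z + 3 + 5 I`, `w = 3/2 + 5/2 I`, `w' = -1 + 4 I`.
* `τ x = om x + (-1 + 4 I)` : `k = τ * ρ`, `w = I / 2`, `w' = 3 + I`.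
* `τ x = -conj x + (2 + 3 I)` : `k = τ * ρ`, `k z = -I conj z + 2 + 3 I`, `w = 2 I`, `w' = -1 + 4 I`.
* `τ x = -I conj x + (3 + 7 I)` : `k = τ * σ`, `k z = I conj z - 2 + I`, `w = 1 + 2 I`, `w' = -1 + 4 I`.
* `τ x = conj x + 8 I` : `k = W⁻¹ * τ`, `k z = -I conj z + 3 + 6 I`, `w = 5/2 + 2 I`, `w' = -1 + 4 I`.
* `τ x = om' conj x + (-1 + 4 I)` : `k = τ * ρ⁻¹`, `w = I / 2`, `w' = 3 + I`.
(An exhaustive check of these data was done numerically.)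
-/

set_option autoImplicit false
set_option linter.unusedSimpArgs false
set_option linter.unreachableTactic false
set_option linter.unnecessarySeqFocus false
set_option linter.unusedTactic false

open Set Topology Filter Complex

namespace Pool.Agent.MP_ef5fdc_co

theorem thirdC {K : Subgroup (ℂ ≃ᵢ ℂ)} (hK : Good K) {ρ σ : ℂ ≃ᵢ ℂ} (hρ : ρ ∈ K)
    (hρ' : ∀ z : ℂ, ρ z = -I * z) (hσ : σ ∈ K) (hσ' : ∀ z : ℂ, σ z = -z + (6 + 5 * I)) :
    False := by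
  have hρi : ∀ z : ℂ, ρ⁻¹ z = I * z := by
    intro z
    have h1 : ρ (I * z) = z := by
      rw [hρ', ← mul_assoc, neg_mul, I_mul_I, neg_neg, one_mul]
    calc ρ⁻¹ z = ρ⁻¹ (ρ (I * z)) := by rw [h1]
      _ = I * z := ρ.symm_apply_apply _
  have hσi : ∀ z : ℂ, σ⁻¹ z = -z + (6 + 5 * I) := by
    intro z
    have h1 : σ (-z + (6 + 5 * I)) = z := by
      rw [hσ']; ring
    calc σ⁻¹ z = σ⁻¹ (σ (-z + (6 + 5 * I))) := by rw [h1]
      _ = -z + (6 + 5 * I) := σ.symm_apply_apply _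
  have hρiK : ρ⁻¹ ∈ K := K.inv_mem hρ
  have hσiK : σ⁻¹ ∈ K := K.inv_mem hσ
  -- the tile on the left
  have hL : ρ⁻¹ * σ ∈ K := K.mul_mem hρiK hσ
  have hsq1 : (1 : ℝ) < √2 := by
    rw [show (1 : ℝ) = √1 by simp]
    exact Real.sqrt_lt_sqrt (by norm_num) (by norm_num)
  have hsq2 : √2 < (3 / 2 : ℝ) := by
    rw [Real.sqrt_lt' (by norm_num)]; norm_num
  have hpos : ∀ᶠ t : ℝ in 𝓝[>] 0, 0 < t := self_mem_nhdsWithin
  have hlt : ∀ᶠ t : ℝ in 𝓝[>] 0, t < 1 := by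
    exact (eventually_lt_nhds (by norm_num : (0 : ℝ) < 1)).filter_mono nhdsWithin_le_nhds
  obtain ⟨τ, hτ, h8⟩ := next8 hK K.one_mem hL (p := -1 + 4 * I) (α := -1 / 2)
    (by
      filter_upwards [hpos, hlt] with t h0 h1
      refine ⟨-1 + 4 * I + t, ⟨?_, ?_⟩, rfl⟩
      · refine ⟨?_, ?_, ?_, Or.inl ?_⟩ <;> simp <;> linarith
      · rintro ⟨_, _, h, _⟩
        simp at h)
    (by
      filter_upwards [hpos, hlt] with δ d0 d1
      filter_upwards [hpos, hlt] with t h0 h1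
      refine ⟨-1 + 4 * I + t * (1 - δ * I), ?_, rfl⟩
      have h2 : 0 < t * δ := mul_pos h0 d0
      have h3 : t * δ < 1 := by nlinarith
      refine ⟨?_, ?_, ?_, Or.inl ?_⟩ <;> simp <;> linarith)
    (by norm_num)
    (by
      filter_upwards [hpos, hlt] with t h0 h1
      refine ⟨I * (-1 + 4 * I + t * (((-1 / 2 : ℝ) : ℂ) + I) + 5 - 6 * I), ?_, ?_⟩
      · refine ⟨?_, ?_, ?_, Or.inl ?_⟩ <;> simp <;> linarith
      · change ρ⁻¹ (σ _) = _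
        rw [hσ', hρi]
        have hI : I * I = -1 := I_mul_I
        linear_combination (-(-1 + 4 * I + t * (((-1 / 2 : ℝ) : ℂ) + I) + 5 - 6 * I) + 5) * hI)
    (by
      filter_upwards [hpos, hlt] with t h0 h1
      rintro ⟨x, hx, h⟩
      have h2 : x = I * (-1 + 4 * I + t + 5 - 6 * I) := by
        rw [← h]
        change x = I * (ρ⁻¹ (σ x) + 5 - 6 * I)
        rw [hσ', hρi]
        have hI : I * I = -1 := I_mul_I
        linear_combination (-(-x + 6 + 5 * I) + 6) * hI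
      obtain ⟨_, _, h3, _⟩ := hx
      rw [h2] at h3
      simp at h3
      linarith)
  rcases h8 with h8 | h8 | h8 | h8 | h8 | h8 | h8 | h8
  · refine hK.leaf (g := σ⁻¹ * ρ * τ * ρ) (K.mul_mem (K.mul_mem (K.mul_mem hσiK hρ) hτ) hρ)
      ⟨1, 2⟩ ⟨3, 4⟩ ?_ ?_ ?_ ?_
    · norm_num [U0]
    · simp only [mul_inv_rev, IsometryEquiv.mul_apply, hσi, hρi, hρ', hσ', h8]
      refine ⟨?_, ?_, ?_, Or.inl ?_⟩ <;> simp [om, om'] <;> linarith
    · norm_num [T0]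
    · simp only [mul_inv_rev, IsometryEquiv.mul_apply, hσi, hρi, hρ', hσ', h8]
      rintro ⟨h1, h2, h3, h4⟩
      simp [om, om'] at h1 h2 h3 h4 <;>
        first
        | (exfalso; linarith)
        | (norm_num at h1 h2 h3 h4)
  · refine hK.leaf (g := (σ * ρ)⁻¹ * τ) (K.mul_mem (K.inv_mem (K.mul_mem hσ hρ)) hτ)
      ⟨-1 / 2, 2⟩ ⟨3, 4⟩ ?_ ?_ ?_ ?_
    · norm_num [U0]
    · simp only [mul_inv_rev, IsometryEquiv.mul_apply, hσi, hρi, hρ', hσ', h8]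
      refine ⟨?_, ?_, ?_, Or.inl ?_⟩ <;> simp [om, om'] <;> linarith
    · norm_num [T0]
    · simp only [mul_inv_rev, IsometryEquiv.mul_apply, hσi, hρi, hρ', hσ', h8]
      rintro ⟨h1, h2, h3, h4⟩
      simp [om, om'] at h1 h2 h3 h4 <;>
        first
        | (exfalso; linarith)
        | (norm_num at h1 h2 h3 h4)
  · refine hK.leaf (g := τ * ρ⁻¹) (K.mul_mem hτ hρiK)
      ⟨3 / 2, 5 / 2⟩ ⟨-1, 4⟩ ?_ ?_ ?_ ?_
    · norm_num [U0]
    · simp only [mul_inv_rev, IsometryEquiv.mul_apply, hσi, hρi, hρ', hσ', h8]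
      refine ⟨?_, ?_, ?_, Or.inl ?_⟩ <;> simp [om, om'] <;> linarith
    · norm_num [T0]
    · simp only [mul_inv_rev, IsometryEquiv.mul_apply, hσi, hρi, hρ', hσ', h8]
      rintro ⟨h1, h2, h3, h4⟩
      simp [om, om'] at h1 h2 h3 h4 <;>
        first
        | (exfalso; linarith)
        | (norm_num at h1 h2 h3 h4)
  · refine hK.leaf (g := τ * ρ) (K.mul_mem hτ hρ)
      ⟨0, 1 / 2⟩ ⟨3, 1⟩ ?_ ?_ ?_ ?_
    · norm_num [U0]
    · simp only [mul_inv_rev, IsometryEquiv.mul_apply, hσi, hρi, hρ', hσ', h8]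
      refine ⟨?_, ?_, ?_, Or.inl ?_⟩ <;> simp [om, om'] <;> linarith
    · norm_num [T0]
    · simp only [mul_inv_rev, IsometryEquiv.mul_apply, hσi, hρi, hρ', hσ', h8]
      rintro ⟨h1, h2, h3, h4⟩
      simp [om, om'] at h1 h2 h3 h4 <;>
        first
        | (exfalso; linarith)
        | (norm_num at h1 h2 h3 h4)
  · refine hK.leaf (g := τ * ρ) (K.mul_mem hτ hρ)
      ⟨0, 2⟩ ⟨-1, 4⟩ ?_ ?_ ?_ ?_
    · norm_num [U0]
    · simp only [mul_inv_rev, IsometryEquiv.mul_apply, hσi, hρi, hρ', hσ', h8]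
      refine ⟨?_, ?_, ?_, Or.inl ?_⟩ <;> simp [om, om'] <;> linarith
    · norm_num [T0]
    · simp only [mul_inv_rev, IsometryEquiv.mul_apply, hσi, hρi, hρ', hσ', h8]
      rintro ⟨h1, h2, h3, h4⟩
      simp [om, om'] at h1 h2 h3 h4 <;>
        first
        | (exfalso; linarith)
        | (norm_num at h1 h2 h3 h4)
  · refine hK.leaf (g := τ * σ) (K.mul_mem hτ hσ)
      ⟨1, 2⟩ ⟨-1, 4⟩ ?_ ?_ ?_ ?_
    · norm_num [U0]
    · simp only [mul_inv_rev, IsometryEquiv.mul_apply, hσi, hρi, hρ', hσ', h8]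
      refine ⟨?_, ?_, ?_, Or.inl ?_⟩ <;> simp [om, om'] <;> linarith
    · norm_num [T0]
    · simp only [mul_inv_rev, IsometryEquiv.mul_apply, hσi, hρi, hρ', hσ', h8]
      rintro ⟨h1, h2, h3, h4⟩
      simp [om, om'] at h1 h2 h3 h4 <;>
        first
        | (exfalso; linarith)
        | (norm_num at h1 h2 h3 h4)
  · refine hK.leaf (g := (σ * ρ)⁻¹ * τ) (K.mul_mem (K.inv_mem (K.mul_mem hσ hρ)) hτ)
      ⟨5 / 2, 2⟩ ⟨-1, 4⟩ ?_ ?_ ?_ ?_
    · norm_num [U0]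
    · simp only [mul_inv_rev, IsometryEquiv.mul_apply, hσi, hρi, hρ', hσ', h8]
      refine ⟨?_, ?_, ?_, Or.inl ?_⟩ <;> simp [om, om'] <;> linarith
    · norm_num [T0]
    · simp only [mul_inv_rev, IsometryEquiv.mul_apply, hσi, hρi, hρ', hσ', h8]
      rintro ⟨h1, h2, h3, h4⟩
      simp [om, om'] at h1 h2 h3 h4 <;>
        first
        | (exfalso; linarith)
        | (norm_num at h1 h2 h3 h4)
  · refine hK.leaf (g := τ * ρ⁻¹) (K.mul_mem hτ hρiK)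
      ⟨0, 1 / 2⟩ ⟨3, 1⟩ ?_ ?_ ?_ ?_
    · norm_num [U0]
    · simp only [mul_inv_rev, IsometryEquiv.mul_apply, hσi, hρi, hρ', hσ', h8]
      refine ⟨?_, ?_, ?_, Or.inl ?_⟩ <;> simp [om, om'] <;> linarith
    · norm_num [T0]
    · simp only [mul_inv_rev, IsometryEquiv.mul_apply, hσi, hρi, hρ', hσ', h8]
      rintro ⟨h1, h2, h3, h4⟩
      simp [om, om'] at h1 h2 h3 h4 <;>
        first
        | (exfalso; linarith)
        | (norm_num at h1 h2 h3 h4)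

end Pool.Agent.MP_ef5fdc_co
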