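import Pool.Agent.Lib.MP_ef5fdc_co.Eight

/-!
# JOB THIRDD: the case of the quarter turn `σ z = i z + 7 + 2 i`

`σ⁻¹ z = -I z - 2 + 7 I`. `next8` with `h := 1`, `z := σ⁻¹`, `p := 2 + 4 I`, `α := -1/2`: F1: `2 + t + 4 I ∈ T0 \ U0`; F2: `2 + t + (4 - t δ) I ∈ U0`;
F3: `2 - t/2 + (4 + t) I = σ⁻¹ x` with `x = σ (..)`; F4: `2 + t + 4 I ∉ σ⁻¹ '' T0`.
All eight cases contradict `Good.leaf` with `k = σ⁻¹ * τ` (`τ` the element of `K` given by `next8`):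
* `τ x = -I x + (1 + 7 I)` : `k z = -z + 5 + 6 I`, `w = 5/2 + 3 I`, `w' = -1 + 4 I`.
* `τ x = -x + (5 + 8 I)` : `k z = I z + 6 + 2 I`, `w = 7/2 I`, `w' = 3 + 4 I`.
* `τ x = I x + (6 + 5 I)` : `k z = z + 3 + I`, `w = -1/2 + 2 I`, `w' = 3 + 4 I`.
* `τ x = om x + (2 + 4 I)` : `k z = -I om z + 2 + 5 I`, `w = 1 + 2 I`, `w' = 3 + 4 I`.
* `τ x = -conj x + (5 + 3 I)` : `k z = I conj z + 1 + 2 I`, `w = 1 + 3/2 I`, `w' = -1 + 4 I`.
* `τ x = -I conj x + (6 + 7 I)` : `k z = -conj z + 5 + I`, `w = 5/2 + 2 I`, `w' = 3 + 4 I`.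
* `τ x = conj x + (3 + 8 I)` : `k z = -I conj z + 6 + 4 I`, `w = 1 + 7/2 I`, `w' = -1 + 4 I`.
* `τ x = om' conj x + (2 + 4 I)` : `k z = -I om' conj z + 2 + 5 I`, `w = -1/2 + 3/2 I`, `w' = 3 + 4 I`.
(An exhaustive check of these data was done numerically.)
-/

set_option autoImplicit false

open Set Topology Filter Complex

namespace Pool.Agent.MP_ef5fdc_co

/-- membership in `U0` by coordinates -/
theorem mk_mem_U0_d {x y : ℝ} (h1 : -1 < x) (h2 : x < 3) (h3 : y < 4) (h4 : 1 < y) :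
    (⟨x, y⟩ : ℂ) ∈ U0 := ⟨h1, h2, h3, Or.inl h4⟩

/-- membership in `T0` by coordinates -/
theorem mk_mem_T0_d {x y : ℝ} (h1 : -1 ≤ x) (h2 : x ≤ 3) (h3 : y ≤ 4) (h4 : 1 ≤ y) :
    (⟨x, y⟩ : ℂ) ∈ T0 := ⟨h1, h2, h3, Or.inl h4⟩

theorem pos_event_d {P : ℝ → Prop} (h : ∀ t : ℝ, 0 < t → t < 1 → P t) :
    ∀ᶠ t : ℝ in 𝓝[>] 0, P t := by
  filter_upwards [Ioo_mem_nhdsGT (show (0 : ℝ) < 1 by norm_num)] with t ht
  exact h t ht.1 ht.2

theorem thirdD {K : Subgroup (ℂ ≃ᵢ ℂ)} (hK : Good K) {σ : ℂ ≃ᵢ ℂ}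
    (hσ : σ ∈ K) (hσ' : ∀ z : ℂ, σ z = I * z + (7 + 2 * I)) :
    False := by
  have hi : ∀ z : ℂ, (σ⁻¹ : ℂ ≃ᵢ ℂ) z = -I * z + (-2 + 7 * I) := by
    intro z
    apply σ.injective
    rw [IsometryEquiv.apply_inv_self, hσ']
    apply Complex.ext <;> simp
  have F1 : ∀ᶠ t : ℝ in 𝓝[>] 0,
      (2 + 4 * I : ℂ) + t ∈ ((1 : ℂ ≃ᵢ ℂ) : ℂ → ℂ) '' (T0 \ U0) := by
    refine pos_event_d fun t h1 h2 => ⟨2 + 4 * I + t, ⟨⟨?_, ?_, ?_, ?_⟩, ?_⟩, rfl⟩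
    · simp; linarith
    · simp; linarith
    · simp
    · left; simp
    · rintro ⟨_, _, h, _⟩
      simp at h
  have F2 : ∀ᶠ δ : ℝ in 𝓝[>] 0, ∀ᶠ t : ℝ in 𝓝[>] 0,
      (2 + 4 * I : ℂ) + t * (1 - δ * I) ∈ ((1 : ℂ ≃ᵢ ℂ) : ℂ → ℂ) '' U0 := by
    refine pos_event_d fun δ h1 h2 => pos_event_d fun t h3 h4 =>
      ⟨2 + 4 * I + t * (1 - δ * I), ⟨?_, ?_, ?_, ?_⟩, rfl⟩
    · simp; linarith
    · simp; linarith
    · simp; positivity
    · left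
      simp
      nlinarith
  have F3 : ∀ᶠ t : ℝ in 𝓝[>] 0,
      (2 + 4 * I : ℂ) + t * (((-1 / 2 : ℝ) : ℂ) + I) ∈ ((σ⁻¹ : ℂ ≃ᵢ ℂ) : ℂ → ℂ) '' U0 := by
    refine pos_event_d fun t h1 h2 => ⟨⟨3 - t, 4 - t / 2⟩, ?_, ?_⟩
    · exact mk_mem_U0_d (by linarith) (by linarith) (by linarith) (by linarith)
    · rw [hi]
      apply Complex.ext <;> simp <;> ring
  have F4 : ∀ᶠ t : ℝ in 𝓝[>] 0,
      (2 + 4 * I : ℂ) + t ∉ ((σ⁻¹ : ℂ ≃ᵢ ℂ) : ℂ → ℂ) '' T0 := by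
    refine pos_event_d fun t h1 h2 => ?_
    rintro ⟨x, hx, e⟩
    have h3 : x = σ (2 + 4 * I + t) := by rw [← e, IsometryEquiv.apply_inv_self]
    rw [hσ'] at h3
    obtain ⟨_, _, h4, _⟩ := hx
    rw [h3] at h4
    simp at h4
    linarith
  obtain ⟨τ, hτ, h8⟩ := next8 hK (one_mem K) (inv_mem hσ) F1 F2 (by norm_num) F3 F4
  -- the eight cases
  have hs := Real.sqrt_nonneg 2
  have hs2 : √2 * √2 = 2 := Real.mul_self_sqrt (by norm_num)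
  have hs3 : √2 < 1.42 := by nlinarith
  have hs4 : 1.41 < √2 := by nlinarith
  have leaf : ∀ (w w' : ℂ) (x y x' y' : ℝ), w ∈ U0 → w' ∈ T0 →
      -I * τ w + (-2 + 7 * I) = ⟨x, y⟩ → (⟨x, y⟩ : ℂ) ∈ U0 →
      -I * τ w' + (-2 + 7 * I) = ⟨x', y'⟩ → (⟨x', y'⟩ : ℂ) ∉ T0 → False := by
    intro w w' x y x' y' h1 h2 h3 h4 h5 h6
    refine hK.leaf (mul_mem (inv_mem hσ) hτ) w w' h1 ?_ h2 ?_
    · show (σ⁻¹ : ℂ ≃ᵢ ℂ) (τ w) ∈ U0
      rw [hi, h3]; exact h4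
    · show (σ⁻¹ : ℂ ≃ᵢ ℂ) (τ w') ∉ T0
      rw [hi, h5]; exact h6
  have nT : ∀ {x y : ℝ}, (x < -1 ∨ 3 < x ∨ 4 < y ∨ (y < 1 ∧ y < x) ∨ (y < 1 ∧ y < -x)) →
      (⟨x, y⟩ : ℂ) ∉ T0 := by
    rintro x y h ⟨h1, h2, h3, h4⟩
    simp only at h1 h2 h3 h4
    rcases h with h | h | h | ⟨h, h'⟩ | ⟨h, h'⟩
    · linarith
    · linarith
    · linarith
    · rcases h4 with h4 | ⟨h4, _⟩ <;> linarith
    · rcases h4 with h4 | ⟨_, h4⟩ <;> linarith
  rcases h8 with h | h | h | h | h | h | h | h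
  · refine leaf ⟨5 / 2, 3⟩ ⟨-1, 4⟩ (5 - 5 / 2) (6 - 3) (5 + 1) (6 - 4)
      (mk_mem_U0_d (by norm_num) (by norm_num) (by norm_num) (by norm_num))
      (mk_mem_T0_d (by norm_num) (by norm_num) (by norm_num) (by norm_num)) ?_
      (mk_mem_U0_d (by norm_num) (by norm_num) (by norm_num) (by norm_num)) ?_
      (nT (Or.inr (Or.inl (by norm_num))))
    · rw [h]; apply Complex.ext <;> simp <;> norm_num
    · rw [h]; apply Complex.ext <;> simp <;> norm_num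
  · refine leaf ⟨0, 7 / 2⟩ ⟨3, 4⟩ (6 - 7 / 2) 2 (6 - 4) (2 + 3)
      (mk_mem_U0_d (by norm_num) (by norm_num) (by norm_num) (by norm_num))
      (mk_mem_T0_d (by norm_num) (by norm_num) (by norm_num) (by norm_num)) ?_
      (mk_mem_U0_d (by norm_num) (by norm_num) (by norm_num) (by norm_num)) ?_
      (nT (Or.inr (Or.inr (Or.inl (by norm_num)))))
    · rw [h]; apply Complex.ext <;> simp <;> norm_num
    · rw [h]; apply Complex.ext <;> simp <;> norm_num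
  · refine leaf ⟨-1 / 2, 2⟩ ⟨3, 4⟩ (3 - 1 / 2) (1 + 2) (3 + 3) (1 + 4)
      (mk_mem_U0_d (by norm_num) (by norm_num) (by norm_num) (by norm_num))
      (mk_mem_T0_d (by norm_num) (by norm_num) (by norm_num) (by norm_num)) ?_
      (mk_mem_U0_d (by norm_num) (by norm_num) (by norm_num) (by norm_num)) ?_
      (nT (Or.inr (Or.inl (by norm_num))))
    · rw [h]; apply Complex.ext <;> simp <;> norm_num
    · rw [h]; apply Complex.ext <;> simp <;> norm_num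
  · refine leaf ⟨1, 2⟩ ⟨3, 4⟩ (2 + √2 / 2) (5 - 3 * √2 / 2) (2 + √2 / 2) (5 - 7 * √2 / 2)
      (mk_mem_U0_d (by norm_num) (by norm_num) (by norm_num) (by norm_num))
      (mk_mem_T0_d (by norm_num) (by norm_num) (by norm_num) (by norm_num)) ?_
      (mk_mem_U0_d (by linarith) (by linarith) (by linarith) (by linarith)) ?_
      (nT (Or.inr (Or.inr (Or.inr (Or.inl ⟨by linarith, by linarith⟩)))))
    · rw [h]; apply Complex.ext <;> simp [om] <;> ring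
    · rw [h]; apply Complex.ext <;> simp [om] <;> ring
  · refine leaf ⟨1, 3 / 2⟩ ⟨-1, 4⟩ (1 + 3 / 2) (2 + 1) (1 + 4) (2 - 1)
      (mk_mem_U0_d (by norm_num) (by norm_num) (by norm_num) (by norm_num))
      (mk_mem_T0_d (by norm_num) (by norm_num) (by norm_num) (by norm_num)) ?_
      (mk_mem_U0_d (by norm_num) (by norm_num) (by norm_num) (by norm_num)) ?_
      (nT (Or.inr (Or.inl (by norm_num))))
    · rw [h]; apply Complex.ext <;> simp <;> norm_num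
    · rw [h]; apply Complex.ext <;> simp <;> norm_num
  · refine leaf ⟨5 / 2, 2⟩ ⟨3, 4⟩ (5 - 5 / 2) (1 + 2) (5 - 3) (1 + 4)
      (mk_mem_U0_d (by norm_num) (by norm_num) (by norm_num) (by norm_num))
      (mk_mem_T0_d (by norm_num) (by norm_num) (by norm_num) (by norm_num)) ?_
      (mk_mem_U0_d (by norm_num) (by norm_num) (by norm_num) (by norm_num)) ?_
      (nT (Or.inr (Or.inr (Or.inl (by norm_num)))))
    · rw [h]; apply Complex.ext <;> simp <;> norm_num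
    · rw [h]; apply Complex.ext <;> simp <;> norm_num
  · refine leaf ⟨1, 7 / 2⟩ ⟨-1, 4⟩ (6 - 7 / 2) (4 - 1) (6 - 4) (4 + 1)
      (mk_mem_U0_d (by norm_num) (by norm_num) (by norm_num) (by norm_num))
      (mk_mem_T0_d (by norm_num) (by norm_num) (by norm_num) (by norm_num)) ?_
      (mk_mem_U0_d (by norm_num) (by norm_num) (by norm_num) (by norm_num)) ?_
      (nT (Or.inr (Or.inr (Or.inl (by norm_num)))))
    · rw [h]; apply Complex.ext <;> simp <;> norm_num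
    · rw [h]; apply Complex.ext <;> simp <;> norm_num
  · refine leaf ⟨-1 / 2, 3 / 2⟩ ⟨3, 4⟩ (2 + √2 / 2) (5 - √2) (2 + 7 * √2 / 2) (5 - √2 / 2)
      (mk_mem_U0_d (by norm_num) (by norm_num) (by norm_num) (by norm_num))
      (mk_mem_T0_d (by norm_num) (by norm_num) (by norm_num) (by norm_num)) ?_
      (mk_mem_U0_d (by linarith) (by linarith) (by linarith) (by linarith)) ?_
      (nT (Or.inr (Or.inl (by linarith))))
    · rw [h]; apply Complex.ext <;> simp [om'] <;> ring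
    · rw [h]; apply Complex.ext <;> simp [om'] <;> ring

end Pool.Agent.MP_ef5fdc_co
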