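import Pool.Agent.Lib.MP_ef5fdc_co.Disk

/-!
# JOB TILES: a monohedral tiling by `T0`

The four sets `(-I)^k * T0`, `k < 4`, form the pinwheel `Q` = the square `[-4, 4]^2` minus the four corner rectangles
`(3, 4] × (1, 4]`, `[-4, -1) × (3, 4]`, `[-4, -3) × [-4, -1)`, `(1, 4] × [-4, -3)`, and `Q` tiles the plane by the translations by
`(m, n) ∈ ℤ × ℤ` with `52 ∣ m - 22 n` (generated by `(6, 5)` and `(-8, 2)`): the `52` unit squares `[i, i+1] × [j, j+1] ⊆ Q` have different residues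
`i - 22 j` modulo `52` (checked by computer: `decide`).
-/

set_option autoImplicit false

open Set Topology Filter Complex

namespace Pool.Agent.MP_ef5fdc_co

/-- the unit squares `[a, a + 1] × [b, b + 1]` contained in the pinwheel -/
def SqQ (a b : ℤ) : Prop :=
  (-1 ≤ a ∧ a ≤ 2 ∧ 1 ≤ b ∧ b ≤ 3) ∨ (1 ≤ a ∧ a ≤ 3 ∧ -3 ≤ b ∧ b ≤ 0) ∨
    (-3 ≤ a ∧ a ≤ 0 ∧ -4 ≤ b ∧ b ≤ -2) ∨ (-4 ≤ a ∧ a ≤ -2 ∧ -1 ≤ b ∧ b ≤ 2) ∨
    (-1 ≤ a ∧ a ≤ 0 ∧ -1 ≤ b ∧ b ≤ 0)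

instance (a b : ℤ) : Decidable (SqQ a b) := by unfold SqQ; infer_instance

theorem sq_fin : ∀ r : Fin 52, ∃ a b : Fin 8, SqQ ((a : ℕ) - 4 : ℤ) ((b : ℕ) - 4 : ℤ) ∧
    (((a : ℕ) - 4 : ℤ) - 22 * ((b : ℕ) - 4 : ℤ)) % 52 = ((r : ℕ) : ℤ) := by
  decide +kernel

theorem exists_sq (x : ℤ) : ∃ a b : ℤ, SqQ a b ∧ 52 ∣ x - (a - 22 * b) := by
  have h1 : 0 ≤ x % 52 := Int.emod_nonneg _ (by norm_num)
  have h2 : x % 52 < 52 := Int.emod_lt_of_pos _ (by norm_num)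
  obtain ⟨a, b, h3, h4⟩ := sq_fin ⟨(x % 52).toNat, by omega⟩
  refine ⟨_, _, h3, ?_⟩
  rw [show (((⟨(x % 52).toNat, by omega⟩ : Fin 52) : ℕ) : ℤ) = x % 52 from
    Int.toNat_of_nonneg h1] at h4
  omega

theorem pow_cases (w : ℂ) :
    (-I) ^ 0 * w = w ∧ (-I) ^ 1 * w = ⟨w.im, -w.re⟩ ∧ (-I) ^ 2 * w = ⟨-w.re, -w.im⟩ ∧
      (-I) ^ 3 * w = ⟨-w.im, w.re⟩ := by
  have h2 : (-I) ^ 2 = -1 := by rw [neg_sq, I_sq]
  have h3 : (-I) ^ 3 = I := by rw [pow_succ, h2]; ring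
  refine ⟨by simp, ?_, ?_, ?_⟩
  · apply Complex.ext <;> simp
  · rw [h2]; apply Complex.ext <;> simp
  · rw [h3]; apply Complex.ext <;> simp

theorem cover_Q {u v : ℝ} {a b : ℤ} (h : SqQ a b) (h1 : (a : ℝ) ≤ u) (h2 : u < a + 1)
    (h3 : (b : ℝ) ≤ v) (h4 : v < b + 1) : ∃ k < 4, ∃ w ∈ T0, (⟨u, v⟩ : ℂ) = (-I) ^ k * w := by
  have k0 : (⟨u, v⟩ : ℂ) ∈ T0 → ∃ k < 4, ∃ w ∈ T0, (⟨u, v⟩ : ℂ) = (-I) ^ k * w :=
    fun h => ⟨0, by norm_num, ⟨u, v⟩, h, ((pow_cases _).1).symm⟩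
  have k1 : (⟨-v, u⟩ : ℂ) ∈ T0 → ∃ k < 4, ∃ w ∈ T0, (⟨u, v⟩ : ℂ) = (-I) ^ k * w :=
    fun h => ⟨1, by norm_num, _, h, by rw [(pow_cases _).2.1]; apply Complex.ext <;> simp⟩
  have k2 : (⟨-u, -v⟩ : ℂ) ∈ T0 → ∃ k < 4, ∃ w ∈ T0, (⟨u, v⟩ : ℂ) = (-I) ^ k * w :=
    fun h => ⟨2, by norm_num, _, h, by rw [(pow_cases _).2.2.1]; apply Complex.ext <;> simp⟩
  have k3 : (⟨v, -u⟩ : ℂ) ∈ T0 → ∃ k < 4, ∃ w ∈ T0, (⟨u, v⟩ : ℂ) = (-I) ^ k * w :=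
    fun h => ⟨3, by norm_num, _, h, by rw [(pow_cases _).2.2.2]; apply Complex.ext <;> simp⟩
  rcases h with ⟨e1, e2, e3, e4⟩ | ⟨e1, e2, e3, e4⟩ | ⟨e1, e2, e3, e4⟩ | ⟨e1, e2, e3, e4⟩ |
    ⟨e1, e2, e3, e4⟩
  all_goals
    have f1 : ((_ : ℤ) : ℝ) ≤ ((_ : ℤ) : ℝ) := Int.cast_le.2 e1
    have f2 : ((_ : ℤ) : ℝ) ≤ ((_ : ℤ) : ℝ) := Int.cast_le.2 e2
    have f3 : ((_ : ℤ) : ℝ) ≤ ((_ : ℤ) : ℝ) := Int.cast_le.2 e3
    have f4 : ((_ : ℤ) : ℝ) ≤ ((_ : ℤ) : ℝ) := Int.cast_le.2 e4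
    push_cast at f1 f2 f3 f4
  · exact k0 ⟨by simp only; linarith, by simp only; linarith, by simp only; linarith,
      Or.inl (by simp only; linarith)⟩
  · exact k1 ⟨by simp only; linarith, by simp only; linarith, by simp only; linarith,
      Or.inl (by simp only; linarith)⟩
  · exact k2 ⟨by simp only; linarith, by simp only; linarith, by simp only; linarith,
      Or.inl (by simp only; linarith)⟩
  · exact k3 ⟨by simp only; linarith, by simp only; linarith, by simp only; linarith,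
      Or.inl (by simp only; linarith)⟩
  · rcases le_total u v with g1 | g1 <;> rcases le_total (-u) v with g2 | g2
    · exact k0 ⟨by simp only; linarith, by simp only; linarith, by simp only; linarith,
        Or.inr ⟨by simp only; linarith, by simp only; linarith⟩⟩
    · exact k3 ⟨by simp only; linarith, by simp only; linarith, by simp only; linarith,
        Or.inr ⟨by simp only; linarith, by simp only; linarith⟩⟩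
    · exact k1 ⟨by simp only; linarith, by simp only; linarith, by simp only; linarith,
        Or.inr ⟨by simp only; linarith, by simp only; linarith⟩⟩
    · exact k2 ⟨by simp only; linarith, by simp only; linarith, by simp only; linarith,
        Or.inr ⟨by simp only; linarith, by simp only; linarith⟩⟩

theorem cover_plane (z : ℂ) : ∃ (k : ℕ) (m n : ℤ), k < 4 ∧ 52 ∣ m - 22 * n ∧
    ∃ w ∈ T0, z = (-I) ^ k * w + (m + n * I) := by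
  obtain ⟨a, b, hab, hd⟩ := exists_sq (⌊z.re⌋ - 22 * ⌊z.im⌋)
  have h1 := Int.floor_le z.re
  have h2 := Int.lt_floor_add_one z.re
  have h3 := Int.floor_le z.im
  have h4 := Int.lt_floor_add_one z.im
  obtain ⟨k, hk, w, hw, e⟩ := cover_Q (u := z.re - (⌊z.re⌋ - a)) (v := z.im - (⌊z.im⌋ - b)) hab
    (by linarith) (by linarith) (by linarith) (by linarith)
  refine ⟨k, ⌊z.re⌋ - a, ⌊z.im⌋ - b, hk, ?_, w, hw, ?_⟩
  · have : ⌊z.re⌋ - a - 22 * (⌊z.im⌋ - b) = ⌊z.re⌋ - 22 * ⌊z.im⌋ - (a - 22 * b) := by ring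
    rw [this]; exact hd
  · rw [← e]
    apply Complex.ext <;> simp

theorem rot_U0 {k : ℕ} (hk : k < 4) {w : ℂ} (hw : w ∈ U0) {p : ℂ} (hp : p = (-I) ^ k * w) :
    (k = 0 ∧ -1 < p.re ∧ p.re < 3 ∧ p.im < 4 ∧ (1 < p.im ∨ (p.re < p.im ∧ -p.re < p.im))) ∨
    (k = 1 ∧ -1 < -p.im ∧ -p.im < 3 ∧ p.re < 4 ∧ (1 < p.re ∨ (-p.im < p.re ∧ p.im < p.re))) ∨
    (k = 2 ∧ -1 < -p.re ∧ -p.re < 3 ∧ -p.im < 4 ∧
      (1 < -p.im ∨ (-p.re < -p.im ∧ p.re < -p.im))) ∨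
    (k = 3 ∧ -1 < p.im ∧ p.im < 3 ∧ -p.re < 4 ∧ (1 < -p.re ∨ (p.im < -p.re ∧ -p.im < -p.re))) := by
  obtain ⟨h1, h2, h3, h4⟩ := hw
  obtain ⟨e0, e1, e2, e3⟩ := pow_cases w
  have : k = 0 ∨ k = 1 ∨ k = 2 ∨ k = 3 := by omega
  rcases this with rfl | rfl | rfl | rfl
  · rw [e0] at hp; subst hp
    exact Or.inl ⟨rfl, h1, h2, h3, h4⟩
  · rw [e1] at hp; subst hp
    refine Or.inr (Or.inl ⟨rfl, ?_⟩)
    simp only [neg_neg]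
    exact ⟨h1, h2, h3, h4⟩
  · rw [e2] at hp; subst hp
    refine Or.inr (Or.inr (Or.inl ⟨rfl, ?_⟩))
    simp only [neg_neg]
    exact ⟨h1, h2, h3, h4⟩
  · rw [e3] at hp; subst hp
    refine Or.inr (Or.inr (Or.inr ⟨rfl, ?_⟩))
    simp only [neg_neg]
    exact ⟨h1, h2, h3, h4⟩

theorem lattice_small {M N : ℤ} (h : 52 ∣ M - 22 * N) (h1 : -8 < M) (h2 : M < 8) (h3 : -8 < N)
    (h4 : N < 8) : (M = 0 ∧ N = 0) ∨ (M = 6 ∧ N = 5) ∨ (M = -6 ∧ N = -5) ∨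
      (M = -2 ∧ N = 7) ∨ (M = 2 ∧ N = -7) := by
  obtain ⟨t, ht⟩ := h
  interval_cases N <;> omega

theorem disjoint_tiles {k k' : ℕ} {m n m' n' : ℤ} (hk : k < 4) (hk' : k' < 4)
    (h : 52 ∣ m - 22 * n) (h' : 52 ∣ m' - 22 * n') {w w' : ℂ} (hw : w ∈ U0) (hw' : w' ∈ U0)
    (e : (-I) ^ k * w + (m + n * I) = (-I) ^ k' * w' + (m' + n' * I)) :
    k = k' ∧ m = m' ∧ n = n' := by
  obtain ⟨p, hp⟩ : ∃ p, p = (-I) ^ k * w := ⟨_, rfl⟩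
  obtain ⟨p', hp'⟩ : ∃ p', p' = (-I) ^ k' * w' := ⟨_, rfl⟩
  have c := rot_U0 hk hw hp
  have c' := rot_U0 hk' hw' hp'
  rw [← hp, ← hp'] at e
  have er : p.re + m = p'.re + m' := by
    have := congrArg Complex.re e
    simpa using this
  have ei : p.im + n = p'.im + n' := by
    have := congrArg Complex.im e
    simpa using this
  clear hp hp' hw hw' e hk hk'
  have bnd : ∀ {j : ℕ} {x y : ℝ}, ((j = 0 ∧ -1 < x ∧ x < 3 ∧ y < 4 ∧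
      (1 < y ∨ (x < y ∧ -x < y))) ∨
      (j = 1 ∧ -1 < -y ∧ -y < 3 ∧ x < 4 ∧ (1 < x ∨ (-y < x ∧ y < x))) ∨
      (j = 2 ∧ -1 < -x ∧ -x < 3 ∧ -y < 4 ∧ (1 < -y ∨ (-x < -y ∧ x < -y))) ∨
      (j = 3 ∧ -1 < y ∧ y < 3 ∧ -x < 4 ∧ (1 < -x ∨ (y < -x ∧ -y < -x)))) →
      -4 < x ∧ x < 4 ∧ -4 < y ∧ y < 4 := by
    rintro j x y (⟨_, a1, a2, a3, a4 | ⟨a4, a5⟩⟩ | ⟨_, a1, a2, a3, a4 | ⟨a4, a5⟩⟩ |
      ⟨_, a1, a2, a3, a4 | ⟨a4, a5⟩⟩ | ⟨_, a1, a2, a3, a4 | ⟨a4, a5⟩⟩) <;>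
      refine ⟨?_, ?_, ?_, ?_⟩ <;> linarith
  obtain ⟨b1, b2, b3, b4⟩ := bnd c
  obtain ⟨b1', b2', b3', b4'⟩ := bnd c'
  have l := lattice_small (M := m - m') (N := n - n') (by
      have : m - m' - 22 * (n - n') = (m - 22 * n) - (m' - 22 * n') := by ring
      rw [this]; exact dvd_sub h h')
    (by have : (-8 : ℝ) < ((m - m' : ℤ) : ℝ) := by push_cast; linarith
        exact_mod_cast this)
    (by have : ((m - m' : ℤ) : ℝ) < 8 := by push_cast; linarith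
        exact_mod_cast this)
    (by have : (-8 : ℝ) < ((n - n' : ℤ) : ℝ) := by push_cast; linarith
        exact_mod_cast this)
    (by have : ((n - n' : ℤ) : ℝ) < 8 := by push_cast; linarith
        exact_mod_cast this)
  clear h h' b1 b2 b3 b4 b1' b2' b3' b4' bnd
  have key : ∀ {M N : ℤ}, m - m' = M → n - n' = N → p.re + M = p'.re ∧ p.im + N = p'.im := by
    intro M N hM hN
    have h1 : (m : ℝ) - m' = M := by rw [← hM]; push_cast; ring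
    have h2 : (n : ℝ) - n' = N := by rw [← hN]; push_cast; ring
    constructor <;> linarith
  rcases l with ⟨l1, l2⟩ | ⟨l1, l2⟩ | ⟨l1, l2⟩ | ⟨l1, l2⟩ | ⟨l1, l2⟩
  · refine ⟨?_, by omega, by omega⟩
    obtain ⟨g1, g2⟩ := key l1 l2
    push_cast at g1 g2
    rcases c with ⟨rfl, a1, a2, a3, a4 | ⟨a4, a5⟩⟩ | ⟨rfl, a1, a2, a3, a4 | ⟨a4, a5⟩⟩ |
      ⟨rfl, a1, a2, a3, a4 | ⟨a4, a5⟩⟩ | ⟨rfl, a1, a2, a3, a4 | ⟨a4, a5⟩⟩ <;>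
    rcases c' with ⟨rfl, d1, d2, d3, d4 | ⟨d4, d5⟩⟩ | ⟨rfl, d1, d2, d3, d4 | ⟨d4, d5⟩⟩ |
      ⟨rfl, d1, d2, d3, d4 | ⟨d4, d5⟩⟩ | ⟨rfl, d1, d2, d3, d4 | ⟨d4, d5⟩⟩ <;>
    first
      | rfl
      | (exfalso; linarith)
  all_goals
    exfalso
    obtain ⟨g1, g2⟩ := key l1 l2
    push_cast at g1 g2
    rcases c with ⟨_, a1, a2, a3, a4 | ⟨a4, a5⟩⟩ | ⟨_, a1, a2, a3, a4 | ⟨a4, a5⟩⟩ |
      ⟨_, a1, a2, a3, a4 | ⟨a4, a5⟩⟩ | ⟨_, a1, a2, a3, a4 | ⟨a4, a5⟩⟩ <;>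
    rcases c' with ⟨_, d1, d2, d3, d4 | ⟨d4, d5⟩⟩ | ⟨_, d1, d2, d3, d4 | ⟨d4, d5⟩⟩ |
      ⟨_, d1, d2, d3, d4 | ⟨d4, d5⟩⟩ | ⟨_, d1, d2, d3, d4 | ⟨d4, d5⟩⟩ <;>
    linarith

/-- the motion `z ↦ (-I)^k z + (m + n I)` -/
noncomputable def mot (k : ℕ) (m n : ℤ) : ℂ ≃ᵢ ℂ :=
  IsometryEquiv.mk' (fun z => (-I) ^ k * z + (m + n * I)) (fun z => I ^ k * (z - (m + n * I)))
    (by
      intro x
      have : (-I) ^ k * I ^ k = 1 := by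
        rw [← mul_pow]
        have : -I * I = 1 := by rw [neg_mul, I_mul_I, neg_neg]
        rw [this, one_pow]
      calc (-I) ^ k * (I ^ k * (x - (m + n * I))) + (m + n * I)
          = ((-I) ^ k * I ^ k) * (x - (m + n * I)) + (m + n * I) := by ring
        _ = x := by rw [this]; ring)
    (by
      refine Isometry.of_dist_eq fun x y => ?_
      rw [dist_eq_norm, dist_eq_norm]
      have : (-I) ^ k * x + ((m : ℂ) + n * I) - ((-I) ^ k * y + (m + n * I)) =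
          (-I) ^ k * (x - y) := by ring
      rw [this, norm_mul, norm_pow, norm_neg, norm_I, one_pow, one_mul])

theorem mot_apply (k : ℕ) (m n : ℤ) (z : ℂ) : mot k m n z = (-I) ^ k * z + (m + n * I) := rfl

theorem exists_monohedral : ∃ 𝒯, IsMonohedral T0 𝒯 := by
  refine ⟨{S | ∃ (k : ℕ) (m n : ℤ), k < 4 ∧ 52 ∣ m - 22 * n ∧ S = (mot k m n : ℂ → ℂ) '' T0},
    ⟨?_, ?_, ?_, ?_⟩, ?_⟩
  · refine (Set.countable_range (fun x : ℕ × ℤ × ℤ => (mot x.1 x.2.1 x.2.2 : ℂ → ℂ) '' T0)).mono ?_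
    rintro S ⟨k, m, n, _, _, rfl⟩
    exact ⟨(k, m, n), rfl⟩
  · rintro S ⟨k, m, n, _, _, rfl⟩
    exact disk_image _
  · refine eq_univ_of_forall fun z => ?_
    obtain ⟨k, m, n, hk, hd, w, hw, e⟩ := cover_plane z
    exact ⟨_, ⟨k, m, n, hk, hd, rfl⟩, w, hw, by rw [mot_apply]; exact e.symm⟩
  · rintro S ⟨k, m, n, hk, hd, rfl⟩ S' ⟨k', m', n', hk', hd', rfl⟩ hne
    rw [image_interior, image_interior, Set.disjoint_left]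
    rintro z ⟨w, hw, rfl⟩ ⟨w', hw', e⟩
    rw [mot_apply, mot_apply] at e
    obtain ⟨rfl, rfl, rfl⟩ := disjoint_tiles hk hk' hd hd' hw hw' e.symm
    exact hne rfl
  · rintro S ⟨k, m, n, _, _, rfl⟩
    exact ⟨_, rfl⟩

end Pool.Agent.MP_ef5fdc_co
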