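import Pool.Agent.Lib.MP_ef5fdc_co.Notch
import Pool.Agent.Lib.MP_ef5fdc_co.SecondB
import Pool.Agent.Lib.MP_ef5fdc_co.ThirdC
import Pool.Agent.Lib.MP_ef5fdc_co.ThirdD
import Pool.Agent.Lib.MP_ef5fdc_co.Reduce
import Pool.Agent.Lib.MP_ef5fdc_co.Hexagon
import Pool.Agent.Lib.MP_ef5fdc_co.Tiles

/-!
# `T0` is an anisohedral non-convex hexagon
-/

set_option autoImplicit false

open Set Topology Filter Complex

namespace Pool.Agent.MP_ef5fdc_co

theorem no_good (K : Subgroup (ℂ ≃ᵢ ℂ)) : ¬ Good K := by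
  intro hK
  obtain ⟨ρ, hρ, hρ'⟩ := notch hK
  obtain ⟨σ, hσ, h | h⟩ := second hK hρ hρ'
  · exact thirdC hK hρ hρ' hσ h
  · exact thirdD hK hσ h

theorem isAnisohedral_T0 : IsAnisohedral T0 := by
  refine ⟨exists_monohedral, ?_⟩
  rintro ⟨𝒯, h1, h2⟩
  obtain ⟨K, hK⟩ := exists_good h1 h2
  exact no_good K hK

/-- There is a non-convex anisohedral hexagon. -/
theorem main : ∃ T : Set Plane, IsHexagon T ∧ ¬ Convex ℝ T ∧ IsAnisohedral T :=
  ⟨T0, isHexagon_T0, not_convex_T0, isAnisohedral_T0⟩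

end Pool.Agent.MP_ef5fdc_co
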