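import Pool.Agent.Lib.MP_ef5fdc_co.Fill

/-!
# JOB NOTCH: the reflex corner of a tile is filled by the corner `V 5` of the rotated tile

`fill_corner` with `h = z = 1`, `p = V 1 = 1 + I`, `u = -1 - I`, `α = -11/2`, `β = 9/2` (so `α u + β I u = 10 + I`). It gives `g ∈ K` and `r, a, b, k ≠ 1, c`.

* `k ≠ 5`: `fill_none` with `h := g`, `z := 1`, the same `p`, `u' := I * u = 1 - I`, `α := 9/2`, `β := 11/2` (again `α u' + β I u' = 10 + I`).
  F1 is `side_right`, F2 is `sector_right` (with `α := δ`, `β := 1`), both mapped by `g` (`map_ray`); F4: `1 + I + t (1 - I) ∉ T0`.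
* `k = 5`, `r = false`: `dir false 5 = 1 - I`, so `a = -I`, `b = 0`.
* `k = 5`, `r = true`: `dir true 5 = 3 I`, so `a = (1 - I) / √2`, `b = 1 + √2 + I`, and `(g * g) z = z + (2 + √2) - √2 I`: contradiction by `Good.leaf`
  with `g * g`, `w = -0.7 + 2.8 I`, `w' = 3 + I`.
-/

set_option autoImplicit false

open Set Topology Filter Complex

namespace Pool.Agent.MP_ef5fdc_co

theorem notch_one_image (S : Set ℂ) : ((1 : ℂ ≃ᵢ ℂ) : ℂ → ℂ) '' S = S := by
  rw [IsometryEquiv.coe_one, image_id]

theorem ev_lt {e : ℝ} (he : 0 < e) : ∀ᶠ t : ℝ in 𝓝[>] 0, 0 < t ∧ t < e := by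
  filter_upwards [Ioo_mem_nhdsGT he] with t ht using ⟨ht.1, ht.2⟩

theorem notch_F3 : ∀ᶠ t : ℝ in 𝓝[>] 0, (1 + I : ℂ) + t * (10 + I) ∈ U0 := by
  filter_upwards [ev_lt (e := 1 / 10) (by norm_num)] with t ht
  obtain ⟨h1, h2⟩ := ht
  refine ⟨?_, ?_, ?_, Or.inl ?_⟩ <;> simp <;> linarith

theorem notch_V5 : V 5 = -1 + I := by apply Complex.ext <;> simp [V]

theorem notch_df : dir false 5 = 1 - I := by
  have h : dir false 5 = V 0 - V 5 := rfl
  rw [h]
  apply Complex.ext <;> simp [V]

theorem notch_dt : dir true 5 = 3 * I := by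
  have h : dir true 5 = V 4 - V 5 := rfl
  rw [h]
  apply Complex.ext <;> simp [V]
  norm_num

theorem notch {K : Subgroup (ℂ ≃ᵢ ℂ)} (hK : Good K) : ∃ ρ ∈ K, ∀ z : ℂ, ρ z = -I * z := by
  have hI : I * I = -1 := I_mul_I
  have hu0 : (-1 - I : ℂ) ≠ 0 := by
    intro h
    have := congrArg Complex.re h
    norm_num at this
  have hF3 := notch_F3
  obtain ⟨g, hg, hne, r, a, b, ha, hgz, k, hk1, hp, c, hc, hu⟩ :=
    fill_corner hK (one_mem K) (one_mem K) (p := 1 + I) (u := -1 - I) hu0
      (by
        filter_upwards [ev_lt (e := 1) one_pos] with t ht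
        obtain ⟨h1, h2⟩ := ht
        rw [notch_one_image]
        refine ⟨⟨?_, ?_, ?_, Or.inr ⟨?_, ?_⟩⟩, ?_⟩
        · simp; linarith
        · simp; linarith
        · simp; linarith
        · simp
        · simp; linarith
        · rintro ⟨-, -, -, h | ⟨h, -⟩⟩
          · simp at h; linarith
          · simp at h)
      (by
        filter_upwards [ev_lt (e := 1) one_pos] with δ hδ
        obtain ⟨hδ1, hδ2⟩ := hδ
        filter_upwards [ev_lt (e := 1 / 2) (by norm_num)] with t ht
        obtain ⟨h1, h2⟩ := ht
        rw [notch_one_image]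
        have hδt : 0 < t * δ := mul_pos h1 hδ1
        have hδt' : t * δ < 1 / 2 := by nlinarith
        refine ⟨?_, ?_, ?_, Or.inr ⟨?_, ?_⟩⟩ <;> simp <;> nlinarith)
      (α := -11 / 2) (β := 9 / 2) (by norm_num)
      (by
        rw [notch_one_image]
        refine hF3.mono fun t ht => ?_
        convert ht using 2
        push_cast
        linear_combination (-9 / 2 : ℂ) * t * hI)
      (Or.inl rfl)
  by_cases hk5 : k = 5
  · subst hk5
    cases r
    · -- the rotation
      refine ⟨g, hg, fun x => ?_⟩
      rw [notch_df] at hu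
      simp only [cj, cond_false] at hu hp hgz
      have hc1 : c = 1 := by
        have h1 := congrArg normSq hu
        rw [map_mul, map_mul, normSq_eq_norm_sq a, ha, normSq_ofReal] at h1
        simp [normSq_apply] at h1
        nlinarith
      rw [hc1, ofReal_one, one_mul] at hu
      have ha' : a = -I := by
        linear_combination (-(1 + I) / 2) * hu + ((a - 1) / 2) * hI
      have hb : b = 0 := by
        rw [notch_V5, ha'] at hp
        linear_combination hp + hI
      rw [hgz, ha', hb, add_zero]
    · exfalso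
      rw [notch_dt] at hu
      simp only [cj, cond_true] at hu hp hgz
      have hs2 : (√2 : ℝ) ^ 2 = 2 := Real.sq_sqrt (by norm_num)
      have hs0 : (0 : ℝ) < √2 := Real.sqrt_pos.mpr (by norm_num)
      have hc1 : 3 * c = √2 := by
        have h1 := congrArg normSq hu
        rw [map_mul, normSq_conj, map_mul, normSq_eq_norm_sq a, ha, normSq_ofReal] at h1
        simp [normSq_apply] at h1
        nlinarith
      have hsc : ((√2 : ℝ) : ℂ) ^ 2 = 2 := by exact_mod_cast hs2
      have hsc0 : ((√2 : ℝ) : ℂ) ≠ 0 := by exact_mod_cast hs0.ne'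
      have hcc : (3 : ℂ) * c = (√2 : ℝ) := by exact_mod_cast congrArg (fun x : ℝ => (x : ℂ)) hc1
      set s : ℂ := ((√2 : ℝ) : ℂ) with hs
      have has : a * s = 1 - I := by
        have c3 : (starRingEnd ℂ) 3 = 3 := map_ofNat _ 3
        simp only [map_mul, conj_ofReal, conj_I, c3] at hu
        linear_combination (-I) * hu - a * hcc + (3 * a * c - 1) * hI
      have hca : (starRingEnd ℂ) a * s = 1 + I := by
        have := congrArg (starRingEnd ℂ) has
        rw [map_mul, hs, conj_ofReal, map_sub, map_one, conj_I] at this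
        rw [hs, this]
        ring
      have hb : b = 1 + I + s := by
        rw [notch_V5] at hp
        simp only [map_add, map_neg, map_one, conj_I] at hp
        have h1 : a * (1 + I) = s := by
          apply mul_right_cancel₀ hsc0
          linear_combination (1 + I) * has - hsc - hI
        linear_combination hp + h1
      have hgg : ∀ x, (g * g) x = x + (2 + s - I * s) := by
        intro x
        change g (g x) = _
        rw [hgz, hgz, map_add, map_mul, conj_conj, hb]
        have h1 : a * (starRingEnd ℂ) a = 1 := by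
          apply mul_right_cancel₀ (pow_ne_zero 2 hsc0)
          linear_combination (starRingEnd ℂ) a * s * has + (1 - I) * hca - hsc - hI
        have h2 : a * (1 - I) = - I * s := by
          apply mul_right_cancel₀ hsc0
          linear_combination (1 - I) * has + I * hsc + hI
        have hcs : (starRingEnd ℂ) s = s := by rw [hs, conj_ofReal]
        simp only [map_add, map_one, conj_I, hcs]
        linear_combination x * h1 + h2 + has
      have hs1 : (1.41 : ℝ) < √2 := by
        rw [Real.lt_sqrt (by norm_num)]; norm_num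
      have hs3 : √2 < (1.42 : ℝ) := by
        rw [Real.sqrt_lt' (by norm_num)]; norm_num
      refine hK.leaf (mul_mem hg hg) (⟨-0.7, 2.8⟩) (⟨3, 1⟩) ?_ ?_ ?_ ?_
      · refine ⟨?_, ?_, ?_, Or.inl ?_⟩ <;> norm_num
      · rw [hgg]
        refine ⟨?_, ?_, ?_, Or.inl ?_⟩ <;> simp [hs] <;> linarith
      · refine ⟨?_, ?_, ?_, Or.inl ?_⟩ <;> norm_num
      · rw [hgg]
        rintro ⟨-, h, -⟩
        simp [hs] at h
        linarith
  · exfalso
    have hgr : ∀ (w : ℂ) (t : ℝ), g (V k + t * w) = 1 + I + t * (a * cj r w) := by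
      intro w t
      rw [hgz, map_ray, hp]
    have hrot : ∀ v : ℂ, a * cj r (sg r * I * v) = I * (a * cj r v) := by
      intro v
      cases r
      · simp only [cj, sg, cond_false, ofReal_one]; ring
      · simp only [cj, sg, cond_true, map_mul, conj_I, ofReal_neg, ofReal_one, map_neg, map_one]
        ring
    have hlin : ∀ (x y : ℝ) (v : ℂ), a * cj r (x * v + y * (sg r * I * v))
        = x * (a * cj r v) + y * (I * (a * cj r v)) := by
      intro x y v
      rw [← hrot]
      cases r
      · simp only [cj, sg, cond_false, ofReal_one]; ring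
      · simp only [cj, sg, cond_true, map_mul, map_add, conj_I, conj_ofReal, ofReal_neg,
          ofReal_one, map_neg, map_one]
        ring
    have hu1 : (1 - I : ℂ) ≠ 0 := by
      intro h
      have := congrArg Complex.re h
      norm_num at this
    refine fill_none hK hg (one_mem K) (p := 1 + I) (u := 1 - I) hu1 ?_ ?_
      (α := 9 / 2) (β := 11 / 2) (by norm_num) (by norm_num) ?_ (Or.inr ?_)
    · filter_upwards [side_right hk1 hk5 r hc] with t ht
      refine ⟨_, ht, ?_⟩
      rw [hgr, hrot, ← hu]
      linear_combination (-t : ℂ) * hI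
    · filter_upwards [ev_lt (e := 1) one_pos] with δ hδ
      filter_upwards [sector_right hk1 r hc hδ.1 one_pos] with t ht
      refine ⟨_, ht, ?_⟩
      rw [hgr, hlin, ← hu, ofReal_one]
      linear_combination (-t * (1 + δ) : ℂ) * hI
    · rw [notch_one_image]
      refine hF3.mono fun t ht => ?_
      convert ht using 2
      push_cast
      linear_combination (-11 / 2 : ℂ) * t * hI
    · filter_upwards [ev_lt (e := 1) one_pos] with t ht
      obtain ⟨h1, h2⟩ := ht
      rw [notch_one_image]
      rintro ⟨-, -, -, h | ⟨h, -⟩⟩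
      · simp at h; linarith
      · simp at h; linarith

end Pool.Agent.MP_ef5fdc_co
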