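import Pool.Agent.Lib.MP_ef5fdc_co.Defs

/-!
# The hexagon

`T0` is the hexagon with the vertices `0, 1 + i, 3 + i, 3 + 4 i, -1 + 4 i, -1 + i`: the rectangle
`[-1, 3] × [1, 4]` with an isosceles right triangle (a tooth) attached to its lower side.
-/

set_option autoImplicit false

open Set Topology Filter

namespace Pool.Agent.MP_ef5fdc_co

/-- the hexagon -/
def T0 : Set ℂ := {z | -1 ≤ z.re ∧ z.re ≤ 3 ∧ z.im ≤ 4 ∧ (1 ≤ z.im ∨ (z.re ≤ z.im ∧ -z.re ≤ z.im))}

/-- its interior -/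
def U0 : Set ℂ := {z | -1 < z.re ∧ z.re < 3 ∧ z.im < 4 ∧ (1 < z.im ∨ (z.re < z.im ∧ -z.re < z.im))}

/-- the vertices, counterclockwise -/
noncomputable def V : Fin 6 → ℂ := ![⟨0, 0⟩, ⟨1, 1⟩, ⟨3, 1⟩, ⟨3, 4⟩, ⟨-1, 4⟩, ⟨-1, 1⟩]

theorem isOpen_U0 : IsOpen U0 := by
  have h1 : Continuous fun z : ℂ => z.re := Complex.continuous_re
  have h2 : Continuous fun z : ℂ => z.im := Complex.continuous_im
  refine (isOpen_lt continuous_const h1).inter ((isOpen_lt h1 continuous_const).inter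
    ((isOpen_lt h2 continuous_const).inter ((isOpen_lt continuous_const h2).union
    ((isOpen_lt h1 h2).inter (isOpen_lt h1.neg h2)))))

theorem isClosed_T0 : IsClosed T0 := by
  have h1 : Continuous fun z : ℂ => z.re := Complex.continuous_re
  have h2 : Continuous fun z : ℂ => z.im := Complex.continuous_im
  refine (isClosed_le continuous_const h1).inter ((isClosed_le h1 continuous_const).inter
    ((isClosed_le h2 continuous_const).inter ((isClosed_le continuous_const h2).union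
    ((isClosed_le h1 h2).inter (isClosed_le h1.neg h2)))))

theorem U0_subset_T0 : U0 ⊆ T0 := by
  rintro z ⟨h1, h2, h3, h4⟩
  refine ⟨h1.le, h2.le, h3.le, ?_⟩
  rcases h4 with h4 | ⟨h4, h5⟩
  · exact Or.inl h4.le
  · exact Or.inr ⟨h4.le, h5.le⟩

end Pool.Agent.MP_ef5fdc_co
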